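import Pool.Agent.U187.LP.Chain

/-! `δ₀` in the closed span of the eigenvectors; completeness. -/

set_option autoImplicit false

open scoped BigOperators ENNReal
open MeasureTheory Filter

namespace Pool.Agent.U187.LP

open Pool.Agent.H695R3.PP

/-- complex square summable sequences -/
noncomputable abbrev XC := lp (fun _ : ℤ => ℂ) 2

lemma xc_norm (x : XC) : ‖x‖ ^ 2 = ∑' n, ‖x n‖ ^ 2 := by
  have h := lp.norm_rpow_eq_tsum (p := 2) (by simp) x
  simpa using h

/-- a real square summable sequence as an element of `XC` -/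
noncomputable def mkC (f : ℤ → ℝ) (hf : Summable fun n => f n ^ 2) : XC :=
  ⟨fun n => (f n : ℂ), memℓp_gen (by simpa using hf)⟩

lemma mkC_apply (f : ℤ → ℝ) (hf : Summable fun n => f n ^ 2) (n : ℤ) :
    (mkC f hf) n = (f n : ℂ) := rfl

lemma mkC_norm (f : ℤ → ℝ) (hf : Summable fun n => f n ^ 2) : ‖mkC f hf‖ ^ 2 = ∑' n, f n ^ 2 := by
  rw [xc_norm]
  refine tsum_congr fun n => ?_
  rw [mkC_apply, Complex.norm_real, Real.norm_eq_abs, sq_abs]

theorem taskDelta : TaskDelta := by
  intro V L a τ d hL hpos hB1 hB2 hτd hastep hs1 hs2 ht1 ht2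
  rw [← SetLike.mem_coe, Submodule.topologicalClosure_coe, Metric.mem_closure_iff]
  intro ε hε
  have hall := hB1.and (hB2.and (hτd.and hastep))
  rw [eventually_atTop] at hall
  obtain ⟨K, hK⟩ := hall
  have e1 : ∀ᶠ k in atTop, (2 * (L k : ℝ) + 1) * a k ^ 2 < (ε / 2) ^ 2 :=
    ht1.eventually_lt_const (by positivity)
  have e2 : ∀ᶠ k in atTop, (2 * (L k : ℝ) + 1) * ∑' j, τ (k + j) / d (k + j + 1) < ε / 8 :=
    ht2.eventually_lt_const (by positivity)
  obtain ⟨k, hk1, hk2, hkK⟩ := (e1.and (e2.and (eventually_ge_atTop K))).exists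
  set T : ℝ := ∑' j, τ (k + j) / d (k + j + 1) with hT
  have hT0 : 0 ≤ T := tsum_nonneg fun j => by
    have h1 := (hpos (k + j)).2.1
    have h2 := (hpos (k + j + 1)).2.2
    positivity
  obtain ⟨e, ψ, he, hδ, hpar⟩ := taskCompl V (L k)
  -- replacement of the eigenvectors
  have hrep : ∀ j, ∃ (e' : ℝ) (φ : ℤ → ℝ), (Summable fun n => φ n ^ 2) ∧
      (∀ n, φ (n + 1) + φ (n - 1) + V n * φ n = e' * φ n) ∧
      (a k ≤ |ψ j 0| → (Summable fun n => (ψ j n - φ n) ^ 2) ∧
        ∑' n, (ψ j n - φ n) ^ 2 ≤ (4 * T) ^ 2) := by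
    intro j
    by_cases hj : a k ≤ |ψ j 0|
    · obtain ⟨e', φ, h1, h2, h3, h4⟩ := taskChain V L a τ d k hL hpos
        (fun k' hk' => (hK k' (hkK.trans hk')).1) (fun k' hk' => (hK k' (hkK.trans hk')).2.1)
        (fun k' hk' => (hK k' (hkK.trans hk')).2.2.1) (fun k' hk' => (hK k' (hkK.trans hk')).2.2.2)
        hs1 hs2 (e j) (ψ j) (he j) hj
      exact ⟨e', φ, h1, h2, fun _ => ⟨h3, h4⟩⟩
    · refine ⟨0, fun _ => 0, by simp, by simp, fun h => absurd h hj⟩
  choose e' φ hφs hφe hφd using hrep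
  have hsp : ∀ j, Sp (-(L k : ℤ)) (L k) (ψ j) := fun j => (he j).1
  set c : Fin (2 * L k + 1) → ℝ := fun j => if a k ≤ |ψ j 0| then 0 else ψ j 0 with hc
  set c' : Fin (2 * L k + 1) → ℝ := fun j => if a k ≤ |ψ j 0| then ψ j 0 else 0 with hc'
  have hcc : ∀ j, ψ j 0 = c j + c' j := by
    intro j
    simp only [hc, hc']
    split_ifs <;> simp
  set f1 : ℤ → ℝ := fun n => ∑ j, c j * ψ j n with hf1
  have hf1s : Sp (-(L k : ℤ)) (L k) f1 := by
    intro n hn
    simp only [hf1]
    refine Finset.sum_eq_zero fun j _ => ?_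
    rw [hsp j n hn, mul_zero]
  set z1 : XC := mkC f1 (sp_summable hf1s) with hz1
  set y : XC := ∑ j, (c' j : ℂ) • mkC (φ j) (hφs j) with hy
  set z2 : XC := ∑ j, (c' j : ℂ) • (mkC (ψ j) (sp_summable (hsp j)) - mkC (φ j) (hφs j)) with hz2
  have heq : lp.single 2 (0 : ℤ) (1 : ℂ) = y + (z1 + z2) := by
    have h0 : y + z2 = ∑ j, (c' j : ℂ) • mkC (ψ j) (sp_summable (hsp j)) := by
      rw [hy, hz2, ← Finset.sum_add_distrib]
      refine Finset.sum_congr rfl fun j _ => ?_
      rw [← smul_add, add_sub_cancel]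
    have h1 : y + (z1 + z2) = z1 + ∑ j, (c' j : ℂ) • mkC (ψ j) (sp_summable (hsp j)) := by
      rw [← h0]; abel
    rw [h1]
    ext n
    rw [lp.coeFn_add, Pi.add_apply, lp.coeFn_sum, Finset.sum_apply, lp.single_apply]
    have h2 : ∀ j, (((c' j : ℂ) • mkC (ψ j) (sp_summable (hsp j)) : XC) : ℤ → ℂ) n =
        ((c' j * ψ j n : ℝ) : ℂ) := by
      intro j
      rw [lp.coeFn_smul, Pi.smul_apply, mkC_apply, smul_eq_mul]
      push_cast
      rfl
    simp only [h2]
    rw [hz1, mkC_apply, hf1, ← Complex.ofReal_sum, ← Complex.ofReal_add, ← Finset.sum_add_distrib]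
    have h3 : ∑ j, (c j * ψ j n + c' j * ψ j n) = if n = 0 then (1 : ℝ) else 0 := by
      rw [hδ n]
      refine Finset.sum_congr rfl fun j _ => ?_
      rw [hcc j]
      ring
    rw [h3, Pi.single_apply]
    split_ifs <;> simp
  have hyS : y ∈ EigSpan V := by
    rw [hy]
    refine Submodule.sum_mem _ fun j _ => Submodule.smul_mem _ _ (Submodule.subset_span ?_)
    refine ⟨e' j, fun n => ?_⟩
    have h1 := hφe j n
    simp only [mkC_apply]
    exact_mod_cast h1
  refine ⟨y, hyS, ?_⟩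
  rw [dist_eq_norm, heq, add_sub_cancel_left]
  have hL0 : (0 : ℝ) ≤ 2 * (L k : ℝ) + 1 := by positivity
  have n1 : ‖z1‖ < ε / 2 := by
    have h1 : ‖z1‖ ^ 2 ≤ (2 * (L k : ℝ) + 1) * a k ^ 2 := by
      rw [hz1, mkC_norm, sp_tsum hf1s, hf1, hpar c]
      have h2 : ∀ j ∈ (Finset.univ : Finset (Fin (2 * L k + 1))), c j ^ 2 ≤ a k ^ 2 := by
        intro j _
        simp only [hc]
        split_ifs with h3
        · rw [zero_pow two_ne_zero]
          exact sq_nonneg _
        · rw [← sq_abs]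
          exact pow_le_pow_left₀ (abs_nonneg _) (not_le.1 h3).le 2
      refine (Finset.sum_le_sum h2).trans (le_of_eq ?_)
      rw [Finset.sum_const, Finset.card_univ, Fintype.card_fin, nsmul_eq_mul]
      push_cast
      ring
    exact lt_of_pow_lt_pow_left₀ 2 (by positivity) (h1.trans_lt hk1)
  have n2 : ‖z2‖ ≤ (2 * (L k : ℝ) + 1) * (4 * T) := by
    rw [hz2]
    refine (norm_sum_le _ _).trans ?_
    have h1 : ∀ j ∈ (Finset.univ : Finset (Fin (2 * L k + 1))),
        ‖(c' j : ℂ) • (mkC (ψ j) (sp_summable (hsp j)) - mkC (φ j) (hφs j))‖ ≤ 4 * T := by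
      intro j _
      by_cases h3 : a k ≤ |ψ j 0|
      · obtain ⟨h4, h5⟩ := hφd j h3
        have h6 : mkC (ψ j) (sp_summable (hsp j)) - mkC (φ j) (hφs j) =
            mkC (fun n => ψ j n - φ j n) h4 := by
          ext n
          rw [lp.coeFn_sub, Pi.sub_apply]
          simp only [mkC_apply]
          push_cast
          rfl
        rw [norm_smul, h6]
        have h7 : ‖mkC (fun n => ψ j n - φ j n) h4‖ ≤ 4 * T := by
          refine abs_le_of_sq_le_sq' ?_ (by positivity) |>.2
          rw [mkC_norm]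
          exact h5
        have h8 : ‖(c' j : ℂ)‖ ≤ 1 := by
          simp only [hc', if_pos h3]
          rw [Complex.norm_real, Real.norm_eq_abs]
          have h9 : ψ j 0 ^ 2 ≤ nsq (-(L k : ℤ)) (L k) (ψ j) :=
            Finset.single_le_sum (f := fun n => ψ j n ^ 2) (fun i _ => sq_nonneg _)
              (Finset.mem_Icc.2 ⟨by omega, by omega⟩)
          rw [(he j).2.1] at h9
          exact (sq_le_one_iff_abs_le_one _).1 h9
        calc ‖(c' j : ℂ)‖ * ‖mkC (fun n => ψ j n - φ j n) h4‖ ≤ 1 * (4 * T) :=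
              mul_le_mul h8 h7 (norm_nonneg _) zero_le_one
          _ = 4 * T := one_mul _
      · have : c' j = 0 := by simp only [hc', if_neg h3]
        rw [this]
        simp only [Complex.ofReal_zero, zero_smul, norm_zero]
        positivity
    refine (Finset.sum_le_sum h1).trans (le_of_eq ?_)
    rw [Finset.sum_const, Finset.card_univ, Fintype.card_fin, nsmul_eq_mul]
    push_cast
    ring
  calc ‖z1 + z2‖ ≤ ‖z1‖ + ‖z2‖ := norm_add_le _ _
    _ < ε / 2 + ε / 2 := by
        refine add_lt_add_of_lt_of_le n1 (n2.trans ?_)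
        nlinarith
    _ = ε := by ring

/-- shift by `m` -/
noncomputable def shf (m : ℤ) : XC →ₗ[ℂ] XC where
  toFun x := ⟨fun n => x (n - m), memℓp_gen (by
    have h := (lp.memℓp x).summable (by simp)
    exact (Equiv.subRight m).summable_iff.2 h)⟩
  map_add' x y := by ext n; rfl
  map_smul' c x := by ext n; rfl

lemma shf_apply (m : ℤ) (x : XC) (n : ℤ) : (shf m x) n = x (n - m) := rfl

lemma shf_norm (m : ℤ) (x : XC) : ‖shf m x‖ = ‖x‖ := by
  have h : ‖shf m x‖ ^ 2 = ‖x‖ ^ 2 := by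
    rw [xc_norm, xc_norm]
    exact (Equiv.subRight m).tsum_eq (fun n => ‖x n‖ ^ 2)
  exact (pow_left_inj₀ (norm_nonneg _) (norm_nonneg _) two_ne_zero).1 h

theorem taskTop : TaskTop := by
  intro V h
  have h1 : ∀ m : ℤ, lp.single 2 m (1 : ℂ) ∈ (EigSpan V).topologicalClosure := by
    intro m
    have h2 := h m
    rw [← SetLike.mem_coe, Submodule.topologicalClosure_coe, Metric.mem_closure_iff] at h2 ⊢
    intro ε hε
    obtain ⟨y, hy, hd⟩ := h2 ε hε
    refine ⟨shf m y, ?_, ?_⟩
    · have h3 : EigSpan (fun n => V (m + n)) ≤ (EigSpan V).comap (shf m) := by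
        unfold EigSpan
        rw [Submodule.span_le]
        rintro x ⟨E, hx⟩
        refine Submodule.subset_span ⟨E, fun n => ?_⟩
        simp only [shf_apply]
        have h4 : x (n - m + 1) + x (n - m - 1) + (V (m + (n - m)) : ℂ) * x (n - m) =
            (E : ℂ) * x (n - m) := hx (n - m)
        have e1 : n - m + 1 = n + 1 - m := by ring
        have e2 : n - m - 1 = n - 1 - m := by ring
        have e3 : m + (n - m) = n := by ring
        rw [e1, e2, e3] at h4
        exact h4
      exact h3 hy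
    · have h5 : lp.single 2 m (1 : ℂ) = shf m (lp.single 2 0 1) := by
        ext n
        rw [shf_apply, lp.single_apply, lp.single_apply, Pi.single_apply, Pi.single_apply]
        by_cases hn : n = m
        · rw [if_pos hn, if_pos (by omega)]
        · rw [if_neg hn, if_neg (by omega)]
      rw [h5, dist_eq_norm, ← map_sub, shf_norm, ← dist_eq_norm]
      exact hd
  rw [eq_top_iff]
  intro x _
  have h6 := lp.hasSum_single (p := 2) (by simp) x
  refine (EigSpan V).isClosed_topologicalClosure.mem_of_tendsto h6 (Eventually.of_forall fun s => ?_)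
  refine Submodule.sum_mem _ fun i _ => ?_
  have h7 : (lp.single 2 i (x i) : XC) = x i • (lp.single 2 i (1 : ℂ) : XC) := by
    ext n
    rw [lp.coeFn_smul, Pi.smul_apply, lp.single_apply, lp.single_apply, Pi.single_apply,
      Pi.single_apply]
    split_ifs <;> simp
  rw [h7]
  exact Submodule.smul_mem _ _ (h1 i)

end Pool.Agent.U187.LP
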