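import Pool.Agent.U187.LP.Final3

/-! From finitely many bad events to pure point spectrum. -/

set_option autoImplicit false

open scoped BigOperators ENNReal
open MeasureTheory Filter

namespace Pool.Agent.U187.LP

open Pool.Agent.H695R3.PP

lemma LS_strictMono : StrictMono LS := by
  intro a b h
  unfold LS
  exact Nat.pow_lt_pow_right (by norm_num) h

lemma ratio_eq (l : ℝ) (k : ℕ) : tS l k / dS l (k + 1) = Real.exp (-(l / 4 * 4 ^ k)) := by
  unfold tS dS
  rw [← Real.exp_sub]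
  congr 1
  rw [pow_succ]
  ring

theorem delta_of_good (hN : TaskNum) (hD : TaskDelta) {l : ℝ} (hl : 0 < l) (V : ℤ → ℝ)
    (h : ∀ᶠ k in atTop, V ∉ BB (LS k) (aS k) (tS l k) (dS l k)) :
    lp.single 2 (0 : ℤ) (1 : ℂ) ∈ (EigSpan V).topologicalClosure := by
  have hr0 : Tendsto (fun k : ℕ => Real.exp (-(l / 4 * 4 ^ k))) atTop (nhds 0) := by
    have := (hN (l / 4) 1 (by positivity) le_rfl).1.tendsto_atTop_zero
    simpa using this
  have hr8 : Tendsto (fun k : ℕ => (8 : ℝ) ^ k * Real.exp (-(l / 4 * 4 ^ k))) atTop (nhds 0) :=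
    (hN (l / 4) 8 (by positivity) (by norm_num)).1.tendsto_atTop_zero
  refine hD V LS aS (tS l) (dS l) LS_strictMono (fun k => ⟨?_, ?_, ?_⟩) ?_ ?_ ?_ ?_ ?_ ?_ ?_ ?_
  · unfold aS; positivity
  · unfold tS; positivity
  · unfold dS; positivity
  · filter_upwards [h] with k hk hb
    exact hk (Or.inl hb)
  · have h2 : ∀ᶠ k in atTop, ¬ Bad2 (LS k) (dS l k) V := by
      filter_upwards [h] with k hk hb
      exact hk (Or.inr hb)
    exact (tendsto_add_atTop_nat 1).eventually h2
  · have h3 : ∀ᶠ k : ℕ in atTop, Real.exp (-(l / 4 * 4 ^ k)) ≤ 1 / 4 :=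
      hr0.eventually_le_const (by norm_num)
    filter_upwards [h3] with k hk
    rw [← ratio_eq, div_le_div_iff₀ (by unfold dS; positivity) (by norm_num)] at hk
    linarith
  · have h3 : ∀ᶠ k : ℕ in atTop, (8 : ℝ) ^ k * Real.exp (-(l / 4 * 4 ^ k)) ≤ 7 / 32 :=
      hr8.eventually_le_const (by norm_num)
    filter_upwards [h3] with k hk
    rw [mul_div_assoc, ratio_eq]
    unfold aS
    have h8 : (0 : ℝ) < 8 ^ k := by positivity
    have h4 : Real.exp (-(l / 4 * 4 ^ k)) ≤ 7 / 32 / 8 ^ k := by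
      rw [le_div_iff₀ h8]
      linarith
    have h5 : (1 : ℝ) / 8 ^ (k + 1) = 1 / 8 / 8 ^ k := by
      rw [pow_succ]
      field_simp
    rw [h5]
    calc (1 : ℝ) / 8 / 8 ^ k + 4 * Real.exp (-(l / 4 * 4 ^ k))
        ≤ 1 / 8 / 8 ^ k + 4 * (7 / 32 / 8 ^ k) := by linarith
      _ = 1 / 8 ^ k := by field_simp; norm_num
  · simp only [ratio_eq]
    have := (hN (l / 4) 1 (by positivity) le_rfl).1
    simpa using this
  · unfold tS
    have := (hN (l / 2) 1 (by positivity) le_rfl).1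
    simpa using this
  · have h1 : ∀ k : ℕ, (2 * (LS k : ℝ) + 1) * aS k ^ 2 ≤ 3 * (1 / 4) ^ k := by
      intro k
      have h16 : (1 : ℝ) ≤ 16 ^ k := one_le_pow₀ (by norm_num)
      have e : (aS k) ^ 2 = 1 / 64 ^ k := by
        unfold aS
        rw [div_pow, one_pow, ← pow_mul, mul_comm k 2, pow_mul]; norm_num
      have e2 : (1 / 4 : ℝ) ^ k = 16 ^ k / 64 ^ k := by
        rw [← div_pow]; norm_num
      rw [e, e2]
      unfold LS
      push_cast
      rw [mul_one_div, ← mul_div_assoc]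
      exact div_le_div_of_nonneg_right (by linarith) (by positivity)
    refine squeeze_zero (fun k => by positivity) h1 ?_
    have := (tendsto_pow_atTop_nhds_zero_of_lt_one (r := (1 / 4 : ℝ)) (by norm_num)
      (by norm_num)).const_mul 3
    simpa using this
  · have h1 : ∀ k : ℕ, (2 * (LS k : ℝ) + 1) * ∑' j, tS l (k + j) / dS l (k + j + 1) ≤
        3 * (16 ^ k * ∑' j : ℕ, Real.exp (-(l / 4 * 4 ^ (k + j)))) := by
      intro k
      have h16 : (1 : ℝ) ≤ 16 ^ k := one_le_pow₀ (by norm_num)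
      simp only [ratio_eq]
      have hnn : 0 ≤ ∑' j : ℕ, Real.exp (-(l / 4 * 4 ^ (k + j))) :=
        tsum_nonneg fun j => (Real.exp_pos _).le
      rw [← mul_assoc]
      refine mul_le_mul_of_nonneg_right ?_ hnn
      unfold LS
      push_cast
      linarith
    refine squeeze_zero (fun k => ?_) h1 ?_
    · have : 0 ≤ ∑' j, tS l (k + j) / dS l (k + j + 1) := tsum_nonneg fun j => by
        unfold tS dS; positivity
      positivity
    · have := ((hN (l / 4) 16 (by positivity) (by norm_num)).2).const_mul 3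
      simpa using this

/-- The main assembly: the frozen statement from the tasks. -/
theorem assembly (hR : TaskResample) (hT : TaskTransfer) (hG1 : TaskG1) (hG2 : TaskG2)
    (hN : TaskNum) (hMs : TaskMeas) (hD : TaskDelta) (hTop : TaskTop) (hGr : TaskGroup) :
    ∀ (Ω : Type) [AddCommGroup Ω] [TopologicalSpace Ω] [IsTopologicalAddGroup Ω]
      [CompactSpace Ω] [T2Space Ω] [TotallyDisconnectedSpace Ω]
      [TopologicalSpace.MetrizableSpace Ω] [Infinite Ω]
      [MeasurableSpace Ω] [BorelSpace Ω]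
      (μ : Measure Ω) [μ.IsAddHaarMeasure] (α : Ω),
      Dense (Set.range (fun n : ℤ => n • α)) →
      ∃ D : Set C(Ω, ℝ), Dense D ∧
        ∀ f ∈ D, ∀ᵐ ω ∂μ,
          (Submodule.span ℂ
            {ψ : lp (fun _ : ℤ => ℂ) 2 |
              ∃ E : ℝ, ∀ n : ℤ,
                ψ (n + 1) + ψ (n - 1) + (f (ω + n • α) : ℂ) * ψ n = (E : ℂ) * ψ n}
            ).topologicalClosure = ⊤ := by
  intro Ω _ _ _ _ _ _ _ _ _ _ μ _ α hα
  choose H hHo hHf hH using hGr Ω α hα
  refine ⟨{f | ∀ᵐ ω ∂μ, (EigSpan fun n => f (ω + n • α)).topologicalClosure = ⊤}, ?_,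
    fun f hf => hf⟩
  rw [Metric.dense_iff]
  intro f r hr
  -- levels
  let H' : ℕ → AddSubgroup Ω := fun k => H (2 * LS k)
  let Q : ℕ → Type := fun k => Ω ⧸ H' k
  have hfin : ∀ k, Finite (Q k) := fun k => hHf (2 * LS k)
  letI : ∀ k, Fintype (Q k) := fun k => Fintype.ofFinite _
  let p : ∀ k, Ω → Q k := fun k ω => QuotientAddGroup.mk ω
  have hdisc : ∀ k, DiscreteTopology (Q k) := fun k =>
    QuotientAddGroup.discreteTopology (hHo (2 * LS k))
  have hpc : ∀ k, Continuous (p k) := fun k => QuotientAddGroup.continuous_mk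
  have hpl : ∀ k, IsLocallyConstant (p k) := fun k => by
    have := hdisc k
    rw [IsLocallyConstant.iff_continuous]
    exact hpc k
  have hpm : ∀ k c, MeasurableSet (p k ⁻¹' {c}) := fun k c => by
    have := hdisc k
    exact ((isOpen_discrete {c}).preimage (hpc k)).measurableSet
  have hinj : ∀ k ω, Set.InjOn (fun n : ℤ => p k (ω + n • α)) (Set.Icc (-(LS k : ℤ)) (LS k)) := by
    intro k ω m hm n hn hmn
    by_contra hne
    have h1 : (QuotientAddGroup.mk (ω + m • α) : Ω ⧸ H' k) = QuotientAddGroup.mk (ω + n • α) := hmn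
    rw [QuotientAddGroup.eq] at h1
    have h2 : -(ω + m • α) + (ω + n • α) = (n - m) • α := by
      rw [sub_smul]; abel
    rw [h2] at h1
    refine hH (2 * LS k) (n - m) (fun h => hne (by omega)) ?_ h1
    rw [Set.mem_Icc] at hm hn
    rw [abs_le]
    push_cast
    omega
  obtain ⟨M, hM0, hM⟩ : ∃ M : ℝ, 0 ≤ M ∧ ∀ ω, |f ω| ≤ M :=
    ⟨‖f‖, norm_nonneg _, fun ω => f.norm_coe_le_norm ω⟩
  obtain ⟨c, hc, hgood⟩ := exists_good p f hR hT hG1 hG2 hN hMs μ (fun n ω => ω + n • α)
    (fun n => (continuous_id.add continuous_const).measurable) f.continuous.measurable hpm hinj M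
    hM0 hM
  obtain ⟨η, hη⟩ := hgood (min 1 (r / 4)) (by positivity) (min_le_left _ _)
  set ε0 : ℝ := min 1 (r / 4) with hε0
  have hε : 0 < ε0 := by positivity
  have he : ∀ k, 0 ≤ eS ε0 k := fun k => (eS_pos hε k).le
  have hs : Summable (eS ε0) := (eS_hasSum ε0).summable
  have hts : ∑' k, eS ε0 k = 2 * ε0 := (eS_hasSum ε0).tsum_eq
  let F : C(Ω, ℝ) := ⟨Ff p f (eS ε0) η, Ff_cont p f he hs hpl f.continuous η⟩
  refine ⟨F, ?_, ?_⟩
  · rw [Metric.mem_ball, ContinuousMap.dist_lt_iff hr]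
    intro ω
    rw [Real.dist_eq]
    have h1 := Ff_abs p f he hs η ω
    rw [hts] at h1
    have h2 : ε0 ≤ r / 4 := min_le_right _ _
    calc |F ω - f ω| ≤ 2 * ε0 := h1
      _ < r := by linarith
  · have h6 : ∀ m : ℤ, ∀ᵐ ω ∂μ, ∀ᶠ k in atTop,
        (fun n => Ff p f (eS ε0) η ((ω + m • α) + n • α)) ∉
          BB (LS k) (aS k) (tS (c * ε0 ^ 2) k) (dS (c * ε0 ^ 2) k) := fun m =>
      (measurePreserving_add_right μ (m • α)).quasiMeasurePreserving.ae hη
    rw [← ae_all_iff] at h6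
    filter_upwards [h6] with ω hω
    refine hTop _ fun m => ?_
    have h7 := delta_of_good hN hD (l := c * ε0 ^ 2) (by positivity) _ (hω m)
    have h8 : (fun n : ℤ => Ff p f (eS ε0) η ((ω + m • α) + n • α)) =
        fun n => F (ω + (m + n) • α) := by
      funext n
      show Ff p f (eS ε0) η _ = Ff p f (eS ε0) η _
      congr 1
      rw [add_smul, add_assoc]
    rw [h8] at h7
    exact h7

end Pool.Agent.U187.LP
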