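import Pool.Agent.U187.LP.Basic

/-! Closedness and measurability of spectral conditions. -/

set_option autoImplicit false

open scoped BigOperators ENNReal
open MeasureTheory

namespace Pool.Agent.U187.LP

open Pool.Agent.H695R3.PP

/-- compact set of candidates -/
def KK (R : ℝ) : Set (ℝ × (ℤ → ℝ)) := Set.Icc (-R) R ×ˢ Set.pi Set.univ fun _ => Set.Icc (-1) 1

lemma KK_compact (R : ℝ) : IsCompact (KK R) :=
  isCompact_Icc.prod (isCompact_univ_pi fun _ => isCompact_Icc)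

lemma eig_le {V : ℤ → ℝ} {a b : ℤ} {E : ℝ} {ψ : ℤ → ℝ} (h : IsEig V a b E ψ) (n : ℤ) :
    |ψ n| ≤ 1 := by
  by_cases hn : a ≤ n ∧ n ≤ b
  · have h1 : ψ n ^ 2 ≤ nsq a b ψ :=
      Finset.single_le_sum (f := fun n => ψ n ^ 2) (fun i _ => sq_nonneg _)
        (Finset.mem_Icc.2 hn)
    rw [h.2.1] at h1
    exact abs_le_one_iff_mul_self_le_one.2 (by nlinarith)
  · rw [h.1 n (by omega)]
    simp

lemma mem_KK {V : ℤ → ℝ} {a b : ℤ} {E R : ℝ} {ψ : ℤ → ℝ} (h : IsEig V a b E ψ) (hE : |E| ≤ R) :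
    (E, ψ) ∈ KK R :=
  ⟨abs_le.1 hE, fun n _ => abs_le.1 (eig_le h n)⟩

lemma isClosed_eig (a b : ℤ) :
    IsClosed {p : (ℝ × (ℤ → ℝ)) × (ℤ → ℝ) | IsEig p.2 a b p.1.1 p.1.2} := by
  unfold IsEig nsq
  have hc : ∀ n : ℤ, Continuous (fun p : (ℝ × (ℤ → ℝ)) × (ℤ → ℝ) => p.1.2 n) := fun n =>
    (continuous_apply n).comp (continuous_snd.comp continuous_fst)
  have hV : ∀ n : ℤ, Continuous (fun p : (ℝ × (ℤ → ℝ)) × (ℤ → ℝ) => p.2 n) := fun n =>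
    (continuous_apply n).comp continuous_snd
  have hE : Continuous (fun p : (ℝ × (ℤ → ℝ)) × (ℤ → ℝ) => p.1.1) :=
    continuous_fst.comp continuous_fst
  refine IsClosed.inter ?_ (IsClosed.inter ?_ ?_)
  · have : {p : (ℝ × (ℤ → ℝ)) × (ℤ → ℝ) | ∀ n, n < a ∨ b < n → p.1.2 n = 0} =
        ⋂ n : ℤ, ⋂ (_ : n < a ∨ b < n), {p | p.1.2 n = 0} := by ext; simp
    change IsClosed {p : (ℝ × (ℤ → ℝ)) × (ℤ → ℝ) | ∀ n, n < a ∨ b < n → p.1.2 n = 0}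
    rw [this]
    exact isClosed_iInter fun n => isClosed_iInter fun _ => isClosed_eq (hc n) continuous_const
  · exact isClosed_eq (continuous_finsetSum _ fun n _ => (hc n).pow 2) continuous_const
  · have : {p : (ℝ × (ℤ → ℝ)) × (ℤ → ℝ) | ∀ n, a ≤ n → n ≤ b →
        p.1.2 (n + 1) + p.1.2 (n - 1) + p.2 n * p.1.2 n = p.1.1 * p.1.2 n} =
        ⋂ n : ℤ, ⋂ (_ : a ≤ n), ⋂ (_ : n ≤ b),
          {p | p.1.2 (n + 1) + p.1.2 (n - 1) + p.2 n * p.1.2 n = p.1.1 * p.1.2 n} := by ext; simp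
    change IsClosed {p : (ℝ × (ℤ → ℝ)) × (ℤ → ℝ) | ∀ n, a ≤ n → n ≤ b →
        p.1.2 (n + 1) + p.1.2 (n - 1) + p.2 n * p.1.2 n = p.1.1 * p.1.2 n}
    rw [this]
    exact isClosed_iInter fun n => isClosed_iInter fun _ => isClosed_iInter fun _ =>
      isClosed_eq (((hc _).add (hc _)).add ((hV n).mul (hc n))) (hE.mul (hc n))

/-- projection of a closed set along a compact set -/
lemma isClosed_proj {X Y : Type*} [TopologicalSpace X] [TopologicalSpace Y] {K : Set X}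
    (hK : IsCompact K) {C : Set (X × Y)} (hC : IsClosed C) :
    IsClosed {y : Y | ∃ x ∈ K, (x, y) ∈ C} := by
  have := isCompact_iff_compactSpace.1 hK
  have h1 : IsClosed ((fun p : K × Y => ((p.1 : X), p.2)) ⁻¹' C) :=
    hC.preimage ((continuous_subtype_val.comp continuous_fst).prodMk continuous_snd)
  have h2 := isClosedMap_snd_of_compactSpace (X := K) (Y := Y) _ h1
  convert h2 using 1
  ext y
  simp only [Set.mem_ofPred_eq, Set.mem_image, Set.mem_preimage, Prod.exists, Subtype.exists,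
    exists_eq_right]
  constructor
  · rintro ⟨x, hx, h⟩
    exact ⟨x, hx, h⟩
  · rintro ⟨x, hx, h⟩
    exact ⟨x, hx, h⟩

theorem taskClosed : TaskClosed := by
  intro a b R C hC
  have h := isClosed_proj (KK_compact R) (hC.inter (isClosed_eig a b))
  have hR : IsClosed {V : ℤ → ℝ | ∃ E ψ, |E| ≤ R ∧ IsEig V a b E ψ ∧ ((E, ψ), V) ∈ C} ↔
      IsClosed {y : ℤ → ℝ | ∃ x ∈ KK R, (x, y) ∈ C ∩ {p | IsEig p.2 a b p.1.1 p.1.2}} := by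
    refine iff_of_eq (congrArg _ ?_)
    ext V
    constructor
    · rintro ⟨E, ψ, h1, h2, h3⟩
      exact ⟨(E, ψ), mem_KK h2 h1, h3, h2⟩
    · rintro ⟨⟨E, ψ⟩, h1, h3, h2⟩
      exact ⟨E, ψ, abs_le.2 h1.1, h2, h3⟩
  exact hR.2 h

theorem taskClosed2 : TaskClosed2 := by
  intro a b a' b' R C hC
  have hcl : IsClosed {p : ((ℝ × (ℤ → ℝ)) × (ℝ × (ℤ → ℝ))) × (ℤ → ℝ) |
      IsEig p.2 a b p.1.1.1 p.1.1.2 ∧ IsEig p.2 a' b' p.1.2.1 p.1.2.2 ∧ p.1 ∈ C} := by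
    refine IsClosed.inter ?_ (IsClosed.inter ?_ ?_)
    · exact (isClosed_eig a b).preimage
        (f := fun p : ((ℝ × (ℤ → ℝ)) × (ℝ × (ℤ → ℝ))) × (ℤ → ℝ) => (p.1.1, p.2)) (by fun_prop)
    · exact (isClosed_eig a' b').preimage
        (f := fun p : ((ℝ × (ℤ → ℝ)) × (ℝ × (ℤ → ℝ))) × (ℤ → ℝ) => (p.1.2, p.2)) (by fun_prop)
    · exact hC.preimage continuous_fst
  have h := isClosed_proj ((KK_compact R).prod (KK_compact R)) hcl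
  have hR : {V : ℤ → ℝ | ∃ E ψ E' ψ', |E| ≤ R ∧ |E'| ≤ R ∧ IsEig V a b E ψ ∧
      IsEig V a' b' E' ψ' ∧ ((E, ψ), (E', ψ')) ∈ C} =
      {y : ℤ → ℝ | ∃ x ∈ KK R ×ˢ KK R, (x, y) ∈
        {p : ((ℝ × (ℤ → ℝ)) × (ℝ × (ℤ → ℝ))) × (ℤ → ℝ) |
      IsEig p.2 a b p.1.1.1 p.1.1.2 ∧ IsEig p.2 a' b' p.1.2.1 p.1.2.2 ∧ p.1 ∈ C}} := by
    ext V
    constructor
    · rintro ⟨E, ψ, E', ψ', h1, h1', h2, h2', h3⟩
      exact ⟨((E, ψ), (E', ψ')), ⟨mem_KK h2 h1, mem_KK h2' h1'⟩, h2, h2', h3⟩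
    · rintro ⟨⟨⟨E, ψ⟩, ⟨E', ψ'⟩⟩, ⟨h1, h1'⟩, h2, h2', h3⟩
      exact ⟨E, ψ, E', ψ', abs_le.2 h1.1, abs_le.2 h1'.1, h2, h2', h3⟩
  rw [hR]
  exact h

theorem taskMeas : TaskMeas := by
  refine ⟨fun L a τ => ?_, fun L d => ?_⟩
  · have hc : ∀ n : ℤ, Continuous (fun p : (ℝ × (ℤ → ℝ)) × (ℤ → ℝ) => |p.1.2 n|) := fun n =>
      ((continuous_apply n).comp (continuous_snd.comp continuous_fst)).abs
    have hC : IsClosed {p : (ℝ × (ℤ → ℝ)) × (ℤ → ℝ) |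
        a ≤ |p.1.2 0| ∧ (τ ≤ |p.1.2 L| ∨ τ ≤ |p.1.2 (-(L : ℤ))|)} :=
      (isClosed_le continuous_const (hc 0)).inter
        ((isClosed_le continuous_const (hc L)).union (isClosed_le continuous_const (hc _)))
    have : {V : ℤ → ℝ | Bad1 L a τ V} = ⋃ R : ℕ, {V : ℤ → ℝ | ∃ E ψ, |E| ≤ (R : ℝ) ∧
        IsEig V (-(L : ℤ)) L E ψ ∧ ((E, ψ), V) ∈ {p : (ℝ × (ℤ → ℝ)) × (ℤ → ℝ) |
        a ≤ |p.1.2 0| ∧ (τ ≤ |p.1.2 L| ∨ τ ≤ |p.1.2 (-(L : ℤ))|)}} := by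
      ext V
      rw [Set.mem_iUnion]
      constructor
      · rintro ⟨E, ψ, h1, h2, h3⟩
        obtain ⟨R, hR⟩ := exists_nat_ge |E|
        exact ⟨R, E, ψ, hR, h1, h2, h3⟩
      · rintro ⟨R, E, ψ, _, h1, h2, h3⟩
        exact ⟨E, ψ, h1, h2, h3⟩
    rw [this]
    exact MeasurableSet.iUnion fun R => (taskClosed _ _ _ _ hC).measurableSet
  · have hco : Continuous (fun p : (ℝ × (ℤ → ℝ)) × (ℝ × (ℤ → ℝ)) => |p.1.1 - p.2.1|) := by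
      fun_prop
    have hC : ∀ j : ℕ, IsClosed {p : (ℝ × (ℤ → ℝ)) × (ℝ × (ℤ → ℝ)) |
        1 / ((j : ℝ) + 1) ≤ |p.1.1 - p.2.1| ∧ |p.1.1 - p.2.1| ≤ d} := fun j =>
      (isClosed_le continuous_const hco).inter (isClosed_le hco continuous_const)
    have : {V : ℤ → ℝ | Bad2 L d V} = ⋃ R : ℕ, ⋃ j : ℕ, {V : ℤ → ℝ | ∃ E ψ E' ψ',
        |E| ≤ (R : ℝ) ∧ |E'| ≤ (R : ℝ) ∧ IsEig V (-(L : ℤ)) L E ψ ∧ IsEig V (-(L : ℤ)) L E' ψ' ∧
        ((E, ψ), (E', ψ')) ∈ {p : (ℝ × (ℤ → ℝ)) × (ℝ × (ℤ → ℝ)) |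
        1 / ((j : ℝ) + 1) ≤ |p.1.1 - p.2.1| ∧ |p.1.1 - p.2.1| ≤ d}} := by
      ext V
      simp only [Set.mem_iUnion]
      constructor
      · rintro ⟨E, ψ, E', ψ', h1, h2, h3, h4⟩
        obtain ⟨R, hR⟩ := exists_nat_ge (max |E| |E'|)
        obtain ⟨j, hj⟩ := exists_nat_one_div_lt (abs_pos.2 (sub_ne_zero.2 h3))
        exact ⟨R, j, E, ψ, E', ψ', (le_max_left _ _).trans hR, (le_max_right _ _).trans hR, h1, h2,
          hj.le, h4⟩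
      · rintro ⟨R, j, E, ψ, E', ψ', _, _, h1, h2, h3, h4⟩
        refine ⟨E, ψ, E', ψ', h1, h2, ?_, h4⟩
        rintro rfl
        have h3' : 1 / ((j : ℝ) + 1) ≤ |E - E| := h3
        rw [sub_self, abs_zero] at h3'
        have : (0 : ℝ) < 1 / ((j : ℝ) + 1) := by positivity
        linarith
    rw [this]
    exact MeasurableSet.iUnion fun R => MeasurableSet.iUnion fun j =>
      (taskClosed2 _ _ _ _ _ _ (hC j)).measurableSet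

end Pool.Agent.U187.LP
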