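import Pool.Agent.U187.LP.TaskSA
import Pool.Agent.H853R3.PP.TaskResample

/-! Spectral averaging, in probability. -/

set_option autoImplicit false

open scoped BigOperators ENNReal
open MeasureTheory

namespace Pool.Agent.U187.LP

open Pool.Agent.H695R3.PP

lemma U_le (S : Set ℝ) : U S ≤ ENNReal.ofReal (1 / 2) * volume S := by
  unfold U
  rw [Measure.smul_apply, smul_eq_mul]
  exact mul_le_mul_right (Measure.restrict_apply_le _ _) _

lemma volume_affine (w ε : ℝ) (hε : 0 < ε) (G : Set ℝ) :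
    volume {s : ℝ | w + ε * s ∈ G} = ENNReal.ofReal (1 / ε) * volume G := by
  have e : {s : ℝ | w + ε * s ∈ G} = (fun s => ε * s) ⁻¹' ((fun t => w + t) ⁻¹' G) := rfl
  rw [e, Real.volume_preimage_mul_left hε.ne', measure_preimage_add]
  rw [abs_of_pos (inv_pos.2 hε), one_div]

theorem taskSAP : TaskSAP := by
  intro W ε κ a b m A B hε hκ hB hA h
  have h1 := Pool.Agent.H853R3.PP.Resample.taskResample ℤ (fun _ => ℝ) (fun _ => U) m
  have hup : Measurable (fun p : (ℤ → ℝ) × ℝ => Function.update p.1 m p.2) :=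
    Pool.Agent.H853R3.PP.Resample.measurable_upd (X := fun _ : ℤ => ℝ) m
  have h2 : PZ B = Measure.map (fun p : (ℤ → ℝ) × ℝ => Function.update p.1 m p.2)
      (PZ.prod U) B := by
    unfold PZ
    rw [h1]
  rw [h2, Measure.map_apply hup hB, Measure.prod_apply (hup hB)]
  refine lintegral_mono fun x => ?_
  set G : Set ℝ := {t : ℝ | ∃ E ∈ A x, ∃ ψ,
    IsEig (Function.update (fun n => W n + ε * x n) m t) a b E ψ ∧ κ ≤ ψ m ^ 2} with hG
  have h3 : Prod.mk x ⁻¹' ((fun p : (ℤ → ℝ) × ℝ => Function.update p.1 m p.2) ⁻¹' B) ⊆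
      {s : ℝ | W m + ε * s ∈ G} := by
    intro s hs
    have hs' : Function.update x m s ∈ B := hs
    obtain ⟨E, hE, ψ, hψ, hk⟩ := h _ hs'
    rw [hA] at hE
    refine ⟨E, hE, ψ, ?_, hk⟩
    have e : (fun n => W n + ε * (Function.update x m s) n) =
        Function.update (fun n => W n + ε * x n) m (W m + ε * s) := by
      funext n
      by_cases hn : n = m
      · subst hn; simp
      · simp [Function.update_of_ne hn]
    rwa [e] at hψ
  calc U (Prod.mk x ⁻¹' ((fun p : (ℤ → ℝ) × ℝ => Function.update p.1 m p.2) ⁻¹' B))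
      ≤ U {s : ℝ | W m + ε * s ∈ G} := measure_mono h3
    _ ≤ ENNReal.ofReal (1 / 2) * volume {s : ℝ | W m + ε * s ∈ G} := U_le _
    _ = ENNReal.ofReal (1 / 2) * (ENNReal.ofReal (1 / ε) * volume G) := by
        rw [volume_affine _ _ hε]
    _ ≤ ENNReal.ofReal (1 / 2) * (ENNReal.ofReal (1 / ε) *
        (ENNReal.ofReal (1 / κ) * volume (A x))) := by
        refine mul_le_mul_right (mul_le_mul_right ?_ _) _
        exact taskSA (fun n => W n + ε * x n) a b m (A x) κ hκ
    _ = ENNReal.ofReal (1 / (2 * ε * κ)) * volume (A x) := by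
        rw [← mul_assoc, ← mul_assoc, ← ENNReal.ofReal_mul (by norm_num),
          ← ENNReal.ofReal_mul (by positivity)]
        congr 2
        field_simp

end Pool.Agent.U187.LP
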