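import Pool.Agent.U187.LP.Step
import Pool.Agent.U187.LP.TaskSAP
import Pool.Agent.U187.LP.TaskClosed

/-! The probability of the second bad event. -/

set_option autoImplicit false

open scoped BigOperators ENNReal
open MeasureTheory Filter

namespace Pool.Agent.U187.LP

open Pool.Agent.H695R3.PP

/-- the event of the pair `(m, n)`, in terms of the potential -/
def B2 (L : ℕ) (d : ℝ) (m n : ℤ) : Set (ℤ → ℝ) := {V | ∃ lam φ lam' φ',
  IsEig V (-(L : ℤ)) (m - 1) lam φ ∧ IsEig V m L lam' φ' ∧ |lam - lam'| ≤ 3 * d ∧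
    1 / (2 * (L : ℝ) + 1) ≤ φ' n ^ 2}

lemma B2_meas (L : ℕ) (d : ℝ) (m n : ℤ) : MeasurableSet (B2 L d m n) := by
  have hco : Continuous (fun p : (ℝ × (ℤ → ℝ)) × (ℝ × (ℤ → ℝ)) => |p.1.1 - p.2.1|) := by
    fun_prop
  have hc2 : Continuous (fun p : (ℝ × (ℤ → ℝ)) × (ℝ × (ℤ → ℝ)) => (p.2.2 n) ^ 2) :=
    ((continuous_apply n).comp (continuous_snd.comp continuous_snd)).pow 2
  have hC : IsClosed {p : (ℝ × (ℤ → ℝ)) × (ℝ × (ℤ → ℝ)) |
      |p.1.1 - p.2.1| ≤ 3 * d ∧ 1 / (2 * (L : ℝ) + 1) ≤ (p.2.2 n) ^ 2} :=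
    (isClosed_le hco continuous_const).inter (isClosed_le continuous_const hc2)
  have : B2 L d m n = ⋃ R : ℕ, {V : ℤ → ℝ | ∃ E ψ E' ψ', |E| ≤ (R : ℝ) ∧ |E'| ≤ (R : ℝ) ∧
      IsEig V (-(L : ℤ)) (m - 1) E ψ ∧ IsEig V m L E' ψ' ∧
      ((E, ψ), (E', ψ')) ∈ {p : (ℝ × (ℤ → ℝ)) × (ℝ × (ℤ → ℝ)) |
      |p.1.1 - p.2.1| ≤ 3 * d ∧ 1 / (2 * (L : ℝ) + 1) ≤ (p.2.2 n) ^ 2}} := by
    ext V
    rw [Set.mem_iUnion]
    constructor
    · rintro ⟨E, ψ, E', ψ', h1, h2, h3, h4⟩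
      obtain ⟨R, hR⟩ := exists_nat_ge (max |E| |E'|)
      exact ⟨R, E, ψ, E', ψ', (le_max_left _ _).trans hR, (le_max_right _ _).trans hR, h1, h2,
        h3, h4⟩
    · rintro ⟨R, E, ψ, E', ψ', _, _, h1, h2, h3, h4⟩
      exact ⟨E, ψ, E', ψ', h1, h2, h3, h4⟩
  rw [this]
  exact MeasurableSet.iUnion fun R => (taskClosed2 _ _ _ _ _ _ hC).measurableSet

lemma eig_congr2 {V V' : ℤ → ℝ} {a b : ℤ} (h : ∀ n, a ≤ n → n ≤ b → V n = V' n) (E : ℝ)
    (ψ : ℤ → ℝ) : IsEig V a b E ψ ↔ IsEig V' a b E ψ := by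
  unfold IsEig
  refine and_congr Iff.rfl (and_congr Iff.rfl ?_)
  refine forall_congr' fun n => forall_congr' fun h1 => forall_congr' fun h2 => ?_
  rw [h n h1 h2]

lemma meas_aff (W : ℤ → ℝ) (ε : ℝ) : Measurable (fun (x : ℤ → ℝ) (n : ℤ) => W n + ε * x n) :=
  measurable_pi_lambda _ fun n => measurable_const.add (measurable_const.mul (measurable_pi_apply n))

lemma vol_near (F : Finset ℝ) (r : ℝ) (hr : 0 ≤ r) (A : Set ℝ)
    (hA : ∀ E ∈ A, ∃ l ∈ F, |l - E| ≤ r) :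
    volume A ≤ ENNReal.ofReal (F.card * (2 * r)) := by
  have h1 : A ⊆ ⋃ l ∈ F, Set.Icc (l - r) (l + r) := by
    intro E hE
    obtain ⟨l, hl, h⟩ := hA E hE
    rw [Set.mem_iUnion₂]
    rw [abs_le] at h
    exact ⟨l, hl, by linarith, by linarith⟩
  calc volume A ≤ volume (⋃ l ∈ F, Set.Icc (l - r) (l + r)) := measure_mono h1
    _ ≤ ∑ l ∈ F, volume (Set.Icc (l - r) (l + r)) := measure_biUnion_finset_le _ _
    _ = ∑ _l ∈ F, ENNReal.ofReal (2 * r) := by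
        refine Finset.sum_congr rfl fun l _ => ?_
        rw [Real.volume_Icc]
        congr 1; ring
    _ = ENNReal.ofReal (F.card * (2 * r)) := by
        rw [Finset.sum_const, nsmul_eq_mul, ← ENNReal.ofReal_natCast, ← ENNReal.ofReal_mul
          (by positivity)]

lemma B2_prob (ε d : ℝ) (W : ℤ → ℝ) (L : ℕ) (hε : 0 < ε) (hd : 0 < d) (m n : ℤ)
    (hm : -(L : ℤ) < m) (hmL : m ≤ L) (hmn : m ≤ n) :
    PZ {x | (fun n => W n + ε * x n) ∈ B2 L d m n} ≤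
      ENNReal.ofReal (3 * (2 * (L : ℝ) + 1) ^ 2 * d / ε) := by
  set A : (ℤ → ℝ) → Set ℝ := fun x => {E' | ∃ lam φ,
    IsEig (fun n => W n + ε * x n) (-(L : ℤ)) (m - 1) lam φ ∧ |lam - E'| ≤ 3 * d} with hA
  have hAvol : ∀ x, volume (A x) ≤ ENNReal.ofReal ((2 * (L : ℝ) + 1) * (6 * d)) := by
    intro x
    obtain ⟨F, hF, hE⟩ := taskCard (fun n => W n + ε * x n) (-(L : ℤ)) (m - 1) (by omega)
    refine (vol_near F (3 * d) (by positivity) (A x) ?_).trans (ENNReal.ofReal_le_ofReal ?_)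
    · rintro E' ⟨lam, φ, h1, h2⟩
      exact ⟨lam, hE _ _ h1, h2⟩
    · have h1 : (F.card : ℤ) ≤ 2 * L + 1 := by omega
      have h2 : (F.card : ℝ) ≤ 2 * (L : ℝ) + 1 := by exact_mod_cast h1
      calc (F.card : ℝ) * (2 * (3 * d)) ≤ (2 * (L : ℝ) + 1) * (2 * (3 * d)) :=
            mul_le_mul_of_nonneg_right h2 (by positivity)
        _ = _ := by ring
  have h1 := taskSAP W ε (1 / (2 * (L : ℝ) + 1)) m L n A
    {x | (fun n => W n + ε * x n) ∈ B2 L d m n} hε (by positivity)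
    (meas_aff W ε (B2_meas L d m n)) (fun x s => ?_) (fun x hx => ?_)
  · refine h1.trans ?_
    calc ∫⁻ x, ENNReal.ofReal (1 / (2 * ε * (1 / (2 * (L : ℝ) + 1)))) * volume (A x) ∂PZ
        ≤ ∫⁻ _x, ENNReal.ofReal (1 / (2 * ε * (1 / (2 * (L : ℝ) + 1)))) *
          ENNReal.ofReal ((2 * (L : ℝ) + 1) * (6 * d)) ∂PZ :=
          lintegral_mono fun x => mul_le_mul_right (hAvol x) _
      _ = ENNReal.ofReal (3 * (2 * (L : ℝ) + 1) ^ 2 * d / ε) := by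
          rw [lintegral_const, measure_univ, mul_one, ← ENNReal.ofReal_mul (by positivity)]
          congr 1
          field_simp
          ring
  · -- independence of the coordinate `n`
    rw [hA]
    simp only
    ext E'
    refine exists_congr fun lam => exists_congr fun φ => and_congr ?_ Iff.rfl
    refine eig_congr2 (fun k h1 h2 => ?_) _ _
    show W k + ε * Function.update x n s k = W k + ε * x k
    rw [Function.update_of_ne (by omega)]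
  · obtain ⟨lam, φ, lam', φ', h1, h2, h3, h4⟩ := hx
    exact ⟨lam', ⟨lam, φ, h1, h3⟩, φ', h2, h4⟩

lemma bad2_sub (L : ℕ) (d : ℝ) (V : ℤ → ℝ) (h : Bad2 L d V) :
    ∃ m ∈ Finset.Ioc (-(L : ℤ)) L, ∃ n ∈ Finset.Icc m L, V ∈ B2 L d m n := by
  obtain ⟨E, ψ, E', ψ', h1, h2, h3, h4⟩ := h
  obtain ⟨m, hm1, hm2, lam, φ, lam', φ', g1, g2, g3⟩ :=
    taskSplit V (-(L : ℤ)) L E E' d ψ ψ' (by omega) h1 h2 h3 h4
  refine ⟨m, Finset.mem_Ioc.2 ⟨hm1, hm2⟩, ?_⟩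
  have h5 : ∃ n ∈ Finset.Icc m (L : ℤ), 1 / (2 * (L : ℝ) + 1) ≤ φ' n ^ 2 := by
    by_contra hcon
    push Not at hcon
    have h6 : nsq m L φ' < 1 := by
      unfold nsq
      calc ∑ n ∈ Finset.Icc m (L : ℤ), φ' n ^ 2
          < ∑ _n ∈ Finset.Icc m (L : ℤ), 1 / (2 * (L : ℝ) + 1) :=
            Finset.sum_lt_sum_of_nonempty ⟨m, Finset.mem_Icc.2 ⟨le_rfl, hm2⟩⟩ hcon
        _ = ((Finset.Icc m (L : ℤ)).card : ℝ) * (1 / (2 * (L : ℝ) + 1)) := by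
            rw [Finset.sum_const, nsmul_eq_mul]
        _ ≤ 1 := by
            rw [mul_one_div, div_le_one (by positivity), Int.card_Icc]
            have : ((L + 1 - m).toNat : ℤ) ≤ 2 * L + 1 := by omega
            exact_mod_cast this
    rw [g2.2.1] at h6
    exact lt_irrefl _ h6
  obtain ⟨n, hn, hn2⟩ := h5
  exact ⟨n, hn, lam, φ, lam', φ', g1, g2, g3, hn2⟩

theorem taskG2 : TaskG2 := by
  refine ⟨48, by norm_num, fun ε d W L hε hd => ?_⟩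
  have h1 : {x : ℤ → ℝ | Bad2 L d (fun n => W n + ε * x n)} ⊆
      ⋃ m ∈ Finset.Ioc (-(L : ℤ)) L, ⋃ n ∈ Finset.Icc m (L : ℤ),
        {x | (fun n => W n + ε * x n) ∈ B2 L d m n} := by
    intro x hx
    obtain ⟨m, hm, n, hn, h⟩ := bad2_sub L d _ hx
    rw [Set.mem_iUnion₂]
    refine ⟨m, hm, ?_⟩
    rw [Set.mem_iUnion₂]
    exact ⟨n, hn, h⟩
  have hK : (0 : ℝ) ≤ 3 * (2 * (L : ℝ) + 1) ^ 2 * d / ε := by positivity
  calc PZ {x | Bad2 L d (fun n => W n + ε * x n)}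
      ≤ PZ (⋃ m ∈ Finset.Ioc (-(L : ℤ)) L, ⋃ n ∈ Finset.Icc m (L : ℤ),
        {x | (fun n => W n + ε * x n) ∈ B2 L d m n}) := measure_mono h1
    _ ≤ ∑ m ∈ Finset.Ioc (-(L : ℤ)) L, PZ (⋃ n ∈ Finset.Icc m (L : ℤ),
        {x | (fun n => W n + ε * x n) ∈ B2 L d m n}) := measure_biUnion_finset_le _ _
    _ ≤ ∑ m ∈ Finset.Ioc (-(L : ℤ)) L, ∑ n ∈ Finset.Icc m (L : ℤ),
        PZ {x | (fun n => W n + ε * x n) ∈ B2 L d m n} :=
        Finset.sum_le_sum fun m _ => measure_biUnion_finset_le _ _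
    _ ≤ ∑ m ∈ Finset.Ioc (-(L : ℤ)) L, ∑ _n ∈ Finset.Icc m (L : ℤ),
        ENNReal.ofReal (3 * (2 * (L : ℝ) + 1) ^ 2 * d / ε) := by
        refine Finset.sum_le_sum fun m hm => Finset.sum_le_sum fun n hn => ?_
        rw [Finset.mem_Ioc] at hm
        rw [Finset.mem_Icc] at hn
        exact B2_prob ε d W L hε hd m n hm.1 hm.2 hn.1
    _ ≤ ∑ _m ∈ Finset.Ioc (-(L : ℤ)) L,
        ENNReal.ofReal ((2 * (L : ℝ) + 1) * (3 * (2 * (L : ℝ) + 1) ^ 2 * d / ε)) := by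
        refine Finset.sum_le_sum fun m hm => ?_
        rw [Finset.mem_Ioc] at hm
        rw [Finset.sum_const, nsmul_eq_mul, ← ENNReal.ofReal_natCast, ← ENNReal.ofReal_mul
          (by positivity)]
        refine ENNReal.ofReal_le_ofReal (mul_le_mul_of_nonneg_right ?_ hK)
        rw [Int.card_Icc]
        have : ((L + 1 - m).toNat : ℤ) ≤ 2 * L + 1 := by omega
        exact_mod_cast this
    _ ≤ ENNReal.ofReal (48 * ((L : ℝ) + 1) ^ 4 * d / ε) := by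
        rw [Finset.sum_const, nsmul_eq_mul, ← ENNReal.ofReal_natCast, ← ENNReal.ofReal_mul
          (by positivity)]
        refine ENNReal.ofReal_le_ofReal ?_
        rw [Int.card_Ioc]
        have h2 : ((L - (-(L : ℤ))).toNat : ℝ) ≤ 2 * (L : ℝ) + 1 := by
          have : ((L - (-(L : ℤ))).toNat : ℤ) ≤ 2 * L + 1 := by omega
          exact_mod_cast this
        have h3 : 2 * (L : ℝ) + 1 ≤ 2 * ((L : ℝ) + 1) := by linarith
        calc ((L - (-(L : ℤ))).toNat : ℝ) * ((2 * (L : ℝ) + 1) *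
              (3 * (2 * (L : ℝ) + 1) ^ 2 * d / ε))
            ≤ (2 * (L : ℝ) + 1) * ((2 * (L : ℝ) + 1) * (3 * (2 * (L : ℝ) + 1) ^ 2 * d / ε)) :=
              mul_le_mul_of_nonneg_right h2 (by positivity)
          _ = (2 * (L : ℝ) + 1) ^ 4 * (3 * d / ε) := by ring
          _ ≤ (2 * ((L : ℝ) + 1)) ^ 4 * (3 * d / ε) :=
              mul_le_mul_of_nonneg_right (pow_le_pow_left₀ (by positivity) h3 4) (by positivity)
          _ = 48 * ((L : ℝ) + 1) ^ 4 * d / ε := by ring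

end Pool.Agent.U187.LP
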