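import Pool.Agent.U187.LP.TaskJ
import Pool.Agent.U187.LP.TaskG2

/-! Fixed energy estimate and the probability of the first bad event. -/

set_option autoImplicit false

open scoped BigOperators ENNReal
open MeasureTheory Filter

namespace Pool.Agent.U187.LP

open Pool.Agent.H695R3.PP

lemma U_ae' : ∀ᵐ s ∂U, s ∈ Set.Icc (-1 : ℝ) 1 := by
  unfold U
  exact Measure.ae_smul_measure (ae_restrict_mem measurableSet_Icc) _

/-- one random coefficient -/
lemma one_coef {ε R k t u w : ℝ} (hε : 0 < ε) (hε1 : ε ≤ 1) (hR : 1 ≤ R) (hk : |k| ≤ 2 * R)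
    (ht : 0 < t) (hne : 0 < Real.sqrt (u ^ 2 + w ^ 2)) :
    U {s | |(k - ε * s) * u - w| ≤ t} ≤
      ENNReal.ofReal (8 * R * t / ε * (1 / Real.sqrt (u ^ 2 + w ^ 2))) := by
  set l : ℝ := Real.sqrt (u ^ 2 + w ^ 2) with hl
  have hl2 : l ^ 2 = u ^ 2 + w ^ 2 := Real.sq_sqrt (by positivity)
  by_cases hu : l / (8 * R) ≤ |u|
  · have hu0 : 0 < |u| := lt_of_lt_of_le (by positivity) hu
    have hu1 : u ≠ 0 := abs_pos.1 hu0
    have hsub : {s | |(k - ε * s) * u - w| ≤ t} ⊆
        Set.Icc ((k - w / u) / ε - t / (ε * |u|)) ((k - w / u) / ε + t / (ε * |u|)) := by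
      intro s hs
      have hs' : |(k - ε * s) * u - w| ≤ t := hs
      have e : (k - ε * s) * u - w = ((k - w / u) / ε - s) * (ε * u) := by field_simp; ring
      rw [e, abs_mul, abs_mul, abs_of_pos hε] at hs'
      have h1 : |(k - w / u) / ε - s| ≤ t / (ε * |u|) := by
        rw [le_div_iff₀ (by positivity)]
        exact hs'
      rw [abs_le] at h1
      constructor <;> linarith [h1.1, h1.2]
    calc U {s | |(k - ε * s) * u - w| ≤ t} ≤ U (Set.Icc ((k - w / u) / ε - t / (ε * |u|))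
          ((k - w / u) / ε + t / (ε * |u|))) := measure_mono hsub
      _ ≤ ENNReal.ofReal (1 / 2) * volume (Set.Icc ((k - w / u) / ε - t / (ε * |u|))
          ((k - w / u) / ε + t / (ε * |u|))) := U_le _
      _ = ENNReal.ofReal (t / (ε * |u|)) := by
          rw [Real.volume_Icc, ← ENNReal.ofReal_mul (by norm_num)]
          congr 1
          ring
      _ ≤ _ := by
          refine ENNReal.ofReal_le_ofReal ?_
          rw [div_le_iff₀ (by positivity)]
          have h2 : l ≤ |u| * (8 * R) := by rwa [div_le_iff₀ (by positivity)] at hu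
          have e : 8 * R * t / ε * (1 / l) * (ε * |u|) = t * ((|u| * (8 * R)) / l) := by
            field_simp
          rw [e]
          have h3 : 1 ≤ (|u| * (8 * R)) / l := by rw [le_div_iff₀ hne]; linarith
          nlinarith
  · rw [not_le] at hu
    by_cases hlt : l ≤ 2 * t
    · calc U {s | |(k - ε * s) * u - w| ≤ t} ≤ 1 := prob_le_one
        _ = ENNReal.ofReal 1 := by simp
        _ ≤ _ := by
          refine ENNReal.ofReal_le_ofReal ?_
          have e : 8 * R * t / ε * (1 / l) = (8 * R * t) / (ε * l) := by field_simp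
          rw [e, le_div_iff₀ (by positivity)]
          nlinarith
    · rw [not_le] at hlt
      have h0 : U {s | |(k - ε * s) * u - w| ≤ t} = 0 := by
        have hsub : {s | |(k - ε * s) * u - w| ≤ t} ⊆ {s | ¬ s ∈ Set.Icc (-1 : ℝ) 1} := by
          intro s hs hs1
          have hs' : |(k - ε * s) * u - w| ≤ t := hs
          have h1 : |k - ε * s| ≤ 3 * R := by
            have h2 : |ε * s| ≤ 1 := by
              rw [abs_mul, abs_of_pos hε]
              have h3 : |s| ≤ 1 := abs_le.2 hs1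
              calc ε * |s| ≤ 1 * 1 := mul_le_mul hε1 h3 (abs_nonneg _) zero_le_one
                _ = 1 := one_mul 1
            have h3 := abs_sub k (ε * s)
            linarith
          have h2 : |u| * (8 * R) < l := by rwa [lt_div_iff₀ (by positivity)] at hu
          have h3 : |(k - ε * s) * u| ≤ 3 / 8 * l := by
            rw [abs_mul]
            have := mul_le_mul_of_nonneg_right h1 (abs_nonneg u)
            nlinarith
          have h4 : 7 / 8 * l ≤ |w| := by
            have h5 : |u| ≤ l / 8 := by nlinarith [abs_nonneg u]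
            have h6 : u ^ 2 ≤ (l / 8) ^ 2 := by
              rw [← sq_abs]; exact pow_le_pow_left₀ (abs_nonneg _) h5 2
            refine abs_le_of_sq_le_sq' (a := 7 / 8 * l) ?_ (abs_nonneg w) |>.2
            rw [sq_abs]
            nlinarith
          have h5 : |w| ≤ |(k - ε * s) * u| + |(k - ε * s) * u - w| := by
            calc |w| = |(k - ε * s) * u - ((k - ε * s) * u - w)| := by congr 1; ring
              _ ≤ _ := abs_sub _ _
          linarith
        exact measure_mono_null hsub (ae_iff.1 U_ae')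
      rw [h0]
      exact bot_le

theorem taskFE : TaskFE := by
  obtain ⟨c, C, hc, hc2, hC, H⟩ := taskJ
  refine ⟨c, 16 * C, hc, hc2, by positivity, ?_⟩
  intro ε R E t W L hε hε1 hR hE hW ht hL
  obtain ⟨j, rfl⟩ : ∃ j, L = j + 1 := ⟨L - 1, by omega⟩
  set b : ℤ := ((j + 1 : ℕ) : ℤ) with hb
  have hε2 : ε ^ 2 ≤ 1 := pow_le_one₀ hε.le hε1
  set θ : ℝ := 1 - c * ε ^ 2 with hθ
  have hθ2 : 1 / 2 ≤ θ := by rw [hθ]; nlinarith
  have hm : MeasurableSet {x : ℤ → ℝ | |(rsol (fun n => W n + ε * x n) E b (j + 1)).1| ≤ t} :=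
    measurableSet_le (measurable_norm.comp (measurable_fst.comp (rs_meas ε E W b (j + 1))))
      measurable_const
  have h1 : PZ {x : ℤ → ℝ | |(rsol (fun n => W n + ε * x n) E b (j + 1)).1| ≤ t} =
      ∫⁻ x, {x : ℤ → ℝ | |(rsol (fun n => W n + ε * x n) E b (j + 1)).1| ≤ t}.indicator 1 x ∂PZ := by
    rw [lintegral_indicator_one hm]
  rw [h1, resample (b - j) _ (measurable_one.indicator hm)]
  have h2 : ∀ x : ℤ → ℝ, ∫⁻ s, {x : ℤ → ℝ | |(rsol (fun n => W n + ε * x n) E b (j + 1)).1| ≤ t}.indicator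
      (1 : (ℤ → ℝ) → ℝ≥0∞) (Function.update x (b - j) s) ∂U ≤
      ENNReal.ofReal (8 * R * t / ε) *
        ENNReal.ofReal (1 / rlen (fun n => W n + ε * x n) E b j) := by
    intro x
    set u := (rs ε E W b x j).1 with hu
    set w := (rs ε E W b x j).2 with hw
    have h3 : ∀ s, {x : ℤ → ℝ | |(rsol (fun n => W n + ε * x n) E b (j + 1)).1| ≤ t}.indicator
        (1 : (ℤ → ℝ) → ℝ≥0∞) (Function.update x (b - j) s) =
        {s : ℝ | |(E - W (b - j) - ε * s) * u - w| ≤ t}.indicator 1 s := by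
      intro s
      have h4 := rs_update_succ ε E W b x s j
      have h5 : (rsol (fun n => W n + ε * (Function.update x (b - j) s) n) E b (j + 1)).1 =
          (E - W (b - j) - ε * s) * u - w := congrArg Prod.fst h4
      simp only [Set.indicator, Set.mem_ofPred_eq, h5, Pi.one_apply]
    rw [lintegral_congr h3]
    refine (lintegral_indicator_one_le _).trans ?_
    have hk : |E - W (b - j)| ≤ 2 * R := by
      have := abs_sub E (W (b - j))
      have := hW (b - j)
      linarith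
    have hne : 0 < Real.sqrt (u ^ 2 + w ^ 2) := by
      refine Real.sqrt_pos.2 ?_
      have h6 := rs_ne ε E W b x j
      by_contra hcon
      rw [not_lt] at hcon
      have hu0 : u = 0 := by nlinarith [sq_nonneg u, sq_nonneg w]
      have hw0 : w = 0 := by nlinarith [sq_nonneg u, sq_nonneg w]
      exact h6 (Prod.ext hu0 hw0)
    refine (one_coef hε hε1 hR hk ht hne).trans (le_of_eq ?_)
    rw [ENNReal.ofReal_mul (by positivity)]
    rfl
  refine (lintegral_mono h2).trans ?_
  calc ∫⁻ x, ENNReal.ofReal (8 * R * t / ε) *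
        ENNReal.ofReal (1 / rlen (fun n => W n + ε * x n) E b j) ∂PZ
      = ENNReal.ofReal (8 * R * t / ε) *
        ∫⁻ x, ENNReal.ofReal (1 / rlen (fun n => W n + ε * x n) E b j) ∂PZ :=
        lintegral_const_mul' _ _ ENNReal.ofReal_ne_top
    _ ≤ ENNReal.ofReal (8 * R * t / ε) * ENNReal.ofReal (C / ε * θ ^ j) :=
        mul_le_mul_right (H ε E W b j hε hε1) _
    _ ≤ ENNReal.ofReal (16 * C * R / ε ^ 2 * t * θ ^ (j + 1)) := by
        rw [← ENNReal.ofReal_mul (by positivity)]
        refine ENNReal.ofReal_le_ofReal ?_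
        have h5 : θ ^ j ≤ 2 * θ ^ (j + 1) := by
          rw [pow_succ]
          have : 0 ≤ θ ^ j := by positivity
          nlinarith
        calc 8 * R * t / ε * (C / ε * θ ^ j) = (8 * R * t * C / ε ^ 2) * θ ^ j := by
              field_simp
          _ ≤ (8 * R * t * C / ε ^ 2) * (2 * θ ^ (j + 1)) :=
              mul_le_mul_of_nonneg_left h5 (by positivity)
          _ = _ := by ring

/-- bound on eigenvalues -/
lemma eig_bound {V : ℤ → ℝ} {a b : ℤ} {E M : ℝ} {ψ : ℤ → ℝ} (h : IsEig V a b E ψ)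
    (hV : ∀ n, a ≤ n → n ≤ b → |V n| ≤ M) : |E| ≤ M + 2 := by
  have hb := eig_b_ne h
  have hab : a ≤ b := by
    by_contra hcon
    exact hb (h.1 b (Or.inl (by omega)))
  obtain ⟨n, hn, hmax⟩ := Finset.exists_max_image (Finset.Icc a b) (fun n => |ψ n|)
    ⟨b, Finset.mem_Icc.2 ⟨hab, le_rfl⟩⟩
  rw [Finset.mem_Icc] at hn
  have hn0 : 0 < |ψ n| := lt_of_lt_of_le (abs_pos.2 hb)
    (hmax b (Finset.mem_Icc.2 ⟨hab, le_rfl⟩))
  have hall : ∀ m, |ψ m| ≤ |ψ n| := by
    intro m
    by_cases hm : a ≤ m ∧ m ≤ b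
    · exact hmax m (Finset.mem_Icc.2 hm)
    · rw [h.1 m (by omega), abs_zero]
      exact abs_nonneg _
  have h1 := h.2.2 n hn.1 hn.2
  have h2 : |E| * |ψ n| ≤ (M + 2) * |ψ n| := by
    rw [← abs_mul, ← h1]
    calc |ψ (n + 1) + ψ (n - 1) + V n * ψ n| ≤ |ψ (n + 1)| + |ψ (n - 1)| + |V n * ψ n| :=
          (abs_add_le _ _).trans (add_le_add_left (abs_add_le _ _) _)
      _ ≤ |ψ n| + |ψ n| + M * |ψ n| := by
          rw [abs_mul]
          exact add_le_add (add_le_add (hall _) (hall _))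
            (mul_le_mul_of_nonneg_right (hV n hn.1 hn.2) (abs_nonneg _))
      _ = (M + 2) * |ψ n| := by ring
  exact le_of_mul_le_mul_right h2 hn0

/-- right part of the first bad event -/
def B1 (L : ℕ) (a τ M : ℝ) : Set (ℤ → ℝ) := {V | ∃ E ψ, |E| ≤ M ∧
  IsEig V (-(L : ℤ)) L E ψ ∧ ((E, ψ), V) ∈ {p : (ℝ × (ℤ → ℝ)) × (ℤ → ℝ) |
    a ≤ |p.1.2 0| ∧ τ ≤ |p.1.2 L|}}

lemma B1_meas (L : ℕ) (a τ M : ℝ) : MeasurableSet (B1 L a τ M) := by
  have hc : ∀ n : ℤ, Continuous (fun p : (ℝ × (ℤ → ℝ)) × (ℤ → ℝ) => |p.1.2 n|) := fun n =>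
    ((continuous_apply n).comp (continuous_snd.comp continuous_fst)).abs
  have hC : IsClosed {p : (ℝ × (ℤ → ℝ)) × (ℤ → ℝ) | a ≤ |p.1.2 0| ∧ τ ≤ |p.1.2 L|} :=
    (isClosed_le continuous_const (hc 0)).inter (isClosed_le continuous_const (hc L))
  exact (taskClosed _ _ _ _ hC).measurableSet

lemma rsE_meas (ε : ℝ) (W : ℤ → ℝ) (b : ℤ) (j : ℕ) :
    Measurable (fun p : (ℤ → ℝ) × ℝ => rsol (fun n => W n + ε * p.1 n) p.2 b j) := by
  induction j with
  | zero => exact measurable_const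
  | succ j ih =>
    have h : (fun p : (ℤ → ℝ) × ℝ => rsol (fun n => W n + ε * p.1 n) p.2 b (j + 1)) = fun p =>
        ((p.2 - (W (b - j) + ε * p.1 (b - j))) * (rsol (fun n => W n + ε * p.1 n) p.2 b j).1 -
          (rsol (fun n => W n + ε * p.1 n) p.2 b j).2,
          (rsol (fun n => W n + ε * p.1 n) p.2 b j).1) := by
      funext p; rfl
    rw [h]
    refine Measurable.prodMk (Measurable.sub (Measurable.mul ?_ ?_) ?_) ?_
    · exact measurable_snd.sub (measurable_const.add
        (measurable_const.mul ((measurable_pi_apply _).comp measurable_fst)))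
    · exact measurable_fst.comp ih
    · exact measurable_snd.comp ih
    · exact measurable_fst.comp ih

/-- probability of the right part -/
lemma B1_prob {c C : ℝ} (hc : 0 < c) (hc2 : c ≤ 1 / 2) (hC : 0 < C)
    (H : ∀ (ε R E t : ℝ) (W : ℤ → ℝ) (L : ℕ),
      0 < ε → ε ≤ 1 → 1 ≤ R → |E| ≤ R → (∀ n, |W n| ≤ R) → 0 < t → 1 ≤ L →
      PZ {x | |(rsol (fun n => W n + ε * x n) E L L).1| ≤ t} ≤
        ENNReal.ofReal (C * R / ε ^ 2 * t * (1 - c * ε ^ 2) ^ L))
    {ε R a τ : ℝ} {W : ℤ → ℝ} {L : ℕ} (hε : 0 < ε) (hε1 : ε ≤ 1) (hR : 1 ≤ R)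
    (hW : ∀ n, |W n| ≤ R) (ha : 0 < a) (hτ : 0 < τ) (hL : 1 ≤ L) :
    PZ {x | (fun n => W n + ε * x n) ∈ B1 L a τ (4 * R)} ≤
      ENNReal.ofReal (16 * C * R ^ 2 / (ε ^ 3 * a ^ 2 * τ) * (1 - c * ε ^ 2) ^ L) := by
  set θ : ℝ := 1 - c * ε ^ 2 with hθ
  have hε2 : ε ^ 2 ≤ 1 := pow_le_one₀ hε.le hε1
  have hθ0 : 0 ≤ θ := by rw [hθ]; nlinarith
  set A : (ℤ → ℝ) → Set ℝ := fun x => {E | |E| ≤ 4 * R ∧
    |(rsol (fun n => W n + ε * x n) E L L).1| ≤ 1 / τ} with hA
  have h1 := taskSAP W ε (a ^ 2) (-(L : ℤ)) L 0 A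
    {x | (fun n => W n + ε * x n) ∈ B1 L a τ (4 * R)} hε (by positivity)
    (meas_aff W ε (B1_meas L a τ (4 * R))) (fun x s => ?_) (fun x hx => ?_)
  · refine h1.trans ?_
    have hAm : MeasurableSet {p : (ℤ → ℝ) × ℝ | p.2 ∈ A p.1} := by
      refine MeasurableSet.inter (s₁ := {p : (ℤ → ℝ) × ℝ | |p.2| ≤ 4 * R}) ?_ ?_
      · exact measurableSet_le (measurable_norm.comp measurable_snd) measurable_const
      · exact measurableSet_le (measurable_norm.comp (measurable_fst.comp (rsE_meas ε W L L)))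
          measurable_const
    have h2 : ∫⁻ x, volume (A x) ∂PZ ≤
        ENNReal.ofReal (C * (4 * R) / ε ^ 2 * (1 / τ) * θ ^ L * (8 * R)) := by
      calc ∫⁻ x, volume (A x) ∂PZ = (PZ.prod volume) {p : (ℤ → ℝ) × ℝ | p.2 ∈ A p.1} := by
            rw [Measure.prod_apply hAm]
            rfl
        _ = ∫⁻ E, PZ {x | E ∈ A x} := by
            rw [Measure.prod_apply_symm hAm]
            rfl
        _ ≤ ∫⁻ E, (Set.Icc (-(4 * R)) (4 * R)).indicator
            (fun _ => ENNReal.ofReal (C * (4 * R) / ε ^ 2 * (1 / τ) * θ ^ L)) E := by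
            refine lintegral_mono fun E => ?_
            by_cases hE : |E| ≤ 4 * R
            · rw [Set.indicator_of_mem
                (show E ∈ Set.Icc (-(4 * R)) (4 * R) from abs_le.1 hE)]
              refine (measure_mono fun x hx => ?_).trans
                (H ε (4 * R) E (1 / τ) W L hε hε1 (by linarith) hE
                  (fun n => (hW n).trans (by linarith)) (by positivity) hL)
              exact hx.2
            · have : {x : ℤ → ℝ | E ∈ A x} = ∅ := by
                ext x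
                simp only [Set.mem_ofPred_eq, Set.mem_empty_iff_false, iff_false]
                exact fun h => hE h.1
              rw [this, measure_empty]
              exact bot_le
        _ = ENNReal.ofReal (C * (4 * R) / ε ^ 2 * (1 / τ) * θ ^ L * (8 * R)) := by
            rw [lintegral_indicator measurableSet_Icc, setLIntegral_const, Real.volume_Icc,
              ← ENNReal.ofReal_mul (by positivity)]
            congr 1
            ring
    rw [lintegral_const_mul' _ _ ENNReal.ofReal_ne_top]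
    refine (mul_le_mul_right h2 _).trans (le_of_eq ?_)
    rw [← ENNReal.ofReal_mul (by positivity)]
    congr 1
    field_simp
    ring
  · rw [hA]
    simp only
    ext E
    have : rsol (fun n => W n + ε * (Function.update x 0 s) n) E L L =
        rsol (fun n => W n + ε * x n) E L L := by
      refine rsol_congr E L L fun i hi => ?_
      rw [Function.update_of_ne (by omega)]
    simp only [Set.mem_ofPred_eq, this]
  · obtain ⟨E, ψ, hE, h2, h3⟩ := hx
    simp only [Set.mem_ofPred_eq] at h3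
    refine ⟨E, ⟨hE, ?_⟩, ψ, h2, ?_⟩
    · have h4 := (eig_right h2 L (by omega)).1
      rw [sub_self] at h4
      have h5 : |ψ 0| ≤ 1 := eig_le h2 0
      have h6 : |(rsol (fun n => W n + ε * x n) E L L).1| * τ ≤ 1 := by
        calc |(rsol (fun n => W n + ε * x n) E L L).1| * τ
            ≤ |(rsol (fun n => W n + ε * x n) E L L).1| * |ψ L| :=
              mul_le_mul_of_nonneg_left h3.2 (abs_nonneg _)
          _ = |ψ 0| := by rw [h4, abs_mul, mul_comm]
          _ ≤ 1 := h5
      rwa [le_div_iff₀ hτ]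
    · rw [← sq_abs (ψ 0)]
      exact pow_le_pow_left₀ ha.le h3.1 2

/-- reflection preserves the law -/
lemma PZ_rf : MeasurePreserving rf PZ PZ := by
  have hm : Measurable rf := measurable_pi_lambda _ fun n => measurable_pi_apply (-n)
  refine ⟨hm, ?_⟩
  unfold PZ
  refine Measure.eq_infinitePi _ fun s t ht => ?_
  have hpi : MeasurableSet (Set.pi (s : Set ℤ) t) :=
    MeasurableSet.pi s.countable_toSet fun j _ => ht j
  rw [Measure.map_apply hm hpi]
  have e : rf ⁻¹' (Set.pi (s : Set ℤ) t) =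
      Set.pi ((s.image fun n => -n : Finset ℤ) : Set ℤ) (fun n => t (-n)) := by
    ext x
    simp only [Set.mem_preimage, Set.mem_pi, Finset.mem_coe, Finset.mem_image, rf,
      forall_exists_index, and_imp, forall_apply_eq_imp_iff₂, neg_neg]
  rw [e, Measure.infinitePi_pi _ (fun j _ => ht (-j)),
    Finset.prod_image (fun a _ b _ h => neg_injective h)]
  simp

theorem taskG1 : TaskG1 := by
  obtain ⟨c, C, hc, hc2, hC, H⟩ := taskFE
  refine ⟨c, 32 * C, hc, hc2, by positivity, ?_⟩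
  intro ε R a τ W L hε hε1 hR hW ha hτ hL
  set θ : ℝ := 1 - c * ε ^ 2 with hθ
  have hε2 : ε ^ 2 ≤ 1 := pow_le_one₀ hε.le hε1
  have hθ0 : 0 ≤ θ := by rw [hθ]; nlinarith
  have hnull : PZ {x : ℤ → ℝ | ¬ ∀ n, x n ∈ Set.Icc (-1 : ℝ) 1} = 0 := by
    rw [← ae_iff, ae_all_iff]
    intro n
    unfold PZ
    exact (measurePreserving_eval_infinitePi (fun _ : ℤ => U) n).quasiMeasurePreserving.ae U_ae'
  have hsub : {x : ℤ → ℝ | Bad1 L a τ (fun n => W n + ε * x n)} ⊆
      ({x | (fun n => W n + ε * x n) ∈ B1 L a τ (4 * R)} ∪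
        rf ⁻¹' {x | (fun n => rf W n + ε * x n) ∈ B1 L a τ (4 * R)}) ∪
      {x : ℤ → ℝ | ¬ ∀ n, x n ∈ Set.Icc (-1 : ℝ) 1} := by
    rintro x ⟨E, ψ, h1, h2, h3⟩
    by_cases hx : ∀ n, x n ∈ Set.Icc (-1 : ℝ) 1
    · left
      have hE : |E| ≤ 4 * R := by
        have h4 := eig_bound h1 (M := R + 1) (fun n _ _ => by
          have h5 : |ε * x n| ≤ 1 := by
            rw [abs_mul, abs_of_pos hε]
            calc ε * |x n| ≤ 1 * 1 := mul_le_mul hε1 (abs_le.2 (hx n)) (abs_nonneg _) zero_le_one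
              _ = 1 := one_mul 1
          exact (abs_add_le _ _).trans (add_le_add (hW n) h5))
        linarith
      rcases h3 with h3 | h3
      · left
        exact ⟨E, ψ, hE, h1, h2, h3⟩
      · right
        have h4 := eig_rf h1
        rw [neg_neg] at h4
        refine ⟨E, rf ψ, hE, h4, ?_, ?_⟩
        · show a ≤ |ψ (-0)|
          rw [neg_zero]
          exact h2
        · exact h3
    · right
      exact hx
  have hWr : ∀ n, |rf W n| ≤ R := fun n => hW (-n)
  have p1 := B1_prob hc hc2 hC H hε hε1 hR hW ha hτ hL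
  have p2 := B1_prob hc hc2 hC H hε hε1 hR hWr ha hτ hL
  have p3 : PZ (rf ⁻¹' {x | (fun n => rf W n + ε * x n) ∈ B1 L a τ (4 * R)}) =
      PZ {x | (fun n => rf W n + ε * x n) ∈ B1 L a τ (4 * R)} :=
    PZ_rf.measure_preimage (meas_aff (rf W) ε (B1_meas L a τ (4 * R))).nullMeasurableSet
  calc PZ {x : ℤ → ℝ | Bad1 L a τ (fun n => W n + ε * x n)}
      ≤ PZ (({x | (fun n => W n + ε * x n) ∈ B1 L a τ (4 * R)} ∪
        rf ⁻¹' {x | (fun n => rf W n + ε * x n) ∈ B1 L a τ (4 * R)}) ∪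
        {x : ℤ → ℝ | ¬ ∀ n, x n ∈ Set.Icc (-1 : ℝ) 1}) := measure_mono hsub
    _ ≤ (PZ {x | (fun n => W n + ε * x n) ∈ B1 L a τ (4 * R)} +
        PZ (rf ⁻¹' {x | (fun n => rf W n + ε * x n) ∈ B1 L a τ (4 * R)})) +
        PZ {x : ℤ → ℝ | ¬ ∀ n, x n ∈ Set.Icc (-1 : ℝ) 1} :=
        (measure_union_le _ _).trans (add_le_add_left (measure_union_le _ _) _)
    _ ≤ ENNReal.ofReal (16 * C * R ^ 2 / (ε ^ 3 * a ^ 2 * τ) * θ ^ L) +
        ENNReal.ofReal (16 * C * R ^ 2 / (ε ^ 3 * a ^ 2 * τ) * θ ^ L) := by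
        rw [hnull, add_zero, p3]
        exact add_le_add p1 p2
    _ = ENNReal.ofReal (32 * C * R ^ 2 / (ε ^ 3 * a ^ 2 * τ) * θ ^ L) := by
        rw [← ENNReal.ofReal_add (by positivity) (by positivity)]
        congr 1
        ring

end Pool.Agent.U187.LP
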