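import Pool.Agent.H695R3.PP.Stmts

/-! Numerics. -/

set_option autoImplicit false

open scoped BigOperators ENNReal
open MeasureTheory Filter

namespace Pool.Agent.U187.LP

open Pool.Agent.H695R3.PP

lemma four_pow_ge (k : ℕ) : (k : ℝ) ^ 2 ≤ 4 ^ k := by
  have h : (k : ℝ) ≤ 2 ^ k := by
    have := Nat.lt_two_pow_self (n := k)
    exact_mod_cast this.le
  calc (k : ℝ) ^ 2 ≤ (2 ^ k) ^ 2 := pow_le_pow_left₀ (by positivity) h 2
    _ = 4 ^ k := by rw [← pow_mul, mul_comm, pow_mul]; norm_num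

lemma aux_le {κ A : ℝ} (hκ : 0 < κ) (hA : 1 ≤ A) :
    ∃ C : ℝ, 0 < C ∧ ∀ k : ℕ, A ^ k * Real.exp (-(κ * 4 ^ k)) ≤ C * (1 / 2) ^ k := by
  -- (2A)^k exp(-κ k^2) is bounded
  set s : ℝ := Real.log (2 * A) with hs
  refine ⟨Real.exp (s ^ 2 / (4 * κ)), Real.exp_pos _, fun k => ?_⟩
  have h1 : Real.exp (-(κ * 4 ^ k)) ≤ Real.exp (-(κ * k ^ 2)) := by
    refine Real.exp_le_exp.2 (neg_le_neg ?_)
    exact mul_le_mul_of_nonneg_left (four_pow_ge k) hκ.le
  have hA0 : 0 < 2 * A := by linarith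
  have h2 : (2 * A) ^ k = Real.exp (k * s) := by
    rw [hs, Real.exp_nat_mul, Real.exp_log hA0]
  have h3 : (2 * A) ^ k * Real.exp (-(κ * 4 ^ k)) ≤ Real.exp (s ^ 2 / (4 * κ)) := by
    calc (2 * A) ^ k * Real.exp (-(κ * 4 ^ k)) ≤ (2 * A) ^ k * Real.exp (-(κ * k ^ 2)) :=
          mul_le_mul_of_nonneg_left h1 (by positivity)
      _ = Real.exp (k * s + -(κ * k ^ 2)) := by rw [h2, ← Real.exp_add]
      _ ≤ Real.exp (s ^ 2 / (4 * κ)) := by
          refine Real.exp_le_exp.2 ?_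
          rw [le_div_iff₀ (by positivity)]
          nlinarith [sq_nonneg (s - 2 * κ * k)]
  have h4 : A ^ k = (2 * A) ^ k * (1 / 2) ^ k := by
    rw [← mul_pow]; congr 1; ring
  rw [h4]
  calc (2 * A) ^ k * (1 / 2) ^ k * Real.exp (-(κ * 4 ^ k))
      = ((2 * A) ^ k * Real.exp (-(κ * 4 ^ k))) * (1 / 2) ^ k := by ring
    _ ≤ _ := mul_le_mul_of_nonneg_right h3 (by positivity)

theorem taskNum : TaskNum := by
  intro κ A hκ hA
  obtain ⟨C, hC, h⟩ := aux_le hκ hA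
  have hgeo : Summable (fun k : ℕ => C * (1 / 2 : ℝ) ^ k) :=
    summable_geometric_two.mul_left C
  refine ⟨Summable.of_nonneg_of_le (fun k => by positivity) h hgeo, ?_⟩
  -- bound the tail sum
  have hb : ∀ k : ℕ, A ^ k * ∑' j : ℕ, Real.exp (-(κ * 4 ^ (k + j))) ≤ 2 * (C * (1 / 2) ^ k) := by
    intro k
    rw [← tsum_mul_left]
    have h1 : ∀ j : ℕ, A ^ k * Real.exp (-(κ * 4 ^ (k + j))) ≤ C * (1 / 2) ^ k * (1 / 2) ^ j := by
      intro j
      have h2 := h (k + j)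
      have h3 : A ^ k ≤ A ^ (k + j) := pow_le_pow_right₀ hA (by omega)
      calc A ^ k * Real.exp (-(κ * 4 ^ (k + j))) ≤ A ^ (k + j) * Real.exp (-(κ * 4 ^ (k + j))) :=
            mul_le_mul_of_nonneg_right h3 (Real.exp_pos _).le
        _ ≤ C * (1 / 2) ^ (k + j) := h2
        _ = _ := by rw [pow_add]; ring
    have hs : HasSum (fun j : ℕ => C * (1 / 2 : ℝ) ^ k * (1 / 2) ^ j) (C * (1 / 2) ^ k * 2) :=
      hasSum_geometric_two.mul_left _
    have hs1 : Summable (fun j : ℕ => A ^ k * Real.exp (-(κ * 4 ^ (k + j)))) :=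
      Summable.of_nonneg_of_le (fun j => by positivity) h1 hs.summable
    have := hs1.tsum_le_tsum h1 hs.summable
    rw [hs.tsum_eq] at this
    linarith
  refine squeeze_zero (fun k => ?_) hb ?_
  · have : 0 ≤ ∑' j : ℕ, Real.exp (-(κ * 4 ^ (k + j))) := tsum_nonneg fun j => (Real.exp_pos _).le
    positivity
  · have h5 : Tendsto (fun k : ℕ => (1 / 2 : ℝ) ^ k) atTop (nhds 0) :=
      tendsto_pow_atTop_nhds_zero_of_lt_one (by norm_num) (by norm_num)
    have := (h5.const_mul C).const_mul 2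
    simpa using this

end Pool.Agent.U187.LP
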