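import Pool.Agent.H695R3.PP.Stmts

/-! The law of a window and small open subgroups. -/

set_option autoImplicit false

open scoped BigOperators ENNReal
open MeasureTheory

namespace Pool.Agent.U187.LP

open Pool.Agent.H695R3.PP

lemma map_inj_pi {I Q : Type} [Fintype I] [Fintype Q] (q : I → Q) (hq : Function.Injective q) :
    Measure.map (fun (η : Q → ℝ) (i : I) => η (q i)) (Measure.pi fun _ : Q => U) =
      Measure.pi fun _ : I => U := by
  have hm : Measurable (fun (η : Q → ℝ) (i : I) => η (q i)) :=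
    measurable_pi_lambda _ fun i => measurable_pi_apply (q i)
  symm
  refine Measure.pi_eq fun t ht => ?_
  rw [Measure.map_apply hm (MeasurableSet.univ_pi ht)]
  have e : (fun (η : Q → ℝ) (i : I) => η (q i)) ⁻¹' (Set.univ.pi t) =
      Set.univ.pi (fun c : Q => ⋂ i : I, ⋂ (_ : q i = c), t i) := by
    ext η
    simp only [Set.mem_preimage, Set.mem_pi, Set.mem_univ, forall_true_left, Set.mem_iInter]
    constructor
    · rintro h c i rfl
      exact h i
    · intro h i
      exact h (q i) i rfl
  rw [e, Measure.pi_pi]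
  symm
  refine Fintype.prod_of_injective q hq _ _ (fun c hc => ?_) (fun i => ?_)
  · have : (⋂ i : I, ⋂ (_ : q i = c), t i) = Set.univ := by
      refine Set.eq_univ_of_forall fun x => ?_
      simp only [Set.mem_iInter]
      intro i hi
      exact absurd ⟨i, hi⟩ hc
    rw [this, measure_univ]
  · have : (⋂ i' : I, ⋂ (_ : q i' = q i), t i') = t i := by
      ext x
      simp only [Set.mem_iInter]
      constructor
      · intro h; exact h i rfl
      · intro h i' hi'
        rw [hq hi']
        exact h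
    rw [this]

theorem taskTransfer : TaskTransfer := by
  intro Q _ q L W ε B hq hB hBw
  set I : Finset ℤ := Finset.Icc (-(L : ℤ)) L with hI
  let ext' : (I → ℝ) → (ℤ → ℝ) := fun y n => if h : n ∈ I then W n + ε * y ⟨n, h⟩ else 0
  have hext : Measurable ext' := by
    refine measurable_pi_lambda _ fun n => ?_
    by_cases h : n ∈ I
    · simp only [ext', dif_pos h]
      exact measurable_const.add (measurable_const.mul (measurable_pi_apply _))
    · simp only [ext', dif_neg h]
      exact measurable_const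
  have hq' : Function.Injective (fun i : I => q i.1) := by
    intro i j hij
    have h1 : (i : ℤ) ∈ Set.Icc (-(L : ℤ)) L := Finset.mem_Icc.1 i.2
    have h2 : (j : ℤ) ∈ Set.Icc (-(L : ℤ)) L := Finset.mem_Icc.1 j.2
    exact Subtype.ext (hq h1 h2 hij)
  have e1 : {η : Q → ℝ | (fun n => W n + ε * η (q n)) ∈ B} =
      (fun (η : Q → ℝ) (i : I) => η (q i.1)) ⁻¹' (ext' ⁻¹' B) := by
    ext η
    refine hBw _ _ fun n h1 h2 => ?_
    have : n ∈ I := by rw [hI, Finset.mem_Icc]; exact ⟨h1, h2⟩
    simp only [ext', dif_pos this]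
  have e2 : {x : ℤ → ℝ | (fun n => W n + ε * x n) ∈ B} = I.restrict ⁻¹' (ext' ⁻¹' B) := by
    ext x
    refine hBw _ _ fun n h1 h2 => ?_
    have : n ∈ I := by rw [hI, Finset.mem_Icc]; exact ⟨h1, h2⟩
    simp only [ext', dif_pos this]
    rfl
  have hm : Measurable (fun (η : Q → ℝ) (i : I) => η (q i.1)) :=
    measurable_pi_lambda _ fun i => measurable_pi_apply _
  rw [e1, e2, ← Measure.map_apply hm (hext hB), map_inj_pi _ hq']
  unfold PZ
  rw [← Measure.map_apply (Finset.measurable_restrict I) (hext hB),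
    Measure.infinitePi_map_restrict]

theorem taskGroup : TaskGroup := by
  intro Ω _ _ _ _ _ _ _ α hα N
  have hne : ∀ j : ℤ, j ≠ 0 → j • α ≠ 0 := by
    intro j hj h0
    have hfin : (Set.range (fun n : ℤ => n • α)).Finite := by
      have hsub : Set.range (fun n : ℤ => n • α) ⊆
          (fun n : ℤ => n • α) '' (Set.Ico 0 |j|) := by
        rintro _ ⟨n, rfl⟩
        refine ⟨n % j, ⟨Int.emod_nonneg _ hj, Int.emod_lt_abs n hj⟩, ?_⟩
        simp only
        have := Int.emod_add_mul_ediv n j
        conv_rhs => rw [← this]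
        rw [add_smul, mul_comm j, mul_smul, h0, smul_zero, add_zero]
      exact (Set.finite_Ico _ _ |>.image _).subset hsub
    have h1 : closure (Set.range (fun n : ℤ => n • α)) = Set.range (fun n : ℤ => n • α) :=
      hfin.isClosed.closure_eq
    rw [hα.closure_eq] at h1
    rw [← h1] at hfin
    exact Set.infinite_univ hfin
  have hcl : ∀ j : ℤ, ∃ W : Set Ω, j ≠ 0 → (IsClopen W ∧ (0 : Ω) ∈ W ∧ j • α ∉ W) := by
    intro j
    by_cases hj : j = 0
    · exact ⟨∅, fun h => absurd hj h⟩
    · obtain ⟨W, h1, h2, h3⟩ := exists_isClopen_of_totally_separated (hne j hj).symm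
      exact ⟨W, fun _ => ⟨h1, h2, fun h => h3 h⟩⟩
  choose W hW using hcl
  set WW : Set Ω := ⋂ j ∈ (Finset.Icc (-(N : ℤ)) N).filter (fun j => j ≠ 0), W j with hWW
  have hWWc : IsClopen WW := by
    refine Set.Finite.isClopen_biInter (Finset.finite_toSet _) fun j hj => ?_
    have hj' := Finset.mem_filter.1 (Finset.mem_coe.1 hj)
    exact (hW j hj'.2).1
  have h0 : (0 : Ω) ∈ WW := by
    rw [hWW, Set.mem_iInter₂]
    intro j hj
    exact (hW j (Finset.mem_filter.1 hj).2).2.1
  obtain ⟨H, hH⟩ := IsTopologicalAddGroup.exist_openAddSubgroup_sub_clopen_nhds_of_zero hWWc h0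
  refine ⟨H.toAddSubgroup, H.isOpen, ?_, fun j hj hjN hmem => ?_⟩
  · exact AddSubgroup.quotient_finite_of_isOpen _ H.isOpen
  · have h1 : j • α ∈ WW := hH hmem
    rw [hWW, Set.mem_iInter₂] at h1
    have h2 := h1 j (Finset.mem_filter.2 ⟨Finset.mem_Icc.2 (abs_le.1 hjN), hj⟩)
    exact (hW j hj).2.2 h2

end Pool.Agent.U187.LP
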