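import Pool.Agent.H695R3.PP.Stmts

/-! Basic facts on eigenvectors of boxes and the solution from the right end. -/

set_option autoImplicit false

open scoped BigOperators ENNReal
open MeasureTheory

namespace Pool.Agent.U187.LP

open Pool.Agent.H695R3.PP

lemma rsol_congr {V V' : ℤ → ℝ} (E : ℝ) (b : ℤ) :
    ∀ j : ℕ, (∀ i : ℕ, i < j → V (b - i) = V' (b - i)) → rsol V E b j = rsol V' E b j := by
  intro j
  induction j with
  | zero => intro _; rfl
  | succ j ih =>
    intro h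
    have h1 := ih fun i hi => h i (by omega)
    have h2 := h j (by omega)
    simp only [rsol, h1, h2]

lemma eig_right {V : ℤ → ℝ} {a b : ℤ} {E : ℝ} {ψ : ℤ → ℝ} (h : IsEig V a b E ψ) :
    ∀ j : ℕ, a - 1 ≤ b - j → ψ (b - j) = ψ b * (rsol V E b j).1 ∧
      ψ (b - j + 1) = ψ b * (rsol V E b j).2 := by
  intro j
  induction j with
  | zero =>
    intro _
    refine ⟨by simp [rsol], ?_⟩
    have := h.1 (b + 1) (Or.inr (by omega))
    simp [rsol, this]
  | succ j ih =>
    intro hj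
    push_cast at hj
    obtain ⟨h1, h2⟩ := ih (by omega)
    have h3 := h.2.2 (b - j) (by omega) (by omega)
    have e1 : (b - ((j + 1 : ℕ) : ℤ)) = b - j - 1 := by push_cast; ring
    rw [e1]
    have e2 : b - (j : ℤ) - 1 + 1 = b - j := by ring
    rw [e2]
    simp only [rsol]
    refine ⟨?_, h1⟩
    rw [h2, h1] at h3
    linarith

/-- the partial sums of squares -/
noncomputable def Ssum (V : ℤ → ℝ) (E : ℝ) (b : ℤ) (j : ℕ) : ℝ :=
  ∑ i ∈ Finset.range j, (rsol V E b i).1 ^ 2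

lemma Icc_left_insert {a b : ℤ} (h : a ≤ b) : Finset.Icc a b = insert a (Finset.Icc (a + 1) b) := by
  ext x
  simp only [Finset.mem_Icc, Finset.mem_insert]
  omega

lemma sum_right {V : ℤ → ℝ} {a b : ℤ} {E : ℝ} {ψ : ℤ → ℝ} (h : IsEig V a b E ψ) :
    ∀ j : ℕ, a - 1 ≤ b - j →
      ∑ n ∈ Finset.Icc (b - j + 1) b, ψ n ^ 2 = ψ b ^ 2 * Ssum V E b j := by
  intro j
  induction j with
  | zero =>
    intro _
    have : Finset.Icc (b - ((0 : ℕ) : ℤ) + 1) b = ∅ := by
      ext x; simp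
    rw [this]
    simp [Ssum]
  | succ j ih =>
    intro hj
    push_cast at hj
    have e1 : (b - ((j + 1 : ℕ) : ℤ)) + 1 = b - j := by push_cast; ring
    rw [e1, Icc_left_insert (by omega), Finset.sum_insert (by simp), ih (by omega)]
    unfold Ssum
    rw [Finset.sum_range_succ, (eig_right h j (by omega)).1]
    ring

/-- reflection of a potential or a vector -/
def rf (V : ℤ → ℝ) : ℤ → ℝ := fun n => V (-n)

lemma rf_rf (V : ℤ → ℝ) : rf (rf V) = V := by funext n; simp [rf]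

lemma sum_rf (a b : ℤ) (f : ℤ → ℝ) :
    ∑ n ∈ Finset.Icc (-b) (-a), f (-n) = ∑ n ∈ Finset.Icc a b, f n := by
  refine Finset.sum_nbij' (fun n => -n) (fun n => -n) ?_ ?_ ?_ ?_ ?_
  · intro n hn; simp only [Finset.mem_Icc] at hn ⊢; omega
  · intro n hn; simp only [Finset.mem_Icc] at hn ⊢; omega
  · intro n _; simp
  · intro n _; simp
  · intro n _; rfl

lemma eig_rf {V : ℤ → ℝ} {a b : ℤ} {E : ℝ} {ψ : ℤ → ℝ} (h : IsEig V a b E ψ) :
    IsEig (rf V) (-b) (-a) E (rf ψ) := by
  refine ⟨fun n hn => h.1 _ (by omega), ?_, fun n h1 h2 => ?_⟩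
  · rw [← h.2.1]
    unfold nsq
    exact sum_rf a b (fun n => ψ n ^ 2)
  · have h3 := h.2.2 (-n) (by omega) (by omega)
    unfold rf
    have e1 : -(n + 1) = -n - 1 := by ring
    have e2 : -(n - 1) = -n + 1 := by ring
    rw [e1, e2]
    linarith

/-- derivative of the solution from the right end in the energy -/
noncomputable def dsol (V : ℤ → ℝ) (E : ℝ) (b : ℤ) : ℕ → ℝ × ℝ
  | 0 => (0, 0)
  | (j + 1) => ((rsol V E b j).1 + (E - V (b - j)) * (dsol V E b j).1 - (dsol V E b j).2,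
      (dsol V E b j).1)

lemma rsol_deriv (V : ℤ → ℝ) (E : ℝ) (b : ℤ) : ∀ j : ℕ,
    HasDerivAt (fun E => (rsol V E b j).1) (dsol V E b j).1 E ∧
      HasDerivAt (fun E => (rsol V E b j).2) (dsol V E b j).2 E := by
  intro j
  induction j with
  | zero => exact ⟨hasDerivAt_const _ _, hasDerivAt_const _ _⟩
  | succ j ih =>
    obtain ⟨h1, h2⟩ := ih
    simp only [rsol, dsol]
    refine ⟨?_, h1⟩
    have h3 : HasDerivAt (fun E => E - V (b - j)) 1 E := (hasDerivAt_id E).sub_const _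
    have h4 := (h3.mul h1).sub h2
    refine h4.congr_deriv ?_
    simp only [one_mul]

lemma wronsk (V : ℤ → ℝ) (E : ℝ) (b : ℤ) : ∀ j : ℕ,
    (rsol V E b j).2 * (dsol V E b j).1 - (dsol V E b j).2 * (rsol V E b j).1 = Ssum V E b j := by
  intro j
  induction j with
  | zero => simp [rsol, dsol, Ssum]
  | succ j ih =>
    unfold Ssum at ih ⊢
    rw [Finset.sum_range_succ, ← ih]
    simp only [rsol, dsol]
    ring

lemma ratio_deriv (V : ℤ → ℝ) (E : ℝ) (b : ℤ) (j : ℕ) (h : (rsol V E b j).1 ≠ 0) :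
    HasDerivAt (fun E => -((rsol V E b j).2 / (rsol V E b j).1))
      (Ssum V E b j / (rsol V E b j).1 ^ 2) E := by
  obtain ⟨h1, h2⟩ := rsol_deriv V E b j
  have h3 := (h2.div h1 h).neg
  refine h3.congr_deriv ?_
  rw [← wronsk]
  field_simp
  ring

lemma rsol_cont (V : ℤ → ℝ) (b : ℤ) (j : ℕ) :
    Continuous (fun E => (rsol V E b j).1) ∧ Continuous (fun E => (rsol V E b j).2) :=
  ⟨continuous_iff_continuousAt.2 fun E => (rsol_deriv V E b j).1.continuousAt,
    continuous_iff_continuousAt.2 fun E => (rsol_deriv V E b j).2.continuousAt⟩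

lemma Ssum_cont (V : ℤ → ℝ) (b : ℤ) (j : ℕ) : Continuous (fun E => Ssum V E b j) := by
  unfold Ssum
  exact continuous_finsetSum _ fun i _ => (rsol_cont V b i).1.pow 2

end Pool.Agent.U187.LP
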