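import Pool.Agent.U187.LP.Step

/-! Limits of chains of eigenvectors. -/

set_option autoImplicit false

open scoped BigOperators ENNReal
open MeasureTheory Filter

namespace Pool.Agent.U187.LP

open Pool.Agent.H695R3.PP

/-- real square summable sequences -/
abbrev XR := lp (fun _ : ℤ => ℝ) 2

lemma xr_summable (x : XR) : Summable fun n => (x n) ^ 2 := by
  have h := (lp.memℓp x).summable (by simp)
  simpa using h

lemma xr_norm (x : XR) : ‖x‖ ^ 2 = ∑' n, (x n) ^ 2 := by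
  have h := lp.norm_rpow_eq_tsum (p := 2) (by simp) x
  simpa using h

lemma sp_summable {a b : ℤ} {f : ℤ → ℝ} (hf : Sp a b f) : Summable fun n => f n ^ 2 :=
  summable_of_ne_finset_zero (s := Finset.Icc a b) fun n hn => by
    rw [hf n (by rw [Finset.mem_Icc] at hn; omega)]
    ring

/-- a square summable sequence as an element of `XR` -/
noncomputable def mkR (f : ℤ → ℝ) (hf : Summable fun n => f n ^ 2) : XR :=
  ⟨f, memℓp_gen (by simpa using hf)⟩

lemma mkR_apply (f : ℤ → ℝ) (hf : Summable fun n => f n ^ 2) (n : ℤ) : (mkR f hf) n = f n := rfl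

lemma sp_tsum {a b : ℤ} {f : ℤ → ℝ} (hf : Sp a b f) :
    ∑' n, f n ^ 2 = ∑ n ∈ Finset.Icc a b, f n ^ 2 :=
  tsum_eq_sum fun n hn => by
    rw [hf n (by rw [Finset.mem_Icc] at hn; omega)]
    ring

theorem taskChain : TaskChain := by
  intro V L a τ d k₀ hL hpos hB1 hB2 hτd hastep hs1 hs2 E ψ hE hψ
  let S : ℕ → Type := fun j => {p : ℝ × (ℤ → ℝ) //
    IsEig V (-(L (k₀ + j) : ℤ)) (L (k₀ + j)) p.1 p.2 ∧ a (k₀ + j) ≤ |p.2 0|}
  let Rel : ∀ j, S j → S (j + 1) → Prop := fun j s s' =>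
    |s'.1.1 - s.1.1| ≤ 2 * τ (k₀ + j) ∧
      ∑ n ∈ Finset.Icc (-(L (k₀ + j + 1) : ℤ)) (L (k₀ + j + 1)), (s.1.2 n - s'.1.2 n) ^ 2 ≤
        (4 * τ (k₀ + j) / d (k₀ + j + 1)) ^ 2
  have step : ∀ j (s : S j), ∃ s' : S (j + 1), Rel j s s' := by
    rintro j ⟨⟨e, f⟩, he, hf⟩
    simp only at he hf
    have hk : k₀ ≤ k₀ + j := by omega
    have h1 : ¬ (τ (k₀ + j) ≤ |f (L (k₀ + j))| ∨ τ (k₀ + j) ≤ |f (-(L (k₀ + j) : ℤ))|) := fun h =>
      hB1 (k₀ + j) hk ⟨e, f, he, hf, h⟩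
    rw [not_or, not_le, not_le] at h1
    obtain ⟨e', f', h2, h3, h4⟩ := taskStep V (L (k₀ + j)) (L (k₀ + j + 1)) e (τ (k₀ + j))
      (d (k₀ + j + 1)) f (hL (by omega)) (hpos _).2.1 (hτd _ hk) (hB2 _ hk) he h1.1.le h1.2.le
    refine ⟨⟨(e', f'), h2, ?_⟩, h3, h4⟩
    have h5 : (f 0 - f' 0) ^ 2 ≤ (4 * τ (k₀ + j) / d (k₀ + j + 1)) ^ 2 := by
      refine le_trans ?_ h4
      exact Finset.single_le_sum (f := fun n => (f n - f' n) ^ 2) (fun i _ => sq_nonneg _)
        (Finset.mem_Icc.2 ⟨by omega, by omega⟩)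
    have h6 : |f 0 - f' 0| ≤ 4 * τ (k₀ + j) / d (k₀ + j + 1) := by
      refine abs_le_of_sq_le_sq h5 ?_
      have h10 := (hpos (k₀ + j)).2.1
      have h11 := (hpos (k₀ + j + 1)).2.2
      positivity
    have h7 := hastep (k₀ + j) hk
    have h8 : |f 0| ≤ |f' 0| + |f 0 - f' 0| := by
      calc |f 0| = |f' 0 + (f 0 - f' 0)| := by congr 1; ring
        _ ≤ _ := abs_add_le _ _
    show a (k₀ + (j + 1)) ≤ |f' 0|
    have h9 : k₀ + (j + 1) = k₀ + j + 1 := by omega
    rw [h9]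
    linarith
  choose nx hnx using step
  let s : ∀ j, S j := fun j => Nat.rec ⟨(E, ψ), hE, hψ⟩ (fun j s => nx j s) j
  have hs : ∀ j, Rel j (s j) (s (j + 1)) := fun j => hnx j (s j)
  have hs0 : (s 0).1 = (E, ψ) := rfl
  have hsp : ∀ j, Sp (-(L (k₀ + j) : ℤ)) (L (k₀ + j)) (s j).1.2 := fun j => (s j).2.1.1
  let x : ℕ → XR := fun j => mkR (s j).1.2 (sp_summable (hsp j))
  set δ : ℕ → ℝ := fun j => 4 * (τ (k₀ + j) / d (k₀ + j + 1)) with hδ
  have hδ0 : ∀ j, 0 ≤ δ j := fun j => by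
    have h1 := hpos (k₀ + j)
    have h2 := hpos (k₀ + j + 1)
    rw [hδ]
    have h3 := h1.2.1
    have h4 := h2.2.2
    positivity
  have hδs : Summable δ := by
    have h1 : Summable fun j => τ (j + k₀) / d (j + k₀ + 1) :=
      (summable_nat_add_iff (f := fun k => τ k / d (k + 1)) k₀).2 hs1
    have h2 : (fun j => τ (j + k₀) / d (j + k₀ + 1)) = fun j => τ (k₀ + j) / d (k₀ + j + 1) := by
      funext j; rw [add_comm j k₀]
    rw [h2] at h1
    exact h1.mul_left 4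
  have hdist : ∀ j, dist (x j) (x j.succ) ≤ δ j := by
    intro j
    rw [dist_eq_norm]
    refine abs_le_of_sq_le_sq' ?_ (hδ0 j) |>.2
    rw [xr_norm]
    have h1 : ∀ n, (x j - x j.succ) n = (s j).1.2 n - (s (j + 1)).1.2 n := fun n => rfl
    simp only [h1]
    have h2 : Sp (-(L (k₀ + j + 1) : ℤ)) (L (k₀ + j + 1))
        (fun n => (s j).1.2 n - (s (j + 1)).1.2 n) := by
      intro n hn
      have h3 : L (k₀ + j) < L (k₀ + j + 1) := hL (by omega)
      have h4 := hsp j n (by omega)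
      have h5 := hsp (j + 1) n (by
        have h9 : k₀ + (j + 1) = k₀ + j + 1 := by omega
        rw [h9]; omega)
      show (s j).1.2 n - (s (j + 1)).1.2 n = 0
      rw [h4, h5, sub_zero]
    rw [sp_tsum h2]
    refine (hs j).2.trans (le_of_eq ?_)
    rw [hδ]
    ring
  have hcau : CauchySeq x := cauchySeq_of_dist_le_of_summable δ hdist hδs
  obtain ⟨y, hy⟩ := cauchySeq_tendsto_of_complete hcau
  have hE2 : ∀ j, dist (s j).1.1 (s j.succ).1.1 ≤ 2 * τ (k₀ + j) := by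
    intro j
    rw [dist_comm, Real.dist_eq]
    exact (hs j).1
  have hτs : Summable fun j => 2 * τ (k₀ + j) := by
    have h1 : Summable fun j => τ (j + k₀) := (summable_nat_add_iff (f := τ) k₀).2 hs2
    have h2 : (fun j => τ (j + k₀)) = fun j => τ (k₀ + j) := by funext j; rw [add_comm]
    rw [h2] at h1
    exact h1.mul_left 2
  obtain ⟨e, he⟩ := cauchySeq_tendsto_of_complete
    (cauchySeq_of_dist_le_of_summable (f := fun j => (s j).1.1) _ hE2 hτs)
  have hpt : ∀ n : ℤ, Tendsto (fun j => (s j).1.2 n) atTop (nhds (y n)) := by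
    intro n
    rw [tendsto_iff_norm_sub_tendsto_zero] at hy ⊢
    refine squeeze_zero (fun j => norm_nonneg _) (fun j => ?_) hy
    exact lp.norm_apply_le_norm (by simp) (x j - y) n
  refine ⟨e, fun n => y n, xr_summable y, fun n => ?_, xr_summable (x 0 - y), ?_⟩
  · have h1 : Tendsto (fun j => (s j).1.2 (n + 1) + (s j).1.2 (n - 1) + V n * (s j).1.2 n) atTop
        (nhds (y (n + 1) + y (n - 1) + V n * y n)) :=
      ((hpt _).add (hpt _)).add ((hpt n).const_mul _)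
    have h2 : Tendsto (fun j => (s j).1.1 * (s j).1.2 n) atTop (nhds (e * y n)) := he.mul (hpt n)
    refine tendsto_nhds_unique h1 (h2.congr' ?_)
    filter_upwards [eventually_ge_atTop n.natAbs] with j hj
    have h4 : k₀ + j ≤ L (k₀ + j) := hL.id_le (k₀ + j)
    have h3 : j ≤ L (k₀ + j) := le_trans (by omega) h4
    exact ((s j).2.1.2.2 n (by omega) (by omega)).symm
  · have h1 : ∀ n, ψ n - y n = (x 0 - y) n := fun n => rfl
    simp only [h1]
    rw [← xr_norm]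
    have h2 := dist_le_tsum_of_dist_le_of_tendsto₀ δ hdist hδs hy
    rw [dist_eq_norm] at h2
    have h3 : tsum δ = 4 * ∑' j, τ (k₀ + j) / d (k₀ + j + 1) := by
      rw [hδ, tsum_mul_left]
    rw [← h3]
    exact pow_le_pow_left₀ (norm_nonneg _) h2 2

end Pool.Agent.U187.LP
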