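import Pool.Agent.U187.LP.Dich

/-! The contraction. -/

set_option autoImplicit false

open scoped BigOperators ENNReal
open MeasureTheory

namespace Pool.Agent.U187.LP

open Pool.Agent.H695R3.PP

lemma UR_meas {c : ℝ} {g : ℝ → ℝ≥0∞} (hg : Measurable g) : Measurable (UR c g) := by
  unfold UR
  refine Measurable.mul ?_ (hg.comp ?_)
  · exact ENNReal.measurable_ofReal.comp (measurable_norm.inv)
  · exact measurable_const.sub measurable_inv

theorem taskContr : TaskContr := by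
  obtain ⟨C, hC1, hD⟩ := taskDich
  have hC0 : 0 < C := by linarith
  refine ⟨1 / (4 * (1 + C)), by positivity, ?_, ?_⟩
  · rw [div_le_div_iff₀ (by positivity) (by norm_num)]
    linarith
  intro ε c₁ g hε hε1 hg
  set c : ℝ := 1 / (4 * (1 + C)) with hc
  have hcpos : 0 < c := by positivity
  have hc2 : c * (4 * (1 + C)) = 1 := by rw [hc]; field_simp
  have hε2 : ε ^ 2 ≤ 1 := pow_le_one₀ hε.le hε1
  have hcle : c * ε ^ 2 ≤ 1 / 2 := by nlinarith
  obtain ⟨m1, a1, a2, _⟩ := taskAvg ε g hε hε1 hg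
  obtain ⟨i1, i2⟩ := taskIso c₁ (avg ε g) m1
  have mk : Measurable (UR c₁ (avg ε g)) := UR_meas m1
  obtain ⟨_, b1, _, _⟩ := taskAvg ε (UR c₁ (avg ε g)) hε hε1 mk
  have d1 := hD ε g (c₁ - 2) hε hε1 hg
  have d2 := hD ε (UR c₁ (avg ε g)) (-2) hε hε1 mk
  rw [show c₁ - 2 + 4 = c₁ + 2 by ring] at d1
  rw [show (-2 : ℝ) + 4 = 2 by norm_num] at d2
  have a3 := (i2.trans (a2 c₁))
  -- the mass of the inverted function
  have s1 : nsqL (UR c₁ (avg ε g)) ≤ (∫⁻ x in Set.Icc (-2) 2, UR c₁ (avg ε g) x ^ 2) +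
      ∫⁻ z in {z : ℝ | 1 < |z|}, UR c₁ (avg ε g) z ^ 2 := by
    unfold nsqL
    have hcov : (Set.univ : Set ℝ) ⊆ Set.Icc (-2) 2 ∪ {z : ℝ | 1 < |z|} := by
      intro z _
      by_cases hz : 1 < |z|
      · exact Or.inr hz
      · left
        rw [not_lt, abs_le] at hz
        exact ⟨by linarith [hz.1], by linarith [hz.2]⟩
    calc ∫⁻ x, UR c₁ (avg ε g) x ^ 2 = ∫⁻ x in Set.univ, UR c₁ (avg ε g) x ^ 2 := by
          rw [setLIntegral_univ]
      _ ≤ ∫⁻ x in Set.Icc (-2) 2 ∪ {z : ℝ | 1 < |z|}, UR c₁ (avg ε g) x ^ 2 :=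
          lintegral_mono_set hcov
      _ ≤ _ := lintegral_union_le _ _ _
  by_cases hN : nsqL g = ∞
  · rw [hN, ENNReal.mul_top]
    · exact le_top
    · rw [ne_eq, ENNReal.ofReal_eq_zero, not_le]
      linarith
  -- pass to real numbers
  rw [i1] at b1 s1 d2
  set N := nsqL g with hNd
  set H := nsqL (avg ε g) with hHd
  set A := nsqL (avg ε (UR c₁ (avg ε g))) with hAd
  set a := ∫⁻ y in Set.Icc (c₁ - 2) (c₁ + 2), g y ^ 2 with had
  set p := ∫⁻ z in {z : ℝ | 1 < |z|}, UR c₁ (avg ε g) z ^ 2 with hpd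
  set q := ∫⁻ x in Set.Icc (-2) 2, UR c₁ (avg ε g) x ^ 2 with hqd
  have hHf : H ≠ ∞ := ne_top_of_le_ne_top hN a1
  have hAf : A ≠ ∞ := ne_top_of_le_ne_top hHf b1
  have haf : a ≠ ∞ := ne_top_of_le_ne_top hN (setLIntegral_le_lintegral _ _)
  have hpf : p ≠ ∞ := ne_top_of_le_ne_top haf a3
  have hqf : q ≠ ∞ := by
    refine ne_top_of_le_ne_top hHf ?_
    rw [← i1]
    exact setLIntegral_le_lintegral _ _
  obtain ⟨N', hN0, hN'⟩ : ∃ x : ℝ, 0 ≤ x ∧ N = ENNReal.ofReal x :=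
    ⟨N.toReal, ENNReal.toReal_nonneg, (ENNReal.ofReal_toReal hN).symm⟩
  obtain ⟨H', hH0, hH'⟩ : ∃ x : ℝ, 0 ≤ x ∧ H = ENNReal.ofReal x :=
    ⟨H.toReal, ENNReal.toReal_nonneg, (ENNReal.ofReal_toReal hHf).symm⟩
  obtain ⟨A', hA0, hA'⟩ : ∃ x : ℝ, 0 ≤ x ∧ A = ENNReal.ofReal x :=
    ⟨A.toReal, ENNReal.toReal_nonneg, (ENNReal.ofReal_toReal hAf).symm⟩
  obtain ⟨a', ha0, ha'⟩ : ∃ x : ℝ, 0 ≤ x ∧ a = ENNReal.ofReal x :=
    ⟨a.toReal, ENNReal.toReal_nonneg, (ENNReal.ofReal_toReal haf).symm⟩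
  obtain ⟨p', hp0, hp'⟩ : ∃ x : ℝ, 0 ≤ x ∧ p = ENNReal.ofReal x :=
    ⟨p.toReal, ENNReal.toReal_nonneg, (ENNReal.ofReal_toReal hpf).symm⟩
  obtain ⟨q', hq0, hq'⟩ : ∃ x : ℝ, 0 ≤ x ∧ q = ENNReal.ofReal x :=
    ⟨q.toReal, ENNReal.toReal_nonneg, (ENNReal.ofReal_toReal hqf).symm⟩
  have hK0 : (0 : ℝ) ≤ C / ε ^ 2 := by positivity
  have h8 : (0 : ℝ) ≤ 1 / 8 := by norm_num
  rw [ha', hH', hN', ← ENNReal.ofReal_mul hK0, ← ENNReal.ofReal_mul hK0, ← ENNReal.ofReal_mul h8,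
    ← ENNReal.ofReal_add ha0 (by positivity), ← ENNReal.ofReal_add (by positivity) (by positivity),
    ENNReal.ofReal_le_ofReal_iff (by positivity)] at d1
  rw [hq', hH', hA', ← ENNReal.ofReal_mul hK0, ← ENNReal.ofReal_mul hK0, ← ENNReal.ofReal_mul h8,
    ← ENNReal.ofReal_add hq0 (by positivity), ← ENNReal.ofReal_add (by positivity) (by positivity),
    ENNReal.ofReal_le_ofReal_iff (by positivity)] at d2
  rw [hp', ha', ENNReal.ofReal_le_ofReal_iff ha0] at a3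
  rw [hH', hq', hp', ← ENNReal.ofReal_add hq0 hp0, ENNReal.ofReal_le_ofReal_iff (by positivity)] at s1
  rw [hA', hH', ENNReal.ofReal_le_ofReal_iff hH0] at b1
  rw [hA', hN', ← ENNReal.ofReal_mul (by linarith)]
  refine ENNReal.ofReal_le_ofReal ?_
  by_cases hcase : H' ≤ (1 - c * ε ^ 2) * N'
  · linarith
  · rw [not_le] at hcase
    -- a ≤ N / 8 + C c N
    have e1 : a' ≤ N' / 8 + C * c * N' := by
      have h1 : C / ε ^ 2 * (N' - H') ≤ C / ε ^ 2 * (c * ε ^ 2 * N') :=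
        mul_le_mul_of_nonneg_left (by linarith) hK0
      have h2 : C / ε ^ 2 * (c * ε ^ 2 * N') = C * c * N' := by field_simp
      linarith
    have e2 : N' / 2 ≤ C / ε ^ 2 * (H' - A') := by
      have h1 : (7 / 8 : ℝ) * ((1 - c * ε ^ 2) * N') ≤ 7 / 8 * H' := by linarith
      have h3 : c * ε ^ 2 * N' ≤ c * N' := by
        have : c * ε ^ 2 ≤ c := by nlinarith
        exact mul_le_mul_of_nonneg_right this hN0
      have h4 : c * N' + C * c * N' = N' / 4 := by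
        have : c * N' + C * c * N' = (c * (4 * (1 + C))) * N' / 4 := by ring
        rw [this, hc2]; ring
      have h5 : C / ε ^ 2 * (H' - A') ≥ q' - 1 / 8 * H' := by linarith
      nlinarith
    have e3 : c * ε ^ 2 * N' ≤ H' - A' := by
      have h1 : C / ε ^ 2 * (c * ε ^ 2 * N') ≤ C / ε ^ 2 * (H' - A') := by
        have h2 : C / ε ^ 2 * (c * ε ^ 2 * N') = C * c * N' := by field_simp
        rw [h2]
        have h6 : C * c ≤ 1 / 4 := by nlinarith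
        nlinarith
      exact le_of_mul_le_mul_left h1 (by positivity)
    have e4 : H' ≤ N' := by
      rw [hH', hN', ENNReal.ofReal_le_ofReal_iff hN0] at a1
      exact a1
    linarith

end Pool.Agent.U187.LP
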