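import Pool.Agent.U187.LP.KS1

/-! Averaging loses a part of the norm unless the function is spread out. -/

set_option autoImplicit false

open scoped BigOperators ENNReal
open MeasureTheory

namespace Pool.Agent.U187.LP

open Pool.Agent.H695R3.PP

section

variable (r : ℝ → ℝ)

/-- squared `L²` distance of a function and its translate -/
noncomputable def Dl (h : ℝ) : ℝ≥0∞ := ∫⁻ x, ENNReal.ofReal ((r (x + h) - r x) ^ 2)

variable {r}

lemma Dl_mul (hr : Measurable r) (h : ℝ) (n : ℕ) : Dl r (n * h) ≤ (n : ℝ≥0∞) ^ 2 * Dl r h := by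
  have hpt : ∀ x, ENNReal.ofReal ((r (x + n * h) - r x) ^ 2) ≤
      (n : ℝ≥0∞) * ∑ i ∈ Finset.range n, ENNReal.ofReal ((r (x + i * h + h) - r (x + i * h)) ^ 2) := by
    intro x
    have h1 : r (x + n * h) - r x =
        ∑ i ∈ Finset.range n, (r (x + (i + 1 : ℕ) * h) - r (x + i * h)) := by
      rw [Finset.sum_range_sub (fun i : ℕ => r (x + i * h))]
      simp
    have h2 : (r (x + n * h) - r x) ^ 2 ≤
        (n : ℝ) * ∑ i ∈ Finset.range n, (r (x + i * h + h) - r (x + i * h)) ^ 2 := by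
      rw [h1]
      refine sq_sum_le_card_mul_sum_sq.trans (le_of_eq ?_)
      rw [Finset.card_range]
      congr 1
      refine Finset.sum_congr rfl fun i _ => ?_
      congr 3
      push_cast
      ring
    refine (ENNReal.ofReal_le_ofReal h2).trans (le_of_eq ?_)
    rw [ENNReal.ofReal_mul (by positivity), ENNReal.ofReal_natCast,
      ENNReal.ofReal_sum_of_nonneg fun i _ => sq_nonneg _]
  have hm : ∀ i : ℕ, Measurable fun x =>
      ENNReal.ofReal ((r (x + i * h + h) - r (x + i * h)) ^ 2) := by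
    intro i
    refine ENNReal.measurable_ofReal.comp (Measurable.pow_const (Measurable.sub ?_ ?_) 2)
    · exact hr.comp ((measurable_id.add_const _).add_const _)
    · exact hr.comp (measurable_id.add_const _)
  calc Dl r (n * h) ≤ ∫⁻ x, (n : ℝ≥0∞) * ∑ i ∈ Finset.range n,
        ENNReal.ofReal ((r (x + i * h + h) - r (x + i * h)) ^ 2) := lintegral_mono hpt
    _ = (n : ℝ≥0∞) * ∑ i ∈ Finset.range n, ∫⁻ x,
        ENNReal.ofReal ((r (x + i * h + h) - r (x + i * h)) ^ 2) := by
        rw [lintegral_const_mul _ (Finset.measurable_fun_sum _ fun i _ => hm i),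
          lintegral_finsetSum _ fun i _ => hm i]
    _ = (n : ℝ≥0∞) * ∑ _i ∈ Finset.range n, Dl r h := by
        congr 1
        refine Finset.sum_congr rfl fun i _ => ?_
        exact lintegral_add_right_eq_self
          (fun x => ENNReal.ofReal ((r (x + h) - r x) ^ 2)) (i * h)
    _ = (n : ℝ≥0∞) ^ 2 * Dl r h := by
        rw [Finset.sum_const, Finset.card_range, nsmul_eq_mul, ← mul_assoc, sq]

/-- the variance identity -/
lemma variance (hr : Measurable r) (h0 : ∀ x, 0 ≤ r x) (ε : ℝ) :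
    ∫⁻ s, (∫⁻ s', Dl r (ε * (s' - s)) ∂U) ∂U + 2 * nsqL (avg ε fun x => ENNReal.ofReal (r x)) =
      2 * nsqL fun x => ENNReal.ofReal (r x) := by
  set G : ℝ → ℝ≥0∞ := fun x => ENNReal.ofReal (r x) with hG
  have hGm : Measurable G := ENNReal.measurable_ofReal.comp hr
  have hpt : ∀ a b : ℝ, 0 ≤ a → 0 ≤ b → ENNReal.ofReal ((b - a) ^ 2) +
      2 * (ENNReal.ofReal a * ENNReal.ofReal b) = ENNReal.ofReal a ^ 2 + ENNReal.ofReal b ^ 2 := by
    intro a b ha hb
    rw [← ENNReal.ofReal_mul ha, ← ENNReal.ofReal_pow ha, ← ENNReal.ofReal_pow hb,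
      ← ENNReal.ofReal_add (by positivity) (by positivity),
      show (2 : ℝ≥0∞) = ENNReal.ofReal 2 by simp, ← ENNReal.ofReal_mul (by norm_num),
      ← ENNReal.ofReal_add (by positivity) (by positivity)]
    congr 1
    ring
  have hGx : ∀ x, Measurable fun s => G (x + ε * s) := fun x =>
    hGm.comp (measurable_const.add (measurable_const.mul measurable_id))
  have hrx : ∀ x, Measurable fun s => r (x + ε * s) := fun x =>
    hr.comp (measurable_const.add (measurable_const.mul measurable_id))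
  -- for fixed `x`
  have hx : ∀ x, ∫⁻ s, (∫⁻ s', ENNReal.ofReal ((r (x + ε * s') - r (x + ε * s)) ^ 2) ∂U) ∂U +
      2 * avg ε G x ^ 2 = 2 * ∫⁻ s, G (x + ε * s) ^ 2 ∂U := by
    intro x
    have hm1 : ∀ s, Measurable fun s' => ENNReal.ofReal ((r (x + ε * s') - r (x + ε * s)) ^ 2) :=
      fun s => ENNReal.measurable_ofReal.comp (((hrx x).sub measurable_const).pow_const 2)
    have h1 : ∀ s, ∫⁻ s', ENNReal.ofReal ((r (x + ε * s') - r (x + ε * s)) ^ 2) ∂U +
        2 * (G (x + ε * s) * avg ε G x) = G (x + ε * s) ^ 2 + ∫⁻ s', G (x + ε * s') ^ 2 ∂U := by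
      intro s
      have h2 : 2 * (G (x + ε * s) * avg ε G x) =
          ∫⁻ s', 2 * (G (x + ε * s) * G (x + ε * s')) ∂U := by
        unfold avg
        rw [lintegral_const_mul _ ((hGx x).const_mul _), lintegral_const_mul _ (hGx x)]
      rw [h2, ← lintegral_add_left (hm1 s)]
      have h3 : ∀ s', ENNReal.ofReal ((r (x + ε * s') - r (x + ε * s)) ^ 2) +
          2 * (G (x + ε * s) * G (x + ε * s')) = G (x + ε * s) ^ 2 + G (x + ε * s') ^ 2 :=
        fun s' => hpt _ _ (h0 _) (h0 _)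
      rw [lintegral_congr h3, lintegral_add_left measurable_const, lintegral_const, measure_univ,
        mul_one]
    have hm2 : Measurable fun s => ∫⁻ s', ENNReal.ofReal ((r (x + ε * s') - r (x + ε * s)) ^ 2) ∂U := by
      refine Measurable.lintegral_prod_right'
        (f := fun p : ℝ × ℝ => ENNReal.ofReal ((r (x + ε * p.2) - r (x + ε * p.1)) ^ 2)) ?_
      refine ENNReal.measurable_ofReal.comp (Measurable.pow_const (Measurable.sub ?_ ?_) 2)
      · exact (hrx x).comp measurable_snd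
      · exact (hrx x).comp measurable_fst
    have h4 := lintegral_congr (μ := U) h1
    rw [lintegral_add_left hm2, lintegral_add_left ((hGx x).pow_const 2), lintegral_const,
      measure_univ, mul_one] at h4
    rw [lintegral_const_mul _ ((hGx x).mul_const _), lintegral_mul_const _ (hGx x)] at h4
    have h5 : ∫⁻ s, G (x + ε * s) ∂U = avg ε G x := rfl
    rw [h5] at h4
    rw [sq (avg ε G x), h4, two_mul]
  -- integrate in `x`
  have hm3 : Measurable fun p : ℝ × (ℝ × ℝ) =>
      ENNReal.ofReal ((r (p.1 + ε * p.2.2) - r (p.1 + ε * p.2.1)) ^ 2) := by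
    refine ENNReal.measurable_ofReal.comp (Measurable.pow_const (Measurable.sub ?_ ?_) 2)
    · exact hr.comp (measurable_fst.add (measurable_const.mul (measurable_snd.comp measurable_snd)))
    · exact hr.comp (measurable_fst.add (measurable_const.mul (measurable_fst.comp measurable_snd)))
  have h6 := lintegral_congr (μ := volume) hx
  have hm4 : Measurable fun x =>
      ∫⁻ s, (∫⁻ s', ENNReal.ofReal ((r (x + ε * s') - r (x + ε * s)) ^ 2) ∂U) ∂U := by
    refine Measurable.lintegral_prod_right' (f := fun q : ℝ × ℝ =>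
      ∫⁻ s', ENNReal.ofReal ((r (q.1 + ε * s') - r (q.1 + ε * q.2)) ^ 2) ∂U) ?_
    refine Measurable.lintegral_prod_right' (f := fun q : (ℝ × ℝ) × ℝ =>
      ENNReal.ofReal ((r (q.1.1 + ε * q.2) - r (q.1.1 + ε * q.1.2)) ^ 2)) ?_
    exact hm3.comp (g := fun p : ℝ × (ℝ × ℝ) =>
      ENNReal.ofReal ((r (p.1 + ε * p.2.2) - r (p.1 + ε * p.2.1)) ^ 2))
      (f := fun q : (ℝ × ℝ) × ℝ => (q.1.1, (q.1.2, q.2))) (by fun_prop)
  have hm5 : Measurable fun p : ℝ × ℝ => G (p.1 + ε * p.2) ^ 2 :=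
    (hGm.comp (measurable_fst.add (measurable_const.mul measurable_snd))).pow_const 2
  rw [lintegral_add_left hm4, lintegral_const_mul _ ((avg_meas hGm).pow_const 2),
    lintegral_const_mul _ (Measurable.lintegral_prod_right' hm5)] at h6
  have h7 : ∫⁻ x, ∫⁻ s, G (x + ε * s) ^ 2 ∂U = nsqL G := by
    calc ∫⁻ x, ∫⁻ s, G (x + ε * s) ^ 2 ∂U = ∫⁻ s, (∫⁻ x, G (x + ε * s) ^ 2) ∂U :=
          lintegral_lintegral_swap hm5.aemeasurable
      _ = ∫⁻ _s, (∫⁻ x, G x ^ 2) ∂U := by
          refine lintegral_congr fun s => ?_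
          exact lintegral_add_right_eq_self (fun x => G x ^ 2) (ε * s)
      _ = ∫⁻ x, G x ^ 2 := by rw [lintegral_const, measure_univ, mul_one]
  rw [h7] at h6
  rw [← h6]
  congr 1
  -- Tonelli
  symm
  calc ∫⁻ x, ∫⁻ s, (∫⁻ s', ENNReal.ofReal ((r (x + ε * s') - r (x + ε * s)) ^ 2) ∂U) ∂U
      = ∫⁻ s, (∫⁻ x, ∫⁻ s', ENNReal.ofReal ((r (x + ε * s') - r (x + ε * s)) ^ 2) ∂U) ∂U := by
        refine lintegral_lintegral_swap (Measurable.aemeasurable ?_)
        refine Measurable.lintegral_prod_right' (f := fun q : (ℝ × ℝ) × ℝ =>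
          ENNReal.ofReal ((r (q.1.1 + ε * q.2) - r (q.1.1 + ε * q.1.2)) ^ 2)) ?_
        exact hm3.comp (g := fun p : ℝ × (ℝ × ℝ) =>
          ENNReal.ofReal ((r (p.1 + ε * p.2.2) - r (p.1 + ε * p.2.1)) ^ 2))
          (f := fun q : (ℝ × ℝ) × ℝ => (q.1.1, (q.1.2, q.2))) (by fun_prop)
    _ = ∫⁻ s, (∫⁻ s', Dl r (ε * (s' - s)) ∂U) ∂U := by
        refine lintegral_congr fun s => ?_
        calc ∫⁻ x, ∫⁻ s', ENNReal.ofReal ((r (x + ε * s') - r (x + ε * s)) ^ 2) ∂U
            = ∫⁻ s', (∫⁻ x, ENNReal.ofReal ((r (x + ε * s') - r (x + ε * s)) ^ 2)) ∂U := by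
              refine lintegral_lintegral_swap (Measurable.aemeasurable ?_)
              exact hm3.comp (g := fun p : ℝ × (ℝ × ℝ) =>
                ENNReal.ofReal ((r (p.1 + ε * p.2.2) - r (p.1 + ε * p.2.1)) ^ 2))
                (f := fun q : ℝ × ℝ => (q.1, (s, q.2))) (by fun_prop)
          _ = ∫⁻ s', Dl r (ε * (s' - s)) ∂U := by
              refine lintegral_congr fun s' => ?_
              unfold Dl
              rw [← lintegral_add_right_eq_self
                (fun x => ENNReal.ofReal ((r (x + ε * (s' - s)) - r x) ^ 2)) (ε * s)]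
              refine lintegral_congr fun x => ?_
              congr 4
              ring

lemma U_Icc {a b : ℝ} (ha : -1 ≤ a) (hb : b ≤ 1) :
    U (Set.Icc a b) = ENNReal.ofReal ((b - a) / 2) := by
  unfold U
  rw [Measure.smul_apply, Measure.restrict_apply measurableSet_Icc,
    Set.inter_eq_left.2 (Set.Icc_subset_Icc ha hb), Real.volume_Icc, smul_eq_mul,
    ← ENNReal.ofReal_mul (by norm_num)]
  congr 1
  ring

lemma Dl_meas (hr : Measurable r) : Measurable (Dl r) := by
  unfold Dl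
  refine Measurable.lintegral_prod_right'
    (f := fun q : ℝ × ℝ => ENNReal.ofReal ((r (q.2 + q.1) - r q.2) ^ 2)) ?_
  refine ENNReal.measurable_ofReal.comp (Measurable.pow_const (Measurable.sub ?_ ?_) 2)
  · exact hr.comp (measurable_snd.add measurable_fst)
  · exact hr.comp measurable_snd

/-- a good shift -/
lemma good_shift (hr : Measurable r) (ε : ℝ) : ∃ u : ℝ, 1 / 2 ≤ u ∧ u ≤ 2 ∧
    Dl r (ε * u) ≤ 8 * ∫⁻ s, (∫⁻ s', Dl r (ε * (s' - s)) ∂U) ∂U := by
  set F : ℝ → ℝ≥0∞ := fun s => ∫⁻ s', Dl r (ε * (s' - s)) ∂U with hF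
  have hFm : Measurable F := by
    refine Measurable.lintegral_prod_right' (f := fun q : ℝ × ℝ => Dl r (ε * (q.2 - q.1))) ?_
    exact (Dl_meas hr).comp (by fun_prop)
  have u1 : U (Set.Icc (-1 : ℝ) (-1 / 2)) = ENNReal.ofReal (1 / 4) := by
    rw [U_Icc (by norm_num) (by norm_num)]; norm_num
  have u2 : U (Set.Icc (0 : ℝ) 1) = ENNReal.ofReal (1 / 2) := by
    rw [U_Icc (by norm_num) (by norm_num)]; norm_num
  obtain ⟨s, hs, h1⟩ := exists_le_setLAverage (μ := U) (s := Set.Icc (-1 : ℝ) (-1 / 2)) (f := F)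
    (by rw [u1]; simp) (by rw [u1]; exact ENNReal.ofReal_ne_top) hFm.aemeasurable
  obtain ⟨s', hs', h2⟩ := exists_le_setLAverage (μ := U) (s := Set.Icc (0 : ℝ) 1)
    (f := fun s' => Dl r (ε * (s' - s))) (by rw [u2]; simp)
    (by rw [u2]; exact ENNReal.ofReal_ne_top)
    ((Dl_meas hr).comp (by fun_prop)).aemeasurable
  rw [setLAverage_eq, u1] at h1
  rw [setLAverage_eq, u2] at h2
  refine ⟨s' - s, by linarith [hs.2, hs'.1], by linarith [hs.1, hs'.2], ?_⟩
  have h3 : Dl r (ε * (s' - s)) ≤ 2 * F s := by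
    refine h2.trans ?_
    rw [ENNReal.div_eq_inv_mul, ← ENNReal.ofReal_inv_of_pos (by norm_num)]
    refine mul_le_mul' (by norm_num) (setLIntegral_le_lintegral _ _)
  have h4 : F s ≤ 4 * ∫⁻ s, F s ∂U := by
    refine h1.trans ?_
    rw [ENNReal.div_eq_inv_mul, ← ENNReal.ofReal_inv_of_pos (by norm_num)]
    refine mul_le_mul' (by norm_num) (setLIntegral_le_lintegral _ _)
  calc Dl r (ε * (s' - s)) ≤ 2 * F s := h3
    _ ≤ 2 * (4 * ∫⁻ s, F s ∂U) := mul_le_mul_right h4 _
    _ = 8 * ∫⁻ s, F s ∂U := by rw [← mul_assoc]; norm_num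

/-- the window estimate -/
lemma window (hr : Measurable r) (h0 : ∀ x, 0 ≤ r x) (y T : ℝ) :
    ∫⁻ x in Set.Icc y (y + 4), ENNReal.ofReal (r x) ^ 2 ≤
      2 * (∫⁻ x in Set.Icc (y + T) (y + T + 4), ENNReal.ofReal (r x) ^ 2) + 2 * Dl r T := by
  have hpt : ∀ x, ENNReal.ofReal (r x) ^ 2 ≤
      2 * ENNReal.ofReal (r (x + T)) ^ 2 + 2 * ENNReal.ofReal ((r (x + T) - r x) ^ 2) := by
    intro x
    rw [← ENNReal.ofReal_pow (h0 _), ← ENNReal.ofReal_pow (h0 _),
      show (2 : ℝ≥0∞) = ENNReal.ofReal 2 by simp, ← ENNReal.ofReal_mul (by norm_num),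
      ← ENNReal.ofReal_mul (by norm_num), ← ENNReal.ofReal_add (by positivity) (by positivity)]
    refine ENNReal.ofReal_le_ofReal ?_
    nlinarith [sq_nonneg (r x - 2 * r (x + T))]
  have hm1 : Measurable fun x => ENNReal.ofReal (r (x + T)) ^ 2 :=
    (ENNReal.measurable_ofReal.comp (hr.comp (measurable_id.add_const T))).pow_const 2
  calc ∫⁻ x in Set.Icc y (y + 4), ENNReal.ofReal (r x) ^ 2
      ≤ ∫⁻ x in Set.Icc y (y + 4), (2 * ENNReal.ofReal (r (x + T)) ^ 2 +
        2 * ENNReal.ofReal ((r (x + T) - r x) ^ 2)) := lintegral_mono hpt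
    _ = 2 * (∫⁻ x in Set.Icc y (y + 4), ENNReal.ofReal (r (x + T)) ^ 2) +
        ∫⁻ x in Set.Icc y (y + 4), 2 * ENNReal.ofReal ((r (x + T) - r x) ^ 2) := by
        rw [lintegral_add_left (hm1.const_mul 2), lintegral_const_mul _ hm1]
    _ ≤ 2 * (∫⁻ x in Set.Icc (y + T) (y + T + 4), ENNReal.ofReal (r x) ^ 2) + 2 * Dl r T := by
        refine add_le_add (mul_le_mul_right (le_of_eq ?_) _) ?_
        · rw [← lintegral_indicator measurableSet_Icc, ← lintegral_indicator measurableSet_Icc,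
            ← lintegral_add_right_eq_self
            ((Set.Icc (y + T) (y + T + 4)).indicator fun x => ENNReal.ofReal (r x) ^ 2) T]
          refine lintegral_congr fun x => ?_
          by_cases hx : x ∈ Set.Icc y (y + 4)
          · rw [Set.indicator_of_mem hx, Set.indicator_of_mem]
            rw [Set.mem_Icc] at hx ⊢
            constructor <;> linarith
          · rw [Set.indicator_of_notMem hx, Set.indicator_of_notMem]
            intro h
            apply hx
            rw [Set.mem_Icc] at h ⊢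
            constructor <;> linarith
        · unfold Dl
          rw [← lintegral_const_mul' _ _ (by simp)]
          exact setLIntegral_le_lintegral _ _

lemma dich_real (hr : Measurable r) (h0 : ∀ x, 0 ≤ r x) {ε : ℝ} (hε : 0 < ε) (hε1 : ε ≤ 1)
    (y : ℝ) :
    (∫⁻ x in Set.Icc y (y + 4), ENNReal.ofReal (r x) ^ 2) +
      ENNReal.ofReal (663552 / ε ^ 2) * nsqL (avg ε fun x => ENNReal.ofReal (r x)) ≤
      ENNReal.ofReal (1 / 8) * (nsqL fun x => ENNReal.ofReal (r x)) +
      ENNReal.ofReal (663552 / ε ^ 2) * nsqL fun x => ENNReal.ofReal (r x) := by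
  have hvar := variance hr h0 ε
  obtain ⟨u, hu1, hu2, hu⟩ := good_shift hr ε
  set I : ℝ≥0∞ := ∫⁻ s, (∫⁻ s', Dl r (ε * (s' - s)) ∂U) ∂U with hI
  set N : ℝ≥0∞ := nsqL fun x => ENNReal.ofReal (r x) with hN
  set A : ℝ≥0∞ := nsqL (avg ε fun x => ENNReal.ofReal (r x)) with hA
  set h : ℝ := ε * u with hh
  have hpos : 0 < h := by positivity
  have hh1 : ε / 2 ≤ h := by rw [hh]; nlinarith
  -- the number of steps
  set n : ℕ := ⌊4 / h⌋₊ + 1 with hn
  have hn1 : 4 < n * h := by
    have := Nat.lt_floor_add_one (4 / h)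
    rw [div_lt_iff₀ hpos] at this
    rw [hn]
    push_cast
    exact this
  have hn2 : (n : ℝ) ≤ 9 / ε := by
    have h1 : (⌊4 / h⌋₊ : ℝ) ≤ 4 / h := Nat.floor_le (by positivity)
    have h2 : 4 / h ≤ 8 / ε := by
      rw [div_le_div_iff₀ hpos hε]
      linarith
    have h3 : 1 ≤ 1 / ε := by rw [le_div_iff₀ hε]; linarith
    rw [hn]
    push_cast
    calc (⌊4 / h⌋₊ : ℝ) + 1 ≤ 8 / ε + 1 / ε := by linarith
      _ = 9 / ε := by ring
  set T : ℝ := n * h with hT
  set m : ℝ≥0∞ := ∫⁻ x in Set.Icc y (y + 4), ENNReal.ofReal (r x) ^ 2 with hm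
  have hw : ∀ j ∈ Finset.Icc (1 : ℕ) 16, m ≤
      2 * (∫⁻ x in Set.Icc (y + j * T) (y + j * T + 4), ENNReal.ofReal (r x) ^ 2) +
        ENNReal.ofReal (331776 / ε ^ 2) * I := by
    intro j hj
    rw [Finset.mem_Icc] at hj
    refine (window hr h0 y (j * T)).trans (add_le_add_right ?_ _)
    have e1 : (j : ℝ) * T = ((j * n : ℕ) : ℝ) * h := by rw [hT]; push_cast; ring
    rw [e1]
    have h1 := Dl_mul hr h (j * n)
    have h2 : ((j * n : ℕ) : ℝ≥0∞) ^ 2 ≤ ENNReal.ofReal ((144 / ε) ^ 2) := by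
      rw [ENNReal.ofReal_pow (by positivity)]
      refine pow_le_pow_left' ?_ 2
      rw [← ENNReal.ofReal_natCast]
      refine ENNReal.ofReal_le_ofReal ?_
      push_cast
      have h3 : (j : ℝ) ≤ 16 := by exact_mod_cast hj.2
      calc (j : ℝ) * n ≤ 16 * (9 / ε) := mul_le_mul h3 hn2 (by positivity) (by norm_num)
        _ = 144 / ε := by ring
    calc 2 * Dl r (((j * n : ℕ) : ℝ) * h) ≤ 2 * (((j * n : ℕ) : ℝ≥0∞) ^ 2 * Dl r h) :=
          mul_le_mul_right h1 _
      _ ≤ 2 * (ENNReal.ofReal ((144 / ε) ^ 2) * (8 * I)) :=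
          mul_le_mul_right (mul_le_mul' h2 hu) _
      _ = ENNReal.ofReal (331776 / ε ^ 2) * I := by
          rw [show (2 : ℝ≥0∞) = ENNReal.ofReal 2 by simp,
            show (8 : ℝ≥0∞) = ENNReal.ofReal 8 by simp, ← mul_assoc, ← mul_assoc,
            ← ENNReal.ofReal_mul (by norm_num), ← ENNReal.ofReal_mul (by positivity)]
          congr 2
          ring
  have hdisj : ∑ j ∈ Finset.Icc (1 : ℕ) 16,
      ∫⁻ x in Set.Icc (y + (j : ℕ) * T) (y + j * T + 4), ENNReal.ofReal (r x) ^ 2 ≤ N := by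
    rw [← lintegral_biUnion_finset]
    · exact setLIntegral_le_lintegral _ _
    · intro i _ j _ hij
      have key : ∀ i j : ℕ, i < j → Disjoint (Set.Icc (y + (i : ℝ) * T) (y + i * T + 4))
          (Set.Icc (y + (j : ℝ) * T) (y + j * T + 4)) := by
        intro i j hlt
        rw [Set.disjoint_left]
        intro x hx hx'
        have h1 : (i : ℝ) + 1 ≤ j := by exact_mod_cast hlt
        have h2 := hx.2
        have h3 := hx'.1
        have h4 : ((i : ℝ) + 1) * T ≤ j * T := mul_le_mul_of_nonneg_right h1 (by positivity)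
        linarith
      rcases lt_or_gt_of_ne hij with h1 | h1
      · exact key i j h1
      · exact (key j i h1).symm
    · intro j _
      exact measurableSet_Icc
  have hsum := Finset.sum_le_sum hw
  rw [Finset.sum_const, Finset.sum_add_distrib, ← Finset.mul_sum, Finset.sum_const] at hsum
  have hcard : (Finset.Icc (1 : ℕ) 16).card = 16 := by simp
  rw [hcard] at hsum
  have h16 : 16 * m ≤ 2 * N + 16 * (ENNReal.ofReal (331776 / ε ^ 2) * I) := by
    simp only [nsmul_eq_mul] at hsum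
    push_cast at hsum
    exact hsum.trans (add_le_add_left (mul_le_mul_right hdisj _) _)
  have hm2 : m ≤ ENNReal.ofReal (1 / 8) * N + ENNReal.ofReal (331776 / ε ^ 2) * I := by
    have h1 : (16 : ℝ≥0∞) * m ≤ 16 * (ENNReal.ofReal (1 / 8) * N +
        ENNReal.ofReal (331776 / ε ^ 2) * I) := by
      refine h16.trans (le_of_eq ?_)
      rw [mul_add, ← mul_assoc (16 : ℝ≥0∞) (ENNReal.ofReal (1 / 8)),
        show (16 : ℝ≥0∞) = ENNReal.ofReal 16 by simp, ← ENNReal.ofReal_mul (by norm_num)]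
      congr 2
      norm_num
    exact (ENNReal.mul_le_mul_iff_right (by norm_num) (by norm_num)).1 h1
  have hK : ENNReal.ofReal (663552 / ε ^ 2) = ENNReal.ofReal (331776 / ε ^ 2) * 2 := by
    rw [show (2 : ℝ≥0∞) = ENNReal.ofReal 2 by simp, ← ENNReal.ofReal_mul (by positivity)]
    congr 1
    ring
  calc m + ENNReal.ofReal (663552 / ε ^ 2) * A
      ≤ (ENNReal.ofReal (1 / 8) * N + ENNReal.ofReal (331776 / ε ^ 2) * I) +
        ENNReal.ofReal (331776 / ε ^ 2) * (2 * A) := by
        rw [hK, mul_assoc]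
        exact add_le_add_left hm2 _
    _ = ENNReal.ofReal (1 / 8) * N + ENNReal.ofReal (331776 / ε ^ 2) * (I + 2 * A) := by
        rw [mul_add, add_assoc]
    _ = ENNReal.ofReal (1 / 8) * N + ENNReal.ofReal (663552 / ε ^ 2) * N := by
        rw [hvar, hK, mul_assoc]

end

/-- averages of functions equal almost everywhere -/
lemma avg_congr {ε : ℝ} (hε : 0 < ε) {g g' : ℝ → ℝ≥0∞} (h : g =ᵐ[volume] g') (x : ℝ) :
    avg ε g x = avg ε g' x := by
  unfold avg
  refine lintegral_congr_ae ?_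
  unfold U
  refine Measure.ae_smul_measure (ae_restrict_of_ae ?_) _
  rw [Filter.EventuallyEq, ae_iff] at h
  rw [ae_iff]
  have e : {s : ℝ | ¬ g (x + ε * s) = g' (x + ε * s)} =
      (fun s => ε * s) ⁻¹' ((fun t => x + t) ⁻¹' {a | ¬ g a = g' a}) := rfl
  rw [e, Real.volume_preimage_mul_left hε.ne', measure_preimage_add, h, mul_zero]

theorem taskDich : TaskDich := by
  refine ⟨663552, by norm_num, fun ε g y hε hε1 hg => ?_⟩
  by_cases hN : nsqL g = ∞
  · rw [hN]
    have : ENNReal.ofReal (1 / 8) * (∞ : ℝ≥0∞) = ∞ := ENNReal.mul_top (by simp)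
    rw [this, top_add]
    exact le_top
  · have hfin : ∀ᵐ x : ℝ, g x ^ 2 < ∞ := ae_lt_top (hg.pow_const 2) hN
    set r : ℝ → ℝ := fun x => (g x).toReal with hr
    have hrm : Measurable r := hg.ennreal_toReal
    have hae : g =ᵐ[volume] fun x => ENNReal.ofReal (r x) := by
      filter_upwards [hfin] with x hx
      rw [hr]
      simp only
      rw [ENNReal.ofReal_toReal]
      intro h
      rw [h] at hx
      simp at hx
    have h1 := dich_real hrm (fun x => ENNReal.toReal_nonneg) hε hε1 y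
    have e1 : nsqL g = nsqL fun x => ENNReal.ofReal (r x) := by
      unfold nsqL
      refine lintegral_congr_ae ?_
      filter_upwards [hae] with x hx
      rw [hx]
    have e2 : avg ε g = avg ε fun x => ENNReal.ofReal (r x) := by
      funext x
      exact avg_congr hε hae x
    have e3 : ∫⁻ x in Set.Icc y (y + 4), g x ^ 2 =
        ∫⁻ x in Set.Icc y (y + 4), ENNReal.ofReal (r x) ^ 2 := by
      refine lintegral_congr_ae (ae_restrict_of_ae ?_)
      filter_upwards [hae] with x hx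
      rw [hx]
    rw [e1, e2, e3]
    exact h1

end Pool.Agent.U187.LP
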