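import Pool.Agent.H695R3.PP.Stmts

/-! Random limit-periodic functions: continuity, measurability, law of a window. -/

set_option autoImplicit false

open scoped BigOperators ENNReal
open MeasureTheory

namespace Pool.Agent.U187.LP

open Pool.Agent.H695R3.PP

/-- truncation to `[-1, 1]` -/
noncomputable def cl (x : ℝ) : ℝ := max (-1) (min 1 x)

lemma cl_abs (x : ℝ) : |cl x| ≤ 1 := by
  unfold cl
  rw [abs_le]
  exact ⟨le_max_left _ _, max_le (by norm_num) (min_le_left _ _)⟩

lemma cl_cont : Continuous cl := by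
  unfold cl
  fun_prop

lemma cl_eq {x : ℝ} (h : x ∈ Set.Icc (-1 : ℝ) 1) : cl x = x := by
  unfold cl
  rw [min_eq_right h.2, max_eq_right h.1]

lemma U_ae : ∀ᵐ x ∂U, x ∈ Set.Icc (-1 : ℝ) 1 := by
  unfold U
  refine Measure.ae_smul_measure ?_ _
  exact ae_restrict_mem measurableSet_Icc

section

variable {Ω : Type} {Q : ℕ → Type} (p : ∀ k, Ω → Q k) (f0 : Ω → ℝ) (e : ℕ → ℝ)

/-- The random function. -/
noncomputable def Ff (η : ∀ k, Q k → ℝ) (ω : Ω) : ℝ := f0 ω + ∑' k, e k * cl (η k (p k ω))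

variable {e}

lemma term_le (he : ∀ k, 0 ≤ e k) (k : ℕ) (x : ℝ) : ‖e k * cl x‖ ≤ e k := by
  rw [Real.norm_eq_abs, abs_mul, abs_of_nonneg (he k)]
  exact mul_le_of_le_one_right (he k) (cl_abs x)

lemma term_sum (he : ∀ k, 0 ≤ e k) (hs : Summable e) (x : ℕ → ℝ) :
    Summable fun k => e k * cl (x k) :=
  Summable.of_norm_bounded hs fun k => term_le he k (x k)

lemma tsum_abs (he : ∀ k, 0 ≤ e k) (hs : Summable e) (x : ℕ → ℝ) :
    |∑' k, e k * cl (x k)| ≤ ∑' k, e k := by
  have := tsum_of_norm_bounded hs.hasSum fun k => term_le he k (x k)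
  simpa using this

lemma Ff_abs (he : ∀ k, 0 ≤ e k) (hs : Summable e) (η : ∀ k, Q k → ℝ) (ω : Ω) :
    |Ff p f0 e η ω - f0 ω| ≤ ∑' k, e k := by
  unfold Ff
  rw [add_sub_cancel_left]
  exact tsum_abs he hs _

lemma Ff_cont [TopologicalSpace Ω] (he : ∀ k, 0 ≤ e k) (hs : Summable e)
    (hp : ∀ k, IsLocallyConstant (p k)) (hf : Continuous f0) (η : ∀ k, Q k → ℝ) :
    Continuous (Ff p f0 e η) := by
  unfold Ff
  refine hf.add ?_
  refine continuous_tsum (fun k => ?_) hs (fun k ω => term_le he k _)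
  have h1 : IsLocallyConstant (fun ω => e k * cl (η k (p k ω))) :=
    (hp k).comp (fun c => e k * cl (η k c))
  exact h1.continuous

/-- joint measurability -/
lemma Ff_meas [MeasurableSpace Ω] [∀ k, Fintype (Q k)] (he : ∀ k, 0 ≤ e k) (hs : Summable e)
    (hp : ∀ k c, MeasurableSet (p k ⁻¹' {c})) (hf : Measurable f0) :
    Measurable (fun x : (∀ k, Q k → ℝ) × Ω => Ff p f0 e x.1 x.2) := by
  unfold Ff
  refine (hf.comp measurable_snd).add ?_
  have h1 : ∀ k, Measurable (fun x : (∀ k, Q k → ℝ) × Ω => e k * cl (x.1 k (p k x.2))) := by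
    intro k
    refine measurable_const.mul (cl_cont.measurable.comp ?_)
    letI : MeasurableSpace (Q k) := ⊤
    have h2 : Measurable (fun x : (Q k → ℝ) × Q k => x.1 x.2) :=
      measurable_from_prod_countable_left fun c => measurable_pi_apply c
    have h3 : Measurable (p k) := measurable_to_countable' fun c => hp k c
    have h4 : Measurable (fun x : (∀ k, Q k → ℝ) × Ω => (x.1 k, p k x.2)) :=
      Measurable.prodMk ((measurable_pi_apply k).comp measurable_fst) (h3.comp measurable_snd)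
    exact h2.comp h4
  refine measurable_of_tendsto_metrizable (f := fun (N : ℕ) (x : (∀ k, Q k → ℝ) × Ω) =>
    ∑ k ∈ Finset.range N, e k * cl (x.1 k (p k x.2))) (fun N => ?_) ?_
  · exact Finset.measurable_fun_sum _ fun k _ => h1 k
  · rw [tendsto_pi_nhds]
    intro x
    exact (term_sum he hs _).hasSum.tendsto_sum_nat

/-- the potential -/
noncomputable def Vp [Add Ω] (T : ℤ → Ω) (η : ∀ k, Q k → ℝ) (ω : Ω) : ℤ → ℝ :=
  fun n => Ff p f0 e η (ω + T n)

lemma update_eq [DecidableEq ℕ] (he : ∀ k, 0 ≤ e k) (hs : Summable e) (η : ∀ k, Q k → ℝ) (k : ℕ)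
    (η' : Q k → ℝ) (ω : Ω) :
    Ff p f0 e (Function.update η k η') ω =
      (f0 ω + ∑' j, (if j = k then 0 else e j * cl (η j (p j ω)))) + e k * cl (η' (p k ω)) := by
  unfold Ff
  have h := (term_sum he hs fun j => (Function.update η k η') j (p j ω))
  rw [h.tsum_eq_add_tsum_ite k, Function.update_self]
  have : ∀ j, (if j = k then (0:ℝ) else e j * cl ((Function.update η k η') j (p j ω))) =
      (if j = k then 0 else e j * cl (η j (p j ω))) := by
    intro j
    split_ifs with hj
    · rfl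
    · rw [Function.update_of_ne hj]
  simp only [this]
  ring

lemma rest_abs (he : ∀ k, 0 ≤ e k) (hs : Summable e) (η : ∀ k, Q k → ℝ) (k : ℕ) (ω : Ω) :
    |∑' j, (if j = k then 0 else e j * cl (η j (p j ω)))| ≤ ∑' j, e j := by
  have h : ∀ j, ‖(if j = k then 0 else e j * cl (η j (p j ω)))‖ ≤ e j := by
    intro j
    split_ifs with hj
    · simpa using he j
    · exact term_le he j _
  have := tsum_of_norm_bounded hs.hasSum h
  simpa using this

end

end Pool.Agent.U187.LP
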