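import Pool.Agent.U187.LP.Final1

/-! Probability of a window event. -/

set_option autoImplicit false

open scoped BigOperators ENNReal
open MeasureTheory

namespace Pool.Agent.U187.LP

open Pool.Agent.H695R3.PP

section

variable {Ω : Type} {Q : ℕ → Type} [∀ k, Fintype (Q k)] (p : ∀ k, Ω → Q k) (f0 : Ω → ℝ)
  {e : ℕ → ℝ}

/-- law of the random coefficients of one level -/
noncomputable def lv (Q : Type) [Fintype Q] : Measure (Q → ℝ) := Measure.pi fun _ : Q => U

instance (Q : Type) [Fintype Q] : IsProbabilityMeasure (lv Q) := by unfold lv; infer_instance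

/-- law of all random coefficients -/
noncomputable def law (Q : ℕ → Type) [∀ k, Fintype (Q k)] : Measure (∀ k, Q k → ℝ) :=
  Measure.infinitePi fun k => lv (Q k)

instance (Q : ℕ → Type) [∀ k, Fintype (Q k)] : IsProbabilityMeasure (law Q) := by
  unfold law; infer_instance

lemma lv_ae (Q : Type) [Fintype Q] : ∀ᵐ η ∂(lv Q), ∀ c, η c ∈ Set.Icc (-1 : ℝ) 1 := by
  rw [ae_all_iff]
  intro c
  unfold lv
  exact (measurePreserving_eval (fun _ : Q => U) c).quasiMeasurePreserving.ae U_ae

theorem window_prob (hR : TaskResample) (hT : TaskTransfer) (he : ∀ k, 0 ≤ e k)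
    (hs : Summable e) (k L : ℕ) (B : Set (ℤ → ℝ)) (hB : MeasurableSet B)
    (hBw : ∀ V V' : ℤ → ℝ, (∀ n, -(L : ℤ) ≤ n → n ≤ L → V n = V' n) → (V ∈ B ↔ V' ∈ B))
    (q : ℤ → Ω) (hq : Set.InjOn (fun n => p k (q n)) (Set.Icc (-(L : ℤ)) L))
    (M : ℝ) (hM : ∀ ω, |f0 ω| ≤ M) (b : ℝ≥0∞)
    (hb : ∀ W : ℤ → ℝ, (∀ n, |W n| ≤ M + ∑' j, e j) → PZ {x | (fun n => W n + e k * x n) ∈ B} ≤ b) :
    law Q {η | (fun n => Ff p f0 e η (q n)) ∈ B} ≤ b := by
  classical
  have hmeas : Measurable (fun (η : ∀ k, Q k → ℝ) (n : ℤ) => Ff p f0 e η (q n)) := by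
    refine measurable_pi_lambda _ fun n => ?_
    unfold Ff
    refine measurable_const.add ?_
    refine measurable_of_tendsto_metrizable (f := fun (N : ℕ) (x : (∀ k, Q k → ℝ)) =>
      ∑ k ∈ Finset.range N, e k * cl (x k (p k (q n)))) (fun N => ?_) ?_
    · refine Finset.measurable_fun_sum _ fun k _ => measurable_const.mul (cl_cont.measurable.comp ?_)
      exact (measurable_pi_apply (p k (q n))).comp (measurable_pi_apply k)
    · rw [tendsto_pi_nhds]
      intro x
      exact (term_sum he hs _).hasSum.tendsto_sum_nat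
  set S : Set (∀ k, Q k → ℝ) := {η | (fun n => Ff p f0 e η (q n)) ∈ B} with hS
  have hSm : MeasurableSet S := hmeas hB
  have h1 := hR ℕ (fun k => Q k → ℝ) (fun k => lv (Q k)) k
  have h2 : law Q S = Measure.map (fun p : (∀ j, Q j → ℝ) × (Q k → ℝ) => Function.update p.1 k p.2)
      ((law Q).prod (lv (Q k))) S := by
    unfold law
    rw [h1]
  have hup : Measurable (fun p : (∀ j, Q j → ℝ) × (Q k → ℝ) => Function.update p.1 k p.2) := by
    refine measurable_pi_lambda _ fun j => ?_
    by_cases hj : j = k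
    · subst hj
      simp only [Function.update_self]
      exact measurable_snd
    · simp only [Function.update_of_ne hj]
      exact (measurable_pi_apply j).comp measurable_fst
  rw [h2, Measure.map_apply hup hSm, Measure.prod_apply (hup hSm)]
  calc ∫⁻ η, lv (Q k) (Prod.mk η ⁻¹' ((fun p : (∀ j, Q j → ℝ) × (Q k → ℝ) =>
        Function.update p.1 k p.2) ⁻¹' S)) ∂(law Q)
      ≤ ∫⁻ η, b ∂(law Q) := by
        refine lintegral_mono fun η => ?_
        set W : ℤ → ℝ := fun n => f0 (q n) +
          ∑' j, (if j = k then 0 else e j * cl (η j (p j (q n)))) with hW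
        have hWb : ∀ n, |W n| ≤ M + ∑' j, e j := fun n =>
          (abs_add_le _ _).trans (add_le_add (hM _) (rest_abs p he hs η k (q n)))
        have h3 : lv (Q k) (Prod.mk η ⁻¹' ((fun p : (∀ j, Q j → ℝ) × (Q k → ℝ) =>
            Function.update p.1 k p.2) ⁻¹' S)) =
            lv (Q k) {η' | (fun n => W n + e k * η' (p k (q n))) ∈ B} := by
          refine measure_congr ?_
          filter_upwards [lv_ae (Q k)] with η' hη'
          refine propext ?_
          change (fun n => Ff p f0 e (Function.update η k η') (q n)) ∈ B ↔ _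
          have : (fun n => Ff p f0 e (Function.update η k η') (q n)) =
              fun n => W n + e k * η' (p k (q n)) := by
            funext n
            rw [update_eq p f0 he hs, cl_eq (hη' _)]
          rw [this]
          rfl
        have h4 := hT (Q k) (fun n => p k (q n)) L W (e k) B hq hB hBw
        show lv (Q k) _ ≤ b
        rw [h3]
        unfold lv
        rw [h4]
        exact hb W hWb
    _ = b := by simp

end

end Pool.Agent.U187.LP
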