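import Pool.Agent.U187.LP.Final2

/-! Borel-Cantelli: only finitely many bad events. -/

set_option autoImplicit false

open scoped BigOperators ENNReal
open MeasureTheory

namespace Pool.Agent.U187.LP

open Pool.Agent.H695R3.PP

lemma isEig_congr {V V' : ℤ → ℝ} {a b : ℤ} (h : ∀ n, a ≤ n → n ≤ b → V n = V' n) (E : ℝ)
    (ψ : ℤ → ℝ) : IsEig V a b E ψ ↔ IsEig V' a b E ψ := by
  unfold IsEig
  refine and_congr Iff.rfl (and_congr Iff.rfl ?_)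
  refine forall_congr' fun n => forall_congr' fun h1 => forall_congr' fun h2 => ?_
  rw [h n h1 h2]

lemma bad1_congr (L : ℕ) (a τ : ℝ) {V V' : ℤ → ℝ}
    (h : ∀ n, -(L : ℤ) ≤ n → n ≤ L → V n = V' n) : Bad1 L a τ V ↔ Bad1 L a τ V' := by
  unfold Bad1
  refine exists_congr fun E => exists_congr fun ψ => ?_
  rw [isEig_congr h]

lemma bad2_congr (L : ℕ) (d : ℝ) {V V' : ℤ → ℝ}
    (h : ∀ n, -(L : ℤ) ≤ n → n ≤ L → V n = V' n) : Bad2 L d V ↔ Bad2 L d V' := by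
  unfold Bad2
  refine exists_congr fun E => exists_congr fun ψ => exists_congr fun E' => exists_congr fun ψ' => ?_
  rw [isEig_congr h, isEig_congr h]

/-- the bad set at one scale -/
def BB (L : ℕ) (a τ d : ℝ) : Set (ℤ → ℝ) := {V | Bad1 L a τ V ∨ Bad2 L d V}

lemma BB_meas (h : TaskMeas) (L : ℕ) (a τ d : ℝ) : MeasurableSet (BB L a τ d) := by
  have : BB L a τ d = {V | Bad1 L a τ V} ∪ {V | Bad2 L d V} := rfl
  rw [this]
  exact (h.1 L a τ).union (h.2 L d)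

lemma BB_window (L : ℕ) (a τ d : ℝ) (V V' : ℤ → ℝ)
    (h : ∀ n, -(L : ℤ) ≤ n → n ≤ L → V n = V' n) : V ∈ BB L a τ d ↔ V' ∈ BB L a τ d := by
  unfold BB
  rw [Set.mem_ofPred_eq, Set.mem_ofPred_eq, bad1_congr L a τ h, bad2_congr L d h]

/-! the scales -/

noncomputable def eS (ε0 : ℝ) (k : ℕ) : ℝ := ε0 / 2 ^ k
def LS (k : ℕ) : ℕ := 16 ^ k
noncomputable def aS (k : ℕ) : ℝ := 1 / 8 ^ k
noncomputable def tS (l : ℝ) (k : ℕ) : ℝ := Real.exp (-(l / 2 * 4 ^ k))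
noncomputable def dS (l : ℝ) (k : ℕ) : ℝ := Real.exp (-(l / 16 * 4 ^ k))

lemma eS_hasSum (ε0 : ℝ) : HasSum (eS ε0) (2 * ε0) := by
  have h := hasSum_geometric_two.mul_left ε0
  have e : (fun n : ℕ => ε0 * (1 / 2 : ℝ) ^ n) = eS ε0 := by
    funext n
    unfold eS
    rw [one_div, inv_pow]
    rfl
  rw [e] at h
  rwa [mul_comm]

lemma eS_pos {ε0 : ℝ} (h : 0 < ε0) (k : ℕ) : 0 < eS ε0 k := by unfold eS; positivity

lemma eS_le {ε0 : ℝ} (h : 0 < ε0) (h1 : ε0 ≤ 1) (k : ℕ) : eS ε0 k ≤ 1 := by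
  unfold eS
  have : (1 : ℝ) ≤ 2 ^ k := one_le_pow₀ (by norm_num)
  rw [div_le_one (by positivity)]
  linarith

lemma num1 {ε0 c C R : ℝ} (h0 : 0 < ε0) (h1 : ε0 ≤ 1) (hc : 0 < c) (hc1 : c ≤ 1 / 2) (hC : 0 < C)
    (k : ℕ) :
    C * R ^ 2 / (eS ε0 k ^ 3 * aS k ^ 2 * tS (c * ε0 ^ 2) k) * (1 - c * eS ε0 k ^ 2) ^ (LS k) ≤
      C * R ^ 2 / ε0 ^ 3 * (512 ^ k * Real.exp (-(c * ε0 ^ 2 / 2 * 4 ^ k))) := by
  have e1 : (1 - c * eS ε0 k ^ 2) ^ (LS k) ≤ Real.exp (-(c * ε0 ^ 2 * 4 ^ k)) := by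
    have hle := eS_le h0 h1 k
    have hp := eS_pos h0 k
    have h2 : 0 ≤ 1 - c * eS ε0 k ^ 2 := by nlinarith
    have h3 : 1 - c * eS ε0 k ^ 2 ≤ Real.exp (-(c * eS ε0 k ^ 2)) := Real.one_sub_le_exp_neg _
    calc (1 - c * eS ε0 k ^ 2) ^ (LS k) ≤ Real.exp (-(c * eS ε0 k ^ 2)) ^ (LS k) :=
          pow_le_pow_left₀ h2 h3 _
      _ = Real.exp (-(c * ε0 ^ 2 * 4 ^ k)) := by
          rw [← Real.exp_nat_mul]
          congr 1
          unfold eS LS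
          push_cast
          have : (16 : ℝ) ^ k = (2 ^ k) ^ 2 * 4 ^ k := by
            rw [← pow_mul, mul_comm k 2, pow_mul, ← mul_pow]; norm_num
          rw [this]
          field_simp
  have e2 : C * R ^ 2 / (eS ε0 k ^ 3 * aS k ^ 2 * tS (c * ε0 ^ 2) k) =
      C * R ^ 2 / ε0 ^ 3 * (512 ^ k * Real.exp (c * ε0 ^ 2 / 2 * 4 ^ k)) := by
    unfold eS aS tS
    rw [Real.exp_neg]
    have : (512 : ℝ) ^ k = (2 ^ k) ^ 3 * (8 ^ k) ^ 2 := by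
      rw [← pow_mul, ← pow_mul, mul_comm k 3, mul_comm k 2, pow_mul, pow_mul, ← mul_pow]; norm_num
    rw [this]
    field_simp
  rw [e2]
  have e3 : Real.exp (-(c * ε0 ^ 2 / 2 * 4 ^ k)) =
      Real.exp (c * ε0 ^ 2 / 2 * 4 ^ k) * Real.exp (-(c * ε0 ^ 2 * 4 ^ k)) := by
    rw [← Real.exp_add]; congr 1; ring
  rw [e3]
  calc _ ≤ C * R ^ 2 / ε0 ^ 3 * (512 ^ k * Real.exp (c * ε0 ^ 2 / 2 * 4 ^ k)) *
        Real.exp (-(c * ε0 ^ 2 * 4 ^ k)) := by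
        refine mul_le_mul_of_nonneg_left e1 ?_
        positivity
    _ = _ := by ring

lemma num2 {ε0 l C : ℝ} (h0 : 0 < ε0) (hC : 0 < C) (k : ℕ) :
    C * ((LS k : ℝ) + 1) ^ 4 * dS l k / eS ε0 k ≤
      16 * C / ε0 * (131072 ^ k * Real.exp (-(l / 16 * 4 ^ k))) := by
  have e1 : ((LS k : ℝ) + 1) ^ 4 ≤ 16 * 65536 ^ k := by
    have h1 : (1 : ℝ) ≤ 16 ^ k := one_le_pow₀ (by norm_num)
    have h2 : ((LS k : ℝ) + 1) ≤ 2 * 16 ^ k := by unfold LS; push_cast; linarith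
    calc ((LS k : ℝ) + 1) ^ 4 ≤ (2 * 16 ^ k) ^ 4 := pow_le_pow_left₀ (by positivity) h2 _
      _ = 16 * 65536 ^ k := by
        rw [mul_pow, ← pow_mul, mul_comm k 4, pow_mul]; norm_num
  have e2 : (131072 : ℝ) ^ k = 65536 ^ k * 2 ^ k := by rw [← mul_pow]; norm_num
  unfold dS eS
  rw [e2]
  calc C * ((LS k : ℝ) + 1) ^ 4 * Real.exp (-(l / 16 * 4 ^ k)) / (ε0 / 2 ^ k)
      = (C / ε0 * 2 ^ k * Real.exp (-(l / 16 * 4 ^ k))) * ((LS k : ℝ) + 1) ^ 4 := by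
        field_simp
    _ ≤ (C / ε0 * 2 ^ k * Real.exp (-(l / 16 * 4 ^ k))) * (16 * 65536 ^ k) :=
        mul_le_mul_of_nonneg_left e1 (by positivity)
    _ = _ := by ring

section

variable {Ω : Type} [MeasurableSpace Ω] {Q : ℕ → Type} [∀ k, Fintype (Q k)]
  (p : ∀ k, Ω → Q k) (f0 : Ω → ℝ)

theorem exists_good (hR : TaskResample) (hT : TaskTransfer) (hG1 : TaskG1) (hG2 : TaskG2)
    (hN : TaskNum) (hMs : TaskMeas) (μ : Measure Ω) [SFinite μ]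
    (T : ℤ → Ω → Ω) (hTm : ∀ n, Measurable (T n)) (hf : Measurable f0)
    (hpm : ∀ k c, MeasurableSet (p k ⁻¹' {c}))
    (hinj : ∀ k ω, Set.InjOn (fun n => p k (T n ω)) (Set.Icc (-(LS k : ℤ)) (LS k)))
    (M : ℝ) (hM0 : 0 ≤ M) (hM : ∀ ω, |f0 ω| ≤ M) :
    ∃ c : ℝ, 0 < c ∧ ∀ ε0 : ℝ, 0 < ε0 → ε0 ≤ 1 → ∃ η : ∀ k, Q k → ℝ, ∀ᵐ ω ∂μ,
      ∀ᶠ k in Filter.atTop, (fun n => Ff p f0 (eS ε0) η (T n ω)) ∉
        BB (LS k) (aS k) (tS (c * ε0 ^ 2) k) (dS (c * ε0 ^ 2) k) := by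
  obtain ⟨c, C1, hc, hc1, hC1, H1⟩ := hG1
  obtain ⟨C2, hC2, H2⟩ := hG2
  refine ⟨c, hc, fun ε0 h0 h1 => ?_⟩
  set l : ℝ := c * ε0 ^ 2 with hl
  have hlpos : 0 < l := by positivity
  set R : ℝ := M + 2 * ε0 + 1 with hRdef
  have hR1 : 1 ≤ R := by linarith
  have he : ∀ k, 0 ≤ eS ε0 k := fun k => (eS_pos h0 k).le
  have hs : Summable (eS ε0) := (eS_hasSum ε0).summable
  have hts : ∑' k, eS ε0 k = 2 * ε0 := (eS_hasSum ε0).tsum_eq
  -- the bound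
  set g : ℕ → ℝ := fun k => C1 * R ^ 2 / ε0 ^ 3 * (512 ^ k * Real.exp (-(l / 2 * 4 ^ k))) +
    16 * C2 / ε0 * (131072 ^ k * Real.exp (-(l / 16 * 4 ^ k))) with hg
  have hgs : Summable g := by
    refine Summable.add ?_ ?_
    · exact ((hN (l / 2) 512 (by positivity) (by norm_num)).1).mul_left _
    · exact ((hN (l / 16) 131072 (by positivity) (by norm_num)).1).mul_left _
  have hg0 : ∀ k, 0 ≤ g k := fun k => by
    have : 0 < C1 * R ^ 2 / ε0 ^ 3 := by positivity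
    positivity
  set B : ℕ → Set (ℤ → ℝ) := fun k => BB (LS k) (aS k) (tS l k) (dS l k) with hB
  have key : ∀ k ω, law Q {η | (fun n => Ff p f0 (eS ε0) η (T n ω)) ∈ B k} ≤
      ENNReal.ofReal (g k) := by
    intro k ω
    refine window_prob p f0 hR hT he hs k (LS k) (B k) (BB_meas hMs _ _ _ _)
      (BB_window _ _ _ _) (fun n => T n ω) (hinj k ω) M hM _ fun W hW => ?_
    have hWR : ∀ n, |W n| ≤ R := fun n => by
      have := hW n
      rw [hts] at this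
      linarith
    have b1 := H1 (eS ε0 k) R (aS k) (tS l k) W (LS k) (eS_pos h0 k) (eS_le h0 h1 k) hR1 hWR
      (by unfold aS; positivity) (by unfold tS; positivity)
      (by unfold LS; exact Nat.one_le_pow _ _ (by norm_num))
    have b2 := H2 (eS ε0 k) (dS l k) W (LS k) (eS_pos h0 k) (by unfold dS; positivity)
    have hsub : {x : ℤ → ℝ | (fun n => W n + eS ε0 k * x n) ∈ B k} ⊆
        {x : ℤ → ℝ | Bad1 (LS k) (aS k) (tS l k) (fun n => W n + eS ε0 k * x n)} ∪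
        {x : ℤ → ℝ | Bad2 (LS k) (dS l k) (fun n => W n + eS ε0 k * x n)} := fun x hx => hx
    refine (measure_mono hsub).trans ((measure_union_le _ _).trans ?_)
    rw [hg]
    simp only
    rw [ENNReal.ofReal_add (by positivity) (by positivity)]
    refine add_le_add (b1.trans (ENNReal.ofReal_le_ofReal ?_))
      (b2.trans (ENNReal.ofReal_le_ofReal ?_))
    · exact num1 h0 h1 hc hc1 hC1 k
    · exact num2 h0 hC2 k
  have hBm : ∀ k, MeasurableSet {x : (∀ k, Q k → ℝ) × Ω |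
      (fun n => Ff p f0 (eS ε0) x.1 (T n x.2)) ∈ B k} := by
    intro k
    have h2 : Measurable (fun (x : (∀ k, Q k → ℝ) × Ω) (n : ℤ) =>
        Ff p f0 (eS ε0) x.1 (T n x.2)) := by
      refine measurable_pi_lambda _ fun n => ?_
      have h3 : Measurable (fun x : (∀ k, Q k → ℝ) × Ω => (x.1, T n x.2)) :=
        Measurable.prodMk measurable_fst ((hTm n).comp measurable_snd)
      exact (Ff_meas p f0 he hs hpm hf).comp h3
    exact h2 (BB_meas hMs _ _ _ _)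
  have hev : ∀ ω, ∀ᵐ η ∂(law Q), ∀ᶠ k in Filter.atTop,
      (fun n => Ff p f0 (eS ε0) η (T n ω)) ∉ B k := by
    intro ω
    refine ae_eventually_notMem (s := fun k => {η | (fun n => Ff p f0 (eS ε0) η (T n ω)) ∈ B k}) ?_
    refine ne_top_of_le_ne_top ?_ (ENNReal.tsum_le_tsum fun k => key k ω)
    rw [← ENNReal.ofReal_tsum_of_nonneg hg0 hgs]
    exact ENNReal.ofReal_ne_top
  have hm : MeasurableSet {x : Ω × (∀ k, Q k → ℝ) | ∀ᶠ k in Filter.atTop,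
      (fun n => Ff p f0 (eS ε0) x.2 (T n x.1)) ∉ B k} := by
    have h2 : {x : Ω × (∀ k, Q k → ℝ) | ∀ᶠ k in Filter.atTop,
      (fun n => Ff p f0 (eS ε0) x.2 (T n x.1)) ∉ B k} = ⋃ K : ℕ, ⋂ k : ℕ, ⋂ (_ : K ≤ k),
        (Prod.swap ⁻¹' {x : (∀ k, Q k → ℝ) × Ω |
          (fun n => Ff p f0 (eS ε0) x.1 (T n x.2)) ∈ B k})ᶜ := by
      ext x
      simp only [Set.mem_ofPred_eq, Filter.eventually_atTop, Set.mem_iUnion, Set.mem_iInter,
        Set.mem_compl_iff, Set.mem_preimage, Prod.fst_swap, Prod.snd_swap]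
    rw [h2]
    exact MeasurableSet.iUnion fun K => MeasurableSet.iInter fun k => MeasurableSet.iInter fun _ =>
      (measurable_swap (hBm k)).compl
  have h5 : ∀ᵐ ω ∂μ, ∀ᵐ η ∂(law Q), ∀ᶠ k in Filter.atTop,
      (fun n => Ff p f0 (eS ε0) η (T n ω)) ∉ B k := Filter.Eventually.of_forall hev
  rw [Measure.ae_ae_comm hm] at h5
  exact h5.exists

end

end Pool.Agent.U187.LP
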