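import Pool.Agent.H695R3.PP.Stmts

/-! Kunz-Souillard: inversion and averages. -/

set_option autoImplicit false

open scoped BigOperators ENNReal
open MeasureTheory

namespace Pool.Agent.U187.LP

open Pool.Agent.H695R3.PP

/-- change of variables `y = c - 1/z` on a measurable set of nonzero `z` -/
lemma inv_change (c : ℝ) (g : ℝ → ℝ≥0∞) (s : Set ℝ) (hs : MeasurableSet s) (h0 : (0 : ℝ) ∉ s) :
    ∫⁻ y in (fun z : ℝ => c - z⁻¹) '' s, g y ^ 2 = ∫⁻ z in s, UR c g z ^ 2 := by
  have hd : ∀ z ∈ s, HasDerivWithinAt (fun z : ℝ => c - z⁻¹) ((z ^ 2)⁻¹) s z := by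
    intro z hz
    have hz0 : z ≠ 0 := fun h => h0 (h ▸ hz)
    have h1 := ((hasDerivAt_inv hz0).const_sub c).hasDerivWithinAt (s := s)
    refine h1.congr_deriv ?_
    simp
  have hi : Set.InjOn (fun z : ℝ => c - z⁻¹) s := by
    intro x _ y _ hxy
    have : x⁻¹ = y⁻¹ := by
      have h1 : c - x⁻¹ = c - y⁻¹ := hxy
      linarith
    exact inv_injective this
  rw [lintegral_image_eq_lintegral_abs_deriv_mul hs hd hi]
  refine setLIntegral_congr_fun hs fun z _ => ?_
  simp only [UR]
  rw [mul_pow, ← ENNReal.ofReal_pow (by positivity)]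
  congr 2
  rw [abs_of_nonneg (by positivity), ← abs_inv, sq_abs, inv_pow]

theorem taskIso : TaskIso := by
  intro c g _
  have himg : (fun z : ℝ => c - z⁻¹) '' {0}ᶜ = {c}ᶜ := by
    ext y
    simp only [Set.mem_image, Set.mem_compl_iff, Set.mem_singleton_iff]
    constructor
    · rintro ⟨z, hz, rfl⟩ h
      have : z⁻¹ = 0 := by linarith
      exact hz (inv_eq_zero.1 this)
    · intro hy
      refine ⟨(c - y)⁻¹, inv_ne_zero (sub_ne_zero.2 (Ne.symm hy)), ?_⟩
      rw [inv_inv]; ring
  constructor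
  · have h1 := inv_change c g {0}ᶜ (measurableSet_singleton 0).compl (by simp)
    rw [himg] at h1
    have r : ∀ (a : ℝ) (f : ℝ → ℝ≥0∞), ∫⁻ x in {a}ᶜ, f x = ∫⁻ x, f x := by
      intro a f
      have : (volume.restrict ({a}ᶜ : Set ℝ)) = volume := by
        rw [Measure.restrict_eq_self_of_ae_mem]
        have h2 : ∀ᵐ x : ℝ ∂volume, x ≠ a := by
          rw [ae_iff]; simp
        filter_upwards [h2] with x hx
        exact hx
      rw [this]
    rw [r, r] at h1
    unfold nsqL
    exact h1.symm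
  · have hm : MeasurableSet {z : ℝ | 1 < |z|} := measurableSet_lt measurable_const measurable_norm
    have h1 := inv_change c g {z : ℝ | 1 < |z|} hm (by simp)
    rw [← h1]
    refine lintegral_mono_set ?_
    rintro _ ⟨z, hz, rfl⟩
    have hz' : 1 < |z| := hz
    have h2 : |z⁻¹| ≤ 1 := by
      rw [abs_inv]
      exact inv_le_one_of_one_le₀ hz'.le
    rw [abs_le] at h2
    simp only [Set.mem_Icc]
    constructor <;> linarith

/-- change of variables for an affine map -/
lemma lint_affine (F : ℝ → ℝ≥0∞) (x : ℝ) {ε : ℝ} (hε : 0 < ε) (hF : Measurable F) :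
    ∫⁻ s, F (x + ε * s) = ENNReal.ofReal (1 / ε) * ∫⁻ y, F y := by
  have h1 : ∫⁻ s, F (x + ε * s) = ∫⁻ y, F (x + y) ∂(Measure.map (fun s => ε * s) volume) := by
    rw [lintegral_map (f := fun y => F (x + y)) (hF.comp (measurable_const.add measurable_id))
      (measurable_const_mul ε)]
  rw [h1, Real.map_volume_mul_left hε.ne', lintegral_smul_measure, abs_of_pos (inv_pos.2 hε),
    one_div, smul_eq_mul]
  congr 1
  exact lintegral_add_left_eq_self F x

/-- Jensen for a probability measure -/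
lemma sq_lint_le {α : Type*} [MeasurableSpace α] (μ : Measure α) [IsProbabilityMeasure μ]
    (f : α → ℝ≥0∞) (hf : Measurable f) : (∫⁻ a, f a ∂μ) ^ 2 ≤ ∫⁻ a, f a ^ 2 ∂μ := by
  have h := ENNReal.lintegral_mul_le_Lp_mul_Lq μ (p := 2) (q := 2) (by constructor <;> norm_num)
    hf.aemeasurable (aemeasurable_const (b := (1 : ℝ≥0∞)))
  simp only [Pi.mul_apply, mul_one, ENNReal.one_rpow, lintegral_const, measure_univ] at h
  have h2 := pow_le_pow_left' h 2
  refine h2.trans (le_of_eq ?_)
  rw [← ENNReal.rpow_natCast, ← ENNReal.rpow_mul]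
  norm_num

lemma avg_meas {ε : ℝ} {g : ℝ → ℝ≥0∞} (hg : Measurable g) : Measurable (avg ε g) := by
  unfold avg
  refine Measurable.lintegral_prod_right' (f := fun p : ℝ × ℝ => g (p.1 + ε * p.2)) ?_
  exact hg.comp (measurable_fst.add (measurable_const.mul measurable_snd))

theorem taskAvg : TaskAvg := by
  intro ε g hε hε1 hg
  have hgm : ∀ x, Measurable (fun s => g (x + ε * s)) := fun x =>
    hg.comp (measurable_const.add (measurable_const.mul measurable_id))
  have hj : ∀ x, avg ε g x ^ 2 ≤ ∫⁻ s, g (x + ε * s) ^ 2 ∂U := fun x => sq_lint_le U _ (hgm x)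
  have h2m : Measurable (fun p : ℝ × ℝ => g (p.1 + ε * p.2) ^ 2) :=
    (hg.comp (measurable_fst.add (measurable_const.mul measurable_snd))).pow_const 2
  refine ⟨avg_meas hg, ?_, fun c => ?_, fun x => ?_⟩
  · unfold nsqL
    calc ∫⁻ x, avg ε g x ^ 2 ≤ ∫⁻ x, ∫⁻ s, g (x + ε * s) ^ 2 ∂U := lintegral_mono hj
      _ = ∫⁻ s, (∫⁻ x, g (x + ε * s) ^ 2) ∂U := lintegral_lintegral_swap h2m.aemeasurable
      _ = ∫⁻ _s, (∫⁻ x, g x ^ 2) ∂U := by
          refine lintegral_congr fun s => ?_
          exact lintegral_add_right_eq_self (fun x => g x ^ 2) (ε * s)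
      _ = ∫⁻ x, g x ^ 2 := by rw [lintegral_const, measure_univ, mul_one]
  · have hae : ∀ᵐ s ∂U, s ∈ Set.Icc (-1 : ℝ) 1 := by
      unfold U
      exact Measure.ae_smul_measure (ae_restrict_mem measurableSet_Icc) _
    calc ∫⁻ y in Set.Icc (c - 1) (c + 1), avg ε g y ^ 2
        ≤ ∫⁻ y in Set.Icc (c - 1) (c + 1), ∫⁻ s, g (y + ε * s) ^ 2 ∂U := lintegral_mono hj
      _ = ∫⁻ s, (∫⁻ y in Set.Icc (c - 1) (c + 1), g (y + ε * s) ^ 2) ∂U :=
          lintegral_lintegral_swap h2m.aemeasurable
      _ ≤ ∫⁻ _s, (∫⁻ y in Set.Icc (c - 2) (c + 2), g y ^ 2) ∂U := by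
          refine lintegral_mono_ae ?_
          filter_upwards [hae] with s hs
          rw [← lintegral_indicator measurableSet_Icc, ← lintegral_indicator measurableSet_Icc]
          rw [← lintegral_add_right_eq_self ((Set.Icc (c - 2) (c + 2)).indicator fun y => g y ^ 2)
            (ε * s)]
          refine lintegral_mono fun y => ?_
          by_cases hy : y ∈ Set.Icc (c - 1) (c + 1)
          · rw [Set.indicator_of_mem hy, Set.indicator_of_mem]
            have h1 : |ε * s| ≤ 1 := by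
              rw [abs_mul, abs_of_pos hε]
              have h2 : |s| ≤ 1 := abs_le.2 hs
              calc ε * |s| ≤ 1 * 1 := mul_le_mul hε1 h2 (abs_nonneg _) zero_le_one
                _ = 1 := one_mul 1
            rw [abs_le] at h1
            rw [Set.mem_Icc] at hy ⊢
            constructor <;> linarith
          · rw [Set.indicator_of_notMem hy]
            exact bot_le
      _ = ∫⁻ y in Set.Icc (c - 2) (c + 2), g y ^ 2 := by
          rw [lintegral_const, measure_univ, mul_one]
  · have h1 : ∫⁻ s, g (x + ε * s) ^ 2 ∂U ≤ ENNReal.ofReal (1 / ε) * nsqL g := by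
      have h2 := lint_affine (fun y => g y ^ 2) x hε (hg.pow_const 2)
      unfold U
      rw [lintegral_smul_measure]
      calc ENNReal.ofReal (1 / 2) • ∫⁻ s in Set.Icc (-1) 1, g (x + ε * s) ^ 2
          ≤ 1 * ∫⁻ s, g (x + ε * s) ^ 2 := by
            rw [smul_eq_mul]
            refine mul_le_mul' ?_ (setLIntegral_le_lintegral _ _)
            rw [← ENNReal.ofReal_one]
            exact ENNReal.ofReal_le_ofReal (by norm_num)
        _ = ENNReal.ofReal (1 / ε) * nsqL g := by rw [one_mul, h2]; rfl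
    have h3 := (hj x).trans h1
    have h4 : avg ε g x = (avg ε g x ^ 2) ^ (1 / 2 : ℝ) := by
      rw [← ENNReal.rpow_natCast, ← ENNReal.rpow_mul]
      norm_num
    rw [h4]
    refine (ENNReal.rpow_le_rpow h3 (by norm_num)).trans (le_of_eq ?_)
    rw [ENNReal.mul_rpow_of_nonneg _ _ (by norm_num), ENNReal.ofReal_rpow_of_pos (by positivity)]
    congr 2
    rw [← Real.sqrt_eq_rpow, Real.sqrt_div zero_le_one, Real.sqrt_one]

end Pool.Agent.U187.LP
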