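import Pool.Agent.U187.LP.Basic

/-! The spectral theorem for a box, and its first consequences. -/

set_option autoImplicit false

open scoped BigOperators ENNReal
open MeasureTheory

namespace Pool.Agent.U187.LP

open Pool.Agent.H695R3.PP

/-- index type of the box -/
abbrev Bx (a b : ℤ) : Type := {x : ℤ // x ∈ Finset.Icc a b}

/-- Dirichlet matrix of the box -/
def Mx (V : ℤ → ℝ) (a b : ℤ) : Matrix (Bx a b) (Bx a b) ℝ := fun i j =>
  (if (j : ℤ) = i then V i else 0) + (if (j : ℤ) = i + 1 then 1 else 0) +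
    (if (j : ℤ) = i - 1 then 1 else 0)

/-- supported in the box -/
def Sp (a b : ℤ) (f : ℤ → ℝ) : Prop := ∀ n, n < a ∨ b < n → f n = 0

/-- scalar product in the box -/
noncomputable def ip (a b : ℤ) (f g : ℤ → ℝ) : ℝ := ∑ n ∈ Finset.Icc a b, f n * g n

/-- the operator -/
def Hop (V : ℤ → ℝ) (f : ℤ → ℝ) : ℤ → ℝ := fun n => f (n + 1) + f (n - 1) + V n * f n

lemma sumBx (a b : ℤ) (F : ℤ → ℝ) : ∑ i : Bx a b, F i = ∑ n ∈ Finset.Icc a b, F n :=
  Finset.sum_coe_sort (Finset.Icc a b) F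

lemma Mx_mulVec (V : ℤ → ℝ) {a b : ℤ} {f : ℤ → ℝ} (hf : Sp a b f) (i : Bx a b) :
    (Mx V a b).mulVec (fun j => f j) i = Hop V f i := by
  have h1 : (Mx V a b).mulVec (fun j => f j) i = ∑ n ∈ Finset.Icc a b,
      ((if n = (i : ℤ) then V i else 0) + (if n = (i : ℤ) + 1 then 1 else 0) +
        (if n = (i : ℤ) - 1 then 1 else 0)) * f n := by
    rw [← sumBx]
    rfl
  rw [h1]
  simp only [add_mul, Finset.sum_add_distrib, ite_mul, zero_mul, one_mul, Finset.sum_ite_eq',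
    if_pos i.2]
  have h2 : (if (i : ℤ) + 1 ∈ Finset.Icc a b then f ((i : ℤ) + 1) else 0) = f ((i : ℤ) + 1) := by
    split_ifs with h
    · rfl
    · rw [Finset.mem_Icc] at h
      exact (hf _ (by omega)).symm
  have h3 : (if (i : ℤ) - 1 ∈ Finset.Icc a b then f ((i : ℤ) - 1) else 0) = f ((i : ℤ) - 1) := by
    split_ifs with h
    · rfl
    · rw [Finset.mem_Icc] at h
      exact (hf _ (by omega)).symm
  rw [h2, h3]
  unfold Hop
  ring

lemma Mx_symm (V : ℤ → ℝ) (a b : ℤ) : (Mx V a b).transpose = Mx V a b := by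
  ext i j
  simp only [Matrix.transpose_apply, Mx]
  have e1 : ((i : ℤ) = j) ↔ ((j : ℤ) = i) := eq_comm
  have e2 : ((i : ℤ) = j + 1) ↔ ((j : ℤ) = i - 1) := by omega
  have e3 : ((i : ℤ) = j - 1) ↔ ((j : ℤ) = i + 1) := by omega
  simp only [e2, e3]
  by_cases h : (j : ℤ) = i
  · rw [if_pos h, if_pos h.symm, h]; ring
  · rw [if_neg h, if_neg (fun h' => h h'.symm)]; ring

lemma Mx_herm (V : ℤ → ℝ) (a b : ℤ) : (Mx V a b).IsHermitian := by
  unfold Matrix.IsHermitian
  rw [Matrix.conjTranspose_eq_transpose_of_trivial, Mx_symm]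

lemma ip_symm (V : ℤ → ℝ) {a b : ℤ} {f g : ℤ → ℝ} (hf : Sp a b f) (hg : Sp a b g) :
    ip a b g (Hop V f) = ip a b (Hop V g) f := by
  have h1 : ip a b g (Hop V f) = dotProduct (fun j : Bx a b => g j)
      ((Mx V a b).mulVec (fun j => f j)) := by
    unfold ip
    rw [← sumBx a b (fun n => g n * Hop V f n)]
    unfold dotProduct
    refine Finset.sum_congr rfl fun i _ => ?_
    rw [Mx_mulVec V hf]
  have h2 : ip a b (Hop V g) f = dotProduct ((Mx V a b).mulVec (fun j : Bx a b => g j))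
      (fun j => f j) := by
    unfold ip
    rw [← sumBx a b (fun n => Hop V g n * f n)]
    unfold dotProduct
    refine Finset.sum_congr rfl fun i _ => ?_
    rw [Mx_mulVec V hg]
  rw [h1, h2, Matrix.dotProduct_mulVec]
  congr 1
  rw [← Matrix.mulVec_transpose, Mx_symm]

theorem spectral (V : ℤ → ℝ) (a b : ℤ) : ∃ (e : Bx a b → ℝ) (ψ : Bx a b → ℤ → ℝ),
    (∀ j, IsEig V a b (e j) (ψ j)) ∧
    (∀ i j, ip a b (ψ i) (ψ j) = if i = j then 1 else 0) ∧
    (∀ f, Sp a b f → ∀ n, f n = ∑ j, ip a b (ψ j) f * ψ j n) ∧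
    (∀ f, nsq a b f = ∑ j, ip a b (ψ j) f ^ 2) := by
  classical
  set B := (Mx_herm V a b).eigenvectorBasis with hB
  set e := (Mx_herm V a b).eigenvalues with he
  set ψ : Bx a b → ℤ → ℝ := fun j n => if h : n ∈ Finset.Icc a b then (B j).ofLp ⟨n, h⟩ else 0
    with hψ
  have hψi : ∀ (j i : Bx a b), ψ j i = (B j).ofLp i := by
    intro j i
    simp only [hψ, dif_pos i.2]
  have hS : ∀ j, Sp a b (ψ j) := by
    intro j n hn
    simp only [hψ]
    rw [dif_neg]
    rw [Finset.mem_Icc]; omega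
  have hip : ∀ (x : EuclideanSpace ℝ (Bx a b)) (f : ℤ → ℝ) (j : Bx a b),
      (∀ i : Bx a b, x.ofLp i = f i) → inner ℝ (B j) x = ip a b (ψ j) f := by
    intro x f j hx
    rw [PiLp.inner_apply]
    unfold ip
    rw [← sumBx a b (fun n => ψ j n * f n)]
    refine Finset.sum_congr rfl fun i _ => ?_
    rw [hψi, hx i]
    simp [mul_comm]
  have horth : ∀ i j, ip a b (ψ i) (ψ j) = if i = j then 1 else 0 := by
    intro i j
    rw [← hip (B j) (ψ j) i (fun k => (hψi j k).symm)]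
    exact orthonormal_iff_ite.1 B.orthonormal i j
  have hex : ∀ f, Sp a b f → ∀ n, f n = ∑ j, ip a b (ψ j) f * ψ j n := by
    intro f hf n
    by_cases hn : n ∈ Finset.Icc a b
    · set x : EuclideanSpace ℝ (Bx a b) := WithLp.toLp 2 (fun i => f i) with hx
      have h1 := B.sum_repr x
      have h2 := congrArg (fun y : EuclideanSpace ℝ (Bx a b) => y.ofLp ⟨n, hn⟩) h1
      simp only [hx] at h2
      rw [← h2]
      rw [WithLp.ofLp_sum, Finset.sum_apply]
      refine Finset.sum_congr rfl fun j _ => ?_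
      rw [WithLp.ofLp_smul, Pi.smul_apply, smul_eq_mul, OrthonormalBasis.repr_apply_apply,
        hip x f j (fun i => rfl), ← hψi]
    · rw [hf n (by rw [Finset.mem_Icc] at hn; omega)]
      symm
      refine Finset.sum_eq_zero fun j _ => ?_
      rw [hS j n (by rw [Finset.mem_Icc] at hn; omega), mul_zero]
  have hpa : ∀ f, nsq a b f = ∑ j, ip a b (ψ j) f ^ 2 := by
    intro f
    set x : EuclideanSpace ℝ (Bx a b) := WithLp.toLp 2 (fun i => f i) with hx
    have h1 := B.sum_sq_norm_inner_right x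
    have h2 : ‖x‖ ^ 2 = nsq a b f := by
      rw [EuclideanSpace.norm_sq_eq]
      unfold nsq
      rw [← sumBx a b (fun n => f n ^ 2)]
      refine Finset.sum_congr rfl fun i _ => ?_
      rw [Real.norm_eq_abs, sq_abs]
    rw [← h2, ← h1]
    refine Finset.sum_congr rfl fun j _ => ?_
    rw [hip x f j (fun i => rfl), Real.norm_eq_abs, sq_abs]
  refine ⟨e, ψ, fun j => ⟨hS j, ?_, ?_⟩, horth, hex, hpa⟩
  · have := horth j j
    rw [if_pos rfl] at this
    rw [← this]
    unfold nsq ip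
    refine Finset.sum_congr rfl fun n _ => by ring
  · intro n h1 h2
    have hn : n ∈ Finset.Icc a b := Finset.mem_Icc.2 ⟨h1, h2⟩
    have h3 := (Mx_herm V a b).mulVec_eigenvectorBasis j
    have h4 := congrFun h3 ⟨n, hn⟩
    have h5 : (B j).ofLp = fun i : Bx a b => ψ j i := by
      funext i; rw [hψi]
    rw [← hB, ← he] at h4
    rw [h5, Mx_mulVec V (hS j)] at h4
    unfold Hop at h4
    rw [Pi.smul_apply, smul_eq_mul] at h4
    exact h4

lemma eig_sp {V : ℤ → ℝ} {a b : ℤ} {E : ℝ} {ψ : ℤ → ℝ} (h : IsEig V a b E ψ) : Sp a b ψ := h.1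

lemma eig_hop {V : ℤ → ℝ} {a b : ℤ} {E : ℝ} {ψ : ℤ → ℝ} (h : IsEig V a b E ψ) (f : ℤ → ℝ) :
    ip a b (Hop V ψ) f = E * ip a b ψ f := by
  unfold ip
  rw [Finset.mul_sum]
  refine Finset.sum_congr rfl fun n hn => ?_
  rw [Finset.mem_Icc] at hn
  have := h.2.2 n hn.1 hn.2
  unfold Hop
  rw [this]
  ring

/-- coefficient of the residual -/
lemma coef_res {V : ℤ → ℝ} {a b : ℤ} {E e : ℝ} {ψ f : ℤ → ℝ} (h : IsEig V a b e ψ)
    (hf : Sp a b f) : ip a b ψ (fun n => Hop V f n - E * f n) = (e - E) * ip a b ψ f := by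
  have h1 := ip_symm V hf (eig_sp h)
  rw [eig_hop h] at h1
  have h2 : ip a b ψ (fun n => Hop V f n - E * f n) = ip a b ψ (Hop V f) - E * ip a b ψ f := by
    unfold ip
    rw [Finset.mul_sum, ← Finset.sum_sub_distrib]
    refine Finset.sum_congr rfl fun n _ => by ring
  rw [h2, h1]
  ring

lemma res_sq {V : ℤ → ℝ} {a b : ℤ} {e : Bx a b → ℝ} {ψ : Bx a b → ℤ → ℝ}
    (he : ∀ j, IsEig V a b (e j) (ψ j)) (hp : ∀ f, nsq a b f = ∑ j, ip a b (ψ j) f ^ 2)
    {f : ℤ → ℝ} (hf : Sp a b f) (E : ℝ) :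
    ∑ n ∈ Finset.Icc a b, (f (n + 1) + f (n - 1) + V n * f n - E * f n) ^ 2 =
      ∑ j, ((e j - E) * ip a b (ψ j) f) ^ 2 := by
  have h1 := hp (fun n => Hop V f n - E * f n)
  have h2 : nsq a b (fun n => Hop V f n - E * f n) =
      ∑ n ∈ Finset.Icc a b, (f (n + 1) + f (n - 1) + V n * f n - E * f n) ^ 2 := rfl
  rw [← h2, h1]
  refine Finset.sum_congr rfl fun j _ => ?_
  rw [coef_res (he j) hf]

theorem taskApprox : TaskApprox := by
  intro V a b E δ f hδ hf hpos hres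
  obtain ⟨e, ψ, he, ho, hx, hp⟩ := spectral V a b
  by_contra hcon
  push Not at hcon
  have h1 : ∀ j, δ < |e j - E| := fun j => hcon (e j) (ψ j) (he j)
  rw [res_sq he hp hf E, hp f, Finset.mul_sum] at hres
  have h2 : ∀ j ∈ Finset.univ, δ ^ 2 * ip a b (ψ j) f ^ 2 ≤ ((e j - E) * ip a b (ψ j) f) ^ 2 := by
    intro j _
    rw [mul_pow]
    refine mul_le_mul_of_nonneg_right ?_ (sq_nonneg _)
    rw [← sq_abs (e j - E)]
    exact pow_le_pow_left₀ hδ (h1 j).le 2
  have h3 := (Finset.sum_eq_sum_iff_of_le h2).1 (le_antisymm (Finset.sum_le_sum h2) hres)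
  have h4 : ∀ j, ip a b (ψ j) f = 0 := by
    intro j
    by_contra h0
    have h5 := h3 j (Finset.mem_univ _)
    rw [mul_pow] at h5
    have h6 : ip a b (ψ j) f ^ 2 ≠ 0 := pow_ne_zero _ h0
    have h7 := mul_right_cancel₀ h6 h5
    rw [← sq_abs (e j - E)] at h7
    have h8 := pow_lt_pow_left₀ (h1 j) hδ (two_ne_zero)
    linarith
  rw [hp f] at hpos
  simp only [h4] at hpos
  simp at hpos

lemma eig_mem {V : ℤ → ℝ} {a b : ℤ} {e : Bx a b → ℝ} {ψ : Bx a b → ℤ → ℝ}
    (he : ∀ j, IsEig V a b (e j) (ψ j)) (hp : ∀ f, nsq a b f = ∑ j, ip a b (ψ j) f ^ 2)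
    {E : ℝ} {φ : ℤ → ℝ} (h : IsEig V a b E φ) : ∃ j, e j = E := by
  by_contra hcon
  push Not at hcon
  have h1 := res_sq he hp (eig_sp h) E
  have h2 : ∑ n ∈ Finset.Icc a b, (φ (n + 1) + φ (n - 1) + V n * φ n - E * φ n) ^ 2 = 0 := by
    refine Finset.sum_eq_zero fun n hn => ?_
    rw [Finset.mem_Icc] at hn
    rw [h.2.2 n hn.1 hn.2]
    ring
  rw [h2] at h1
  have h3 := (Finset.sum_eq_zero_iff_of_nonneg (fun j _ => sq_nonneg _)).1 h1.symm
  have h4 : ∀ j, ip a b (ψ j) φ = 0 := by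
    intro j
    have h5 := h3 j (Finset.mem_univ _)
    have h6 := pow_eq_zero_iff (two_ne_zero) |>.1 h5
    exact (mul_eq_zero.1 h6).resolve_left (sub_ne_zero.2 (hcon j))
  have h7 := h.2.1
  rw [hp φ] at h7
  simp only [h4] at h7
  simp at h7

theorem taskCard : TaskCard := by
  intro V a b hab
  obtain ⟨e, ψ, he, ho, hx, hp⟩ := spectral V a b
  refine ⟨Finset.univ.image e, ?_, fun E φ h => ?_⟩
  · have h1 : (Finset.univ.image e).card ≤ Fintype.card (Bx a b) := Finset.card_image_le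
    have h2 : Fintype.card (Bx a b) = (b + 1 - a).toNat := by
      rw [Fintype.card_coe, Int.card_Icc]
    omega
  · obtain ⟨j, hj⟩ := eig_mem he hp h
    exact Finset.mem_image.2 ⟨j, Finset.mem_univ _, hj⟩

theorem taskCompl : TaskCompl := by
  intro V L
  obtain ⟨e, ψ, he, ho, hx, hp⟩ := spectral V (-(L : ℤ)) L
  have hc : Fintype.card (Fin (2 * L + 1)) = Fintype.card (Bx (-(L : ℤ)) L) := by
    rw [Fintype.card_coe, Int.card_Icc, Fintype.card_fin]
    omega
  let σ : Fin (2 * L + 1) ≃ Bx (-(L : ℤ)) L := Fintype.equivOfCardEq hc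
  refine ⟨fun j => e (σ j), fun j => ψ (σ j), fun j => he _, fun n => ?_, fun c => ?_⟩
  · have h0 : Sp (-(L : ℤ)) L (fun n => if n = 0 then (1 : ℝ) else 0) := by
      intro n hn
      show (if n = 0 then (1 : ℝ) else 0) = 0
      rw [if_neg (by omega)]
    have h9 := hx _ h0 n
    rw [h9]
    have h1 : ∀ j, ip (-(L : ℤ)) L (ψ j) (fun n => if n = 0 then (1 : ℝ) else 0) = ψ j 0 := by
      intro j
      unfold ip
      rw [Finset.sum_eq_single 0]
      · simp
      · intro n _ hn; simp [hn]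
      · intro h; exact absurd (Finset.mem_Icc.2 ⟨by omega, by omega⟩) h
    simp only [h1]
    exact (Equiv.sum_comp σ (fun j => ψ j 0 * ψ j n)).symm
  · have h2 : ∀ n, ∑ j, c j * ψ (σ j) n = ∑ i, c (σ.symm i) * ψ i n := by
      intro n
      rw [← Equiv.sum_comp σ (fun i => c (σ.symm i) * ψ i n)]
      simp
    simp only [h2]
    have h3 := hp (fun n => ∑ i, c (σ.symm i) * ψ i n)
    unfold nsq at h3
    rw [h3, ← Equiv.sum_comp σ]
    refine Finset.sum_congr rfl fun j _ => ?_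
    congr 1
    unfold ip
    have h4 : ∀ n, ψ (σ j) n * ∑ i, c (σ.symm i) * ψ i n =
        ∑ i, c (σ.symm i) * (ψ (σ j) n * ψ i n) := by
      intro n
      rw [Finset.mul_sum]
      refine Finset.sum_congr rfl fun i _ => by ring
    simp only [h4]
    rw [Finset.sum_comm]
    simp only [← Finset.mul_sum]
    have h5 : ∀ i, ∑ n ∈ Finset.Icc (-(L : ℤ)) L, ψ (σ j) n * ψ i n = if σ j = i then 1 else 0 :=
      fun i => ho (σ j) i
    simp only [h5]
    simp

end Pool.Agent.U187.LP
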