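import Pool.Agent.U187.LP.Basic

/-! Spectral averaging. -/

set_option autoImplicit false

open scoped BigOperators ENNReal
open MeasureTheory

namespace Pool.Agent.U187.LP

open Pool.Agent.H695R3.PP

lemma Ssum_congr {V V' : ℤ → ℝ} (E : ℝ) (b : ℤ) (j : ℕ)
    (h : ∀ i : ℕ, i < j → V (b - i) = V' (b - i)) : Ssum V E b j = Ssum V' E b j := by
  unfold Ssum
  refine Finset.sum_congr rfl fun i hi => ?_
  rw [rsol_congr E b i fun i' hi' => h i' (hi'.trans (Finset.mem_range.1 hi))]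

lemma sum_split_at (f : ℤ → ℝ) {a b m : ℤ} (h1 : a ≤ m) (h2 : m ≤ b) :
    ∑ n ∈ Finset.Icc a b, f n =
      ∑ n ∈ Finset.Icc a (m - 1), f n + (f m + ∑ n ∈ Finset.Icc (m + 1) b, f n) := by
  have e : Finset.Icc a b = Finset.Icc a (m - 1) ∪ Finset.Icc m b := by
    ext x; simp only [Finset.mem_Icc, Finset.mem_union]; omega
  rw [e, Finset.sum_union, Icc_left_insert h2, Finset.sum_insert (by simp)]
  rw [Finset.disjoint_left]
  intro x hx hx'
  simp only [Finset.mem_Icc] at hx hx'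
  omega

/-- The key formula: the value of the potential at `m` is determined by the energy. -/
lemma key_formula {V : ℤ → ℝ} {a b m : ℤ} (h1 : a ≤ m) (h2 : m ≤ b) {t E : ℝ} {ψ : ℤ → ℝ}
    (h : IsEig (Function.update V m t) a b E ψ) (h0 : ψ m ≠ 0) {i j : ℕ} (hi : m = a + i)
    (hj : m = b - j) :
    (rsol (rf V) E (-a) i).1 ≠ 0 ∧ (rsol V E b j).1 ≠ 0 ∧
      E + -((rsol (rf V) E (-a) i).2 / (rsol (rf V) E (-a) i).1) +
        -((rsol V E b j).2 / (rsol V E b j).1) = t ∧
      1 + Ssum (rf V) E (-a) i / (rsol (rf V) E (-a) i).1 ^ 2 +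
        Ssum V E b j / (rsol V E b j).1 ^ 2 = 1 / ψ m ^ 2 := by
  set V1 := Function.update V m t with hV1
  have c1 : ∀ i' : ℕ, i' < j → V1 (b - i') = V (b - i') := fun i' hi' => by
    rw [hV1, Function.update_of_ne]; omega
  have c2 : ∀ i' : ℕ, i' < i → rf V1 (-a - i') = rf V (-a - i') := fun i' hi' => by
    unfold rf
    rw [hV1, Function.update_of_ne]; omega
  have r1 := eig_right h j (by omega)
  rw [rsol_congr E b j c1] at r1
  have s1 := sum_right h j (by omega)
  rw [Ssum_congr E b j c1] at s1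
  have h' := eig_rf h
  have r2 := eig_right h' i (by omega)
  rw [rsol_congr E (-a) i c2] at r2
  have s2 := sum_right h' i (by omega)
  rw [Ssum_congr E (-a) i c2] at s2
  have e1 : b - (j : ℤ) = m := hj.symm
  have e2 : -a - (i : ℤ) = -m := by omega
  have e3 : -a - (i : ℤ) + 1 = -(m - 1) := by omega
  rw [e1] at r1 s1
  rw [e3, e2] at r2
  rw [e3] at s2
  have e4 : ∑ n ∈ Finset.Icc (-(m - 1)) (-a), rf ψ n ^ 2 =
      ∑ n ∈ Finset.Icc a (m - 1), ψ n ^ 2 := by
    have := sum_rf a (m - 1) (fun n => ψ n ^ 2)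
    exact this
  rw [e4] at s2
  simp only [rf, neg_neg] at r2 s2
  change ψ m = ψ a * (rsol (rf V) E (-a) i).1 ∧ ψ (m - 1) = ψ a * (rsol (rf V) E (-a) i).2 at r2
  change ∑ n ∈ Finset.Icc a (m - 1), ψ n ^ 2 = ψ a ^ 2 * Ssum (rf V) E (-a) i at s2
  have hl : (rsol (rf V) E (-a) i).1 ≠ 0 := fun h => h0 (by rw [r2.1, h, mul_zero])
  have hr : (rsol V E b j).1 ≠ 0 := fun h => h0 (by rw [r1.1, h, mul_zero])
  have ha : ψ a ≠ 0 := fun h => h0 (by rw [r2.1, h, zero_mul])
  have hb : ψ b ≠ 0 := fun h => h0 (by rw [r1.1, h, zero_mul])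
  have heq := h.2.2 m h1 h2
  rw [hV1, Function.update_self] at heq
  refine ⟨hl, hr, ?_, ?_⟩
  · have q1 : (rsol V E b j).2 / (rsol V E b j).1 = ψ (m + 1) / ψ m := by
      rw [r1.2]
      conv_rhs => rw [r1.1]
      field_simp
    have q2 : (rsol (rf V) E (-a) i).2 / (rsol (rf V) E (-a) i).1 = ψ (m - 1) / ψ m := by
      rw [r2.2]
      conv_rhs => rw [r2.1]
      field_simp
    rw [q1, q2]
    field_simp
    linarith
  · have hn := h.2.1
    unfold nsq at hn
    rw [sum_split_at _ h1 h2, s1, s2] at hn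
    have q1 : ψ b ^ 2 = ψ m ^ 2 / (rsol V E b j).1 ^ 2 := by
      rw [r1.1]; field_simp
    have q2 : ψ a ^ 2 = ψ m ^ 2 / (rsol (rf V) E (-a) i).1 ^ 2 := by
      rw [r2.1]; field_simp
    rw [q1, q2] at hn
    have hm2 : ψ m ^ 2 ≠ 0 := pow_ne_zero _ h0
    rw [eq_div_iff hm2]
    refine Eq.trans ?_ hn
    ring

theorem taskSA : TaskSA := by
  intro V a b m A κ hκ
  by_cases hm : a ≤ m ∧ m ≤ b
  swap
  · have : {t : ℝ | ∃ E ∈ A, ∃ ψ, IsEig (Function.update V m t) a b E ψ ∧ κ ≤ ψ m ^ 2} = ∅ := by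
      ext t
      simp only [Set.mem_ofPred_eq, Set.mem_empty_iff_false, iff_false, not_exists, not_and]
      intro E _ ψ h1
      have : ψ m = 0 := h1.1 m (by omega)
      rw [this]
      simpa using hκ
    rw [this]
    simp
  obtain ⟨h1, h2⟩ := hm
  obtain ⟨i, hi⟩ := Int.eq_ofNat_of_zero_le (sub_nonneg.2 h1)
  obtain ⟨j, hj⟩ := Int.eq_ofNat_of_zero_le (sub_nonneg.2 h2)
  have hi' : m = a + i := by omega
  have hj' : m = b - j := by omega
  set T : ℝ → ℝ := fun E => E + -((rsol (rf V) E (-a) i).2 / (rsol (rf V) E (-a) i).1) +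
        -((rsol V E b j).2 / (rsol V E b j).1) with hT
  set T' : ℝ → ℝ := fun E => 1 + Ssum (rf V) E (-a) i / (rsol (rf V) E (-a) i).1 ^ 2 +
        Ssum V E b j / (rsol V E b j).1 ^ 2 with hT'
  set S : Set ℝ := toMeasurable volume A ∩ {E | (rsol (rf V) E (-a) i).1 ≠ 0 ∧
    (rsol V E b j).1 ≠ 0 ∧ T' E ≤ 1 / κ} with hS
  have hT'm : Measurable T' := by
    refine (measurable_const.add ?_).add ?_
    · exact (Ssum_cont _ _ _).measurable.div ((rsol_cont _ _ _).1.measurable.pow_const 2)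
    · exact (Ssum_cont _ _ _).measurable.div ((rsol_cont _ _ _).1.measurable.pow_const 2)
  have hSm : MeasurableSet S := by
    refine (measurableSet_toMeasurable _ _).inter ?_
    refine MeasurableSet.inter (s₁ := {E | (rsol (rf V) E (-a) i).1 ≠ 0}) ?_
      (MeasurableSet.inter (s₁ := {E | (rsol V E b j).1 ≠ 0}) ?_ ?_)
    · exact ((measurableSet_singleton (0:ℝ)).preimage (rsol_cont _ _ _).1.measurable).compl
    · exact ((measurableSet_singleton (0:ℝ)).preimage (rsol_cont _ _ _).1.measurable).compl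
    · exact measurableSet_le hT'm measurable_const
  have hsub : {t : ℝ | ∃ E ∈ A, ∃ ψ, IsEig (Function.update V m t) a b E ψ ∧ κ ≤ ψ m ^ 2} ⊆
      T '' S := by
    rintro t ⟨E, hE, ψ, hψ, hk⟩
    have h0 : ψ m ≠ 0 := fun h => by rw [h] at hk; norm_num at hk; linarith
    obtain ⟨g1, g2, g3, g4⟩ := key_formula h1 h2 hψ h0 hi' hj'
    refine ⟨E, ⟨subset_toMeasurable _ _ hE, g1, g2, ?_⟩, g3⟩
    show T' E ≤ 1 / κ
    rw [hT']
    simp only
    rw [g4]
    exact one_div_le_one_div_of_le hκ hk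
  have hder : ∀ x ∈ S, HasFDerivWithinAt T (ContinuousLinearMap.toSpanSingleton ℝ (T' x)) S x := by
    intro x hx
    have d1 := ratio_deriv (rf V) x (-a) i hx.2.1
    have d2 := ratio_deriv V x b j hx.2.2.1
    have d3 : HasDerivAt T (T' x) x := ((hasDerivAt_id x).add d1).add d2
    exact d3.hasDerivWithinAt.hasFDerivWithinAt
  calc volume {t : ℝ | ∃ E ∈ A, ∃ ψ, IsEig (Function.update V m t) a b E ψ ∧ κ ≤ ψ m ^ 2}
      ≤ volume (T '' S) := measure_mono hsub
    _ ≤ ∫⁻ x in S, ENNReal.ofReal |(ContinuousLinearMap.toSpanSingleton ℝ (T' x)).det| :=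
        addHaar_image_le_lintegral_abs_det_fderiv volume hSm hder
    _ ≤ ∫⁻ _ in S, ENNReal.ofReal (1 / κ) := by
        refine setLIntegral_mono' hSm fun x hx => ENNReal.ofReal_le_ofReal ?_
        rw [ContinuousLinearMap.det_toSpanSingleton]
        have h5 : 0 ≤ T' x := by
          have a1 : 0 ≤ Ssum (rf V) x (-a) i := Finset.sum_nonneg fun _ _ => sq_nonneg _
          have a2 : 0 ≤ Ssum V x b j := Finset.sum_nonneg fun _ _ => sq_nonneg _
          rw [hT']
          positivity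
        rw [abs_of_nonneg h5]
        exact hx.2.2.2
    _ = ENNReal.ofReal (1 / κ) * volume S := by
        rw [setLIntegral_const]
    _ ≤ ENNReal.ofReal (1 / κ) * volume A := by
        refine mul_le_mul_right ?_ _
        calc volume S ≤ volume (toMeasurable volume A) := measure_mono Set.inter_subset_left
          _ = volume A := measure_toMeasurable _

end Pool.Agent.U187.LP
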