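import Pool.Agent.U187.LP.Spec
import Pool.Agent.U187.LP.TaskSA

/-! From box to box, and splitting of a box. -/

set_option autoImplicit false

open scoped BigOperators ENNReal
open MeasureTheory

namespace Pool.Agent.U187.LP

open Pool.Agent.H695R3.PP

/-- eigenvectors for the same eigenvalue are parallel -/
lemma eig_parallel {V : ℤ → ℝ} {a b : ℤ} {E : ℝ} {ψ φ : ℤ → ℝ} (h : IsEig V a b E ψ)
    (h' : IsEig V a b E φ) (n : ℤ) : ψ n * φ b = φ n * ψ b := by
  by_cases hn : a ≤ n ∧ n ≤ b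
  · obtain ⟨k, hk⟩ := Int.eq_ofNat_of_zero_le (sub_nonneg.2 hn.2)
    have e : n = b - k := by omega
    rw [e, (eig_right h k (by omega)).1, (eig_right h' k (by omega)).1]
    ring
  · rw [h.1 n (by omega), h'.1 n (by omega)]
    ring

lemma eig_b_ne {V : ℤ → ℝ} {a b : ℤ} {E : ℝ} {ψ : ℤ → ℝ} (h : IsEig V a b E ψ) : ψ b ≠ 0 := by
  intro h0
  have h1 : ∀ n ∈ Finset.Icc a b, ψ n ^ 2 = 0 := by
    intro n hn
    rw [Finset.mem_Icc] at hn
    obtain ⟨k, hk⟩ := Int.eq_ofNat_of_zero_le (sub_nonneg.2 hn.2)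
    have e : n = b - k := by omega
    rw [e, (eig_right h k (by omega)).1, h0]
    ring
  have h2 := h.2.1
  unfold nsq at h2
  rw [Finset.sum_eq_zero h1] at h2
  exact zero_ne_one h2

lemma spec_simple {V : ℤ → ℝ} {a b : ℤ} {e : Bx a b → ℝ} {ψ : Bx a b → ℤ → ℝ}
    (he : ∀ j, IsEig V a b (e j) (ψ j)) (ho : ∀ i j, ip a b (ψ i) (ψ j) = if i = j then 1 else 0)
    {i j : Bx a b} (hij : i ≠ j) : e i ≠ e j := by
  intro h
  have h1 := he i
  have h2 := he j
  rw [← h] at h2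
  have h3 := ho i j
  rw [if_neg hij] at h3
  have h4 : ip a b (ψ i) (ψ j) * ψ j b = ψ i b := by
    have h5 : ip a b (ψ i) (ψ j) * ψ j b = nsq a b (ψ j) * ψ i b := by
      unfold ip nsq
      rw [Finset.sum_mul, Finset.sum_mul]
      refine Finset.sum_congr rfl fun n _ => ?_
      have := eig_parallel h1 h2 n
      calc ψ i n * ψ j n * ψ j b = ψ j n * (ψ i n * ψ j b) := by ring
        _ = ψ j n * (ψ j n * ψ i b) := by rw [this]
        _ = _ := by ring
    rw [h5, h2.2.1, one_mul]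
  rw [h3, zero_mul] at h4
  exact eig_b_ne h1 h4.symm

lemma nsq_sub_supp {a b a' b' : ℤ} (ha : a' ≤ a) (hb : b ≤ b') {f : ℤ → ℝ} (hf : Sp a b f) :
    nsq a' b' f = nsq a b f := by
  unfold nsq
  symm
  refine Finset.sum_subset (Finset.Icc_subset_Icc ha hb) fun n _ hn => ?_
  rw [hf n (by rw [Finset.mem_Icc] at hn; omega)]
  ring

/-- the residual of an eigenvector of a box in a bigger box -/
lemma residual {V : ℤ → ℝ} {L L' : ℕ} {E : ℝ} {ψ : ℤ → ℝ} (hL : L < L')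
    (h : IsEig V (-(L : ℤ)) L E ψ) :
    ∑ n ∈ Finset.Icc (-(L' : ℤ)) L', (ψ (n + 1) + ψ (n - 1) + V n * ψ n - E * ψ n) ^ 2 =
      ψ L ^ 2 + ψ (-(L : ℤ)) ^ 2 := by
  have hne : (L : ℤ) + 1 ≠ -(L : ℤ) - 1 := by omega
  have h1 : ∑ n ∈ ({(L : ℤ) + 1, -(L : ℤ) - 1} : Finset ℤ),
      (ψ (n + 1) + ψ (n - 1) + V n * ψ n - E * ψ n) ^ 2 =
      ∑ n ∈ Finset.Icc (-(L' : ℤ)) L', (ψ (n + 1) + ψ (n - 1) + V n * ψ n - E * ψ n) ^ 2 := by
    refine Finset.sum_subset (fun n hn => ?_) fun n hn hn' => ?_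
    · rw [Finset.mem_insert, Finset.mem_singleton] at hn
      rw [Finset.mem_Icc]
      omega
    · rw [Finset.mem_insert, Finset.mem_singleton, not_or] at hn'
      rw [Finset.mem_Icc] at hn
      by_cases hin : -(L : ℤ) ≤ n ∧ n ≤ L
      · rw [h.2.2 n hin.1 hin.2]
        ring
      · rw [h.1 n (by omega), h.1 (n + 1) (by omega), h.1 (n - 1) (by omega)]
        ring
  rw [← h1, Finset.sum_pair hne]
  rw [h.1 ((L : ℤ) + 1 + 1) (by omega), h.1 ((L : ℤ) + 1) (by omega),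
    h.1 (-(L : ℤ) - 1) (by omega), h.1 (-(L : ℤ) - 1 - 1) (by omega)]
  have e1 : (L : ℤ) + 1 - 1 = L := by ring
  have e2 : -(L : ℤ) - 1 + 1 = -L := by ring
  rw [e1, e2]
  ring

theorem taskStep : TaskStep := by
  intro V L L' E τ d ψ hL hτ hd hB h h1 h2
  have hd0 : 0 < d := by linarith
  obtain ⟨e, φ, he, ho, hx, hp⟩ := spectral V (-(L' : ℤ)) L'
  have hsp : Sp (-(L' : ℤ)) L' ψ := fun n hn => h.1 n (by omega)
  have hn1 : nsq (-(L' : ℤ)) L' ψ = 1 := by
    rw [nsq_sub_supp (a := -(L : ℤ)) (b := L) (by omega) (by omega) h.1, h.2.1]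
  have hres := residual hL h
  have hres2 : ψ L ^ 2 + ψ (-(L : ℤ)) ^ 2 ≤ 2 * τ ^ 2 := by
    have a1 : ψ L ^ 2 ≤ τ ^ 2 := by rw [← sq_abs]; exact pow_le_pow_left₀ (abs_nonneg _) h1 2
    have a2 : ψ (-(L : ℤ)) ^ 2 ≤ τ ^ 2 := by
      rw [← sq_abs]; exact pow_le_pow_left₀ (abs_nonneg _) h2 2
    linarith
  -- an eigenvalue nearby
  obtain ⟨lam, χ, hχ, hlam⟩ := taskApprox V (-(L' : ℤ)) L' E (2 * τ) ψ (by positivity) hsp
    (by rw [hn1]; norm_num) (by rw [hres, hn1]; nlinarith)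
  obtain ⟨j0, hj0⟩ := eig_mem he hp hχ
  rw [← hj0] at hlam
  rw [res_sq he hp hsp E] at hres
  set c : Bx (-(L' : ℤ)) L' → ℝ := fun j => ip (-(L' : ℤ)) L' (φ j) ψ with hc
  have hgap : ∀ j, j ≠ j0 → d / 2 ≤ |e j - E| := by
    intro j hj
    have hne := spec_simple he ho hj
    have h3 : d < |e j - e j0| := by
      by_contra hcon
      push Not at hcon
      exact hB ⟨e j, φ j, e j0, φ j0, he j, he j0, hne, hcon⟩
    have h4 : |e j - e j0| ≤ |e j - E| + |e j0 - E| := by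
      calc |e j - e j0| = |(e j - E) - (e j0 - E)| := by congr 1; ring
        _ ≤ _ := abs_sub _ _
    linarith
  have hrest : ∑ j ∈ Finset.univ.erase j0, c j ^ 2 ≤ 8 * τ ^ 2 / d ^ 2 := by
    have h3 : ∑ j ∈ Finset.univ.erase j0, (d / 2) ^ 2 * c j ^ 2 ≤
        ∑ j, ((e j - E) * c j) ^ 2 := by
      calc ∑ j ∈ Finset.univ.erase j0, (d / 2) ^ 2 * c j ^ 2
          ≤ ∑ j ∈ Finset.univ.erase j0, ((e j - E) * c j) ^ 2 := by
            refine Finset.sum_le_sum fun j hj => ?_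
            rw [mul_pow]
            refine mul_le_mul_of_nonneg_right ?_ (sq_nonneg _)
            rw [← sq_abs (e j - E)]
            exact pow_le_pow_left₀ (by positivity) (hgap j (Finset.ne_of_mem_erase hj)) 2
        _ ≤ _ := Finset.sum_le_sum_of_subset_of_nonneg (Finset.erase_subset _ _)
            fun j _ _ => sq_nonneg _
    rw [← Finset.mul_sum] at h3
    rw [le_div_iff₀ (by positivity)]
    have h4 : ∑ j, ((e j - E) * c j) ^ 2 ≤ 2 * τ ^ 2 := by rw [hres]; exact hres2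
    nlinarith
  have hsum : c j0 ^ 2 + ∑ j ∈ Finset.univ.erase j0, c j ^ 2 = 1 := by
    have h3 := Finset.add_sum_erase Finset.univ (fun j => c j ^ 2) (Finset.mem_univ j0)
    rw [h3, ← hp ψ, hn1]
  set σ : ℝ := if 0 ≤ c j0 then 1 else -1 with hσ
  have hσ2 : σ ^ 2 = 1 := by rw [hσ]; split_ifs <;> norm_num
  have hσc : σ * c j0 = |c j0| := by
    rw [hσ]
    split_ifs with h5
    · rw [one_mul, abs_of_nonneg h5]
    · rw [abs_of_neg (not_le.1 h5)]; ring
  refine ⟨e j0, fun n => σ * φ j0 n, ⟨fun n hn => ?_, ?_, fun n h5 h6 => ?_⟩, hlam, ?_⟩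
  · show σ * φ j0 n = 0
    rw [(he j0).1 n hn, mul_zero]
  · have : nsq (-(L' : ℤ)) L' (fun n => σ * φ j0 n) = σ ^ 2 * nsq (-(L' : ℤ)) L' (φ j0) := by
      unfold nsq
      rw [Finset.mul_sum]
      refine Finset.sum_congr rfl fun n _ => by ring
    rw [this, hσ2, (he j0).2.1, one_mul]
  · have := (he j0).2.2 n h5 h6
    linear_combination σ * this
  · have h7 : ∑ n ∈ Finset.Icc (-(L' : ℤ)) L', (ψ n - σ * φ j0 n) ^ 2 =
        nsq (-(L' : ℤ)) L' ψ - 2 * (σ * c j0) + σ ^ 2 * nsq (-(L' : ℤ)) L' (φ j0) := by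
      rw [hc]
      unfold nsq ip
      simp only [Finset.mul_sum]
      rw [← Finset.sum_sub_distrib, ← Finset.sum_add_distrib]
      refine Finset.sum_congr rfl fun n _ => by ring
    rw [h7, hn1, (he j0).2.1, hσ2, hσc, mul_one]
    have h8 : |c j0| ≤ 1 := by
      rw [← sq_le_one_iff_abs_le_one]
      have : 0 ≤ ∑ j ∈ Finset.univ.erase j0, c j ^ 2 := Finset.sum_nonneg fun _ _ => sq_nonneg _
      linarith
    have h9 : c j0 ^ 2 ≤ |c j0| := by
      rw [← sq_abs, sq]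
      exact mul_le_of_le_one_left (abs_nonneg _) h8
    have h10 : (4 * τ / d) ^ 2 = 2 * (8 * τ ^ 2 / d ^ 2) := by
      rw [div_pow]; ring
    rw [h10]
    linarith

/-- a unit vector of the span of two orthonormal vectors which vanishes at `m` -/
lemma exists_vanish (x y : ℝ) : ∃ α β : ℝ, α ^ 2 + β ^ 2 = 1 ∧ α * x + β * y = 0 := by
  by_cases h : x ^ 2 + y ^ 2 = 0
  · have hx : x = 0 := by nlinarith [sq_nonneg x, sq_nonneg y]
    have hy : y = 0 := by nlinarith [sq_nonneg x, sq_nonneg y]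
    exact ⟨1, 0, by norm_num, by rw [hx, hy]; ring⟩
  · have hpos : 0 < x ^ 2 + y ^ 2 := lt_of_le_of_ne (by positivity) (Ne.symm h)
    set s := Real.sqrt (x ^ 2 + y ^ 2) with hs
    have hs0 : 0 < s := Real.sqrt_pos.2 hpos
    have hs2 : s ^ 2 = x ^ 2 + y ^ 2 := Real.sq_sqrt hpos.le
    refine ⟨y / s, -x / s, ?_, ?_⟩
    · rw [div_pow, div_pow, ← add_div, hs2, neg_sq, add_comm (y ^ 2)]
      exact div_self h
    · ring

lemma taskSplit_left {V : ℤ → ℝ} {a b : ℤ} {E E' d : ℝ} {ψ ψ' : ℤ → ℝ} (h : IsEig V a b E ψ)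
    (h' : IsEig V a b E' ψ') (hd : |E - E'| ≤ d) {p q : ℤ} (hp : a ≤ p) (hq : q ≤ b)
    {α β : ℝ} (h0p : α * ψ (p - 1) + β * ψ' (p - 1) = 0) (h0q : α * ψ (q + 1) + β * ψ' (q + 1) = 0)
    (hn : ip a b ψ ψ' = 0) (hαβ : α ^ 2 + β ^ 2 = 1)
    (hm : 1 / 9 ≤ ∑ n ∈ Finset.Icc p q, (α * ψ n + β * ψ' n) ^ 2) :
    ∃ lam φ, IsEig V p q lam φ ∧ |lam - (E + E') / 2| ≤ 3 / 2 * d := by
  set f : ℤ → ℝ := fun n => if p ≤ n ∧ n ≤ q then α * ψ n + β * ψ' n else 0 with hf
  have hd0 : 0 ≤ d := (abs_nonneg _).trans hd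
  have hfn : ∀ n, p - 1 ≤ n → n ≤ q + 1 → f n = α * ψ n + β * ψ' n := by
    intro n h1 h2
    simp only [hf]
    split_ifs with h3
    · rfl
    · rcases (by omega : n = p - 1 ∨ n = q + 1) with h4 | h4
      · rw [h4, h0p]
      · rw [h4, h0q]
  have hfs : nsq p q f = ∑ n ∈ Finset.Icc p q, (α * ψ n + β * ψ' n) ^ 2 := by
    unfold nsq
    refine Finset.sum_congr rfl fun n hn => ?_
    rw [Finset.mem_Icc] at hn
    rw [hfn n (by omega) (by omega)]
  refine taskApprox V p q ((E + E') / 2) (3 / 2 * d) f (by positivity) (fun n hn => ?_) ?_ ?_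
  · simp only [hf]
    rw [if_neg (by omega)]
  · rw [hfs]; linarith
  · have h1 : ∀ n ∈ Finset.Icc p q,
        (f (n + 1) + f (n - 1) + V n * f n - (E + E') / 2 * f n) ^ 2 =
        ((E - E') / 2) ^ 2 * (α * ψ n - β * ψ' n) ^ 2 := by
      intro n hn
      rw [Finset.mem_Icc] at hn
      rw [hfn n (by omega) (by omega), hfn (n + 1) (by omega) (by omega),
        hfn (n - 1) (by omega) (by omega), ← mul_pow]
      congr 1
      have e1 := h.2.2 n (by omega) (by omega)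
      have e2 := h'.2.2 n (by omega) (by omega)
      linear_combination α * e1 + β * e2
    rw [Finset.sum_congr rfl h1, ← Finset.mul_sum, hfs]
    have h2 : ∑ n ∈ Finset.Icc p q, (α * ψ n - β * ψ' n) ^ 2 ≤ 1 := by
      calc ∑ n ∈ Finset.Icc p q, (α * ψ n - β * ψ' n) ^ 2
          ≤ ∑ n ∈ Finset.Icc a b, (α * ψ n - β * ψ' n) ^ 2 :=
            Finset.sum_le_sum_of_subset_of_nonneg (Finset.Icc_subset_Icc hp hq)
              fun _ _ _ => sq_nonneg _
        _ = α ^ 2 * nsq a b ψ - 2 * α * β * ip a b ψ ψ' + β ^ 2 * nsq a b ψ' := by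
            unfold nsq ip
            simp only [Finset.mul_sum]
            rw [← Finset.sum_sub_distrib, ← Finset.sum_add_distrib]
            refine Finset.sum_congr rfl fun n _ => by ring
        _ = 1 := by rw [h.2.1, h'.2.1, hn]; linarith
    have h3 : ((E - E') / 2) ^ 2 ≤ (d / 2) ^ 2 := by
      rw [← sq_abs ((E - E') / 2), abs_div, abs_of_pos (by norm_num : (0 : ℝ) < 2)]
      exact pow_le_pow_left₀ (by positivity) (by linarith) 2
    calc ((E - E') / 2) ^ 2 * ∑ n ∈ Finset.Icc p q, (α * ψ n - β * ψ' n) ^ 2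
        ≤ (d / 2) ^ 2 * 1 := mul_le_mul h3 h2 (Finset.sum_nonneg fun _ _ => sq_nonneg _)
          (by positivity)
      _ = (3 / 2 * d) ^ 2 * (1 / 9) := by ring
      _ ≤ _ := mul_le_mul_of_nonneg_left hm (by positivity)

theorem taskSplit : TaskSplit := by
  intro V a b E E' d ψ ψ' hab h h' hne hd
  -- orthogonality
  have horth : ip a b ψ ψ' = 0 := by
    have h1 := ip_symm V (eig_sp h') (eig_sp h)
    rw [eig_hop h] at h1
    have h2 : ip a b ψ (Hop V ψ') = E' * ip a b ψ ψ' := by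
      have h3 := eig_hop h' ψ
      have e1 : ip a b ψ (Hop V ψ') = ip a b (Hop V ψ') ψ := by
        unfold ip; refine Finset.sum_congr rfl fun n _ => by ring
      have e2 : ip a b ψ' ψ = ip a b ψ ψ' := by
        unfold ip; refine Finset.sum_congr rfl fun n _ => by ring
      rw [e1, h3, e2]
    rw [h2] at h1
    have h4 : (E' - E) * ip a b ψ ψ' = 0 := by linarith
    exact (mul_eq_zero.1 h4).resolve_left (sub_ne_zero.2 hne.symm)
  have htot : ∀ α β : ℝ, α ^ 2 + β ^ 2 = 1 →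
      ∑ n ∈ Finset.Icc a b, (α * ψ n + β * ψ' n) ^ 2 = 1 := by
    intro α β hαβ
    have : ∑ n ∈ Finset.Icc a b, (α * ψ n + β * ψ' n) ^ 2 =
        α ^ 2 * nsq a b ψ + 2 * α * β * ip a b ψ ψ' + β ^ 2 * nsq a b ψ' := by
      unfold nsq ip
      simp only [Finset.mul_sum]
      rw [← Finset.sum_add_distrib, ← Finset.sum_add_distrib]
      refine Finset.sum_congr rfl fun n _ => by ring
    rw [this, h.2.1, h'.2.1, horth]
    linarith
  -- the first good site
  let P : ℕ → Prop := fun k => a + k ≤ b ∧ ∃ α β : ℝ, α ^ 2 + β ^ 2 = 1 ∧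
    α * ψ (a + k) + β * ψ' (a + k) = 0 ∧
    1 / 9 ≤ ∑ n ∈ Finset.Icc a (a + k - 1), (α * ψ n + β * ψ' n) ^ 2
  classical
  have hex : ∃ k, P k := by
    obtain ⟨k, hk⟩ := Int.eq_ofNat_of_zero_le (sub_nonneg.2 hab)
    have hk' : a + k = b := by omega
    obtain ⟨α, β, h1, h2⟩ := exists_vanish (ψ b) (ψ' b)
    refine ⟨k, by omega, α, β, h1, by rw [hk']; exact h2, ?_⟩
    have h3 := htot α β h1
    rw [sum_split_at _ hab le_rfl, h2] at h3
    have h4 : Finset.Icc (b + 1) b = ∅ := by ext x; simp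
    rw [h4] at h3
    rw [hk']
    norm_num at h3 ⊢
    rw [h3]
    norm_num
  set k := Nat.find hex with hk
  obtain ⟨hkb, α, β, hαβ, hv, hmass⟩ := Nat.find_spec hex
  rw [← hk] at hkb hv hmass
  have hk0 : k ≠ 0 := by
    intro h0
    rw [h0] at hmass
    have h4 : Finset.Icc a (a + ((0 : ℕ) : ℤ) - 1) = ∅ := by ext x; simp
    rw [h4] at hmass
    norm_num at hmass
  obtain ⟨l, hl⟩ := Nat.exists_eq_succ_of_ne_zero hk0
  have hnot : ¬ P l := Nat.find_min hex (by rw [← hk, hl]; exact Nat.lt_succ_self l)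
  obtain ⟨γ, δ, hγδ, hv2⟩ := exists_vanish (ψ (a + l)) (ψ' (a + l))
  have hleft : ∑ n ∈ Finset.Icc a (a + l - 1), (γ * ψ n + δ * ψ' n) ^ 2 < 1 / 9 := by
    by_contra hcon
    push Not at hcon
    exact hnot ⟨by rw [hl] at hkb; push_cast at hkb; omega, γ, δ, hγδ, hv2, hcon⟩
  have hkl : (k : ℤ) = l + 1 := by rw [hl]; push_cast; ring
  have hright : 1 / 9 ≤ ∑ n ∈ Finset.Icc (a + k) b, (γ * ψ n + δ * ψ' n) ^ 2 := by
    have h3 := htot γ δ hγδ
    rw [sum_split_at _ (by omega : a ≤ a + l) (by omega), hv2] at h3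
    have e : a + (l : ℤ) + 1 = a + k := by omega
    rw [e] at h3
    norm_num at h3
    linarith
  refine ⟨a + k, by omega, hkb, ?_⟩
  obtain ⟨lam, φ, h1, h2⟩ := taskSplit_left h h' hd (p := a) (q := a + k - 1) (α := α) (β := β)
    le_rfl (by omega)
    (by rw [h.1 (a - 1) (by omega), h'.1 (a - 1) (by omega)]; ring)
    (by rw [show a + (k : ℤ) - 1 + 1 = a + k by ring]; exact hv) horth hαβ hmass
  obtain ⟨lam', φ', h1', h2'⟩ := taskSplit_left h h' hd (p := a + k) (q := b) (α := γ) (β := δ)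
    (by omega) le_rfl
    (by rw [show a + (k : ℤ) - 1 = a + l by omega]; exact hv2)
    (by rw [h.1 (b + 1) (by omega), h'.1 (b + 1) (by omega)]; ring) horth hγδ hright
  refine ⟨lam, φ, lam', φ', h1, h1', ?_⟩
  calc |lam - lam'| = |(lam - (E + E') / 2) - (lam' - (E + E') / 2)| := by congr 1; ring
    _ ≤ |lam - (E + E') / 2| + |lam' - (E + E') / 2| := abs_sub _ _
    _ ≤ 3 * d := by linarith

end Pool.Agent.U187.LP
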