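import Pool.Agent.U187.LP.Contr
import Pool.Agent.U187.LP.TaskSAP

/-! The first negative moment of the length decays exponentially. -/

set_option autoImplicit false

open scoped BigOperators ENNReal
open MeasureTheory

namespace Pool.Agent.U187.LP

open Pool.Agent.H695R3.PP

/-- resampling one coordinate -/
lemma resample (m : ℤ) (F : (ℤ → ℝ) → ℝ≥0∞) (hF : Measurable F) :
    ∫⁻ x, F x ∂PZ = ∫⁻ x, ∫⁻ s, F (Function.update x m s) ∂U ∂PZ := by
  have h1 := Pool.Agent.H853R3.PP.Resample.taskResample ℤ (fun _ => ℝ) (fun _ => U) m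
  have hup : Measurable (fun p : (ℤ → ℝ) × ℝ => Function.update p.1 m p.2) :=
    Pool.Agent.H853R3.PP.Resample.measurable_upd (X := fun _ : ℤ => ℝ) m
  calc ∫⁻ x, F x ∂PZ = ∫⁻ x, F x ∂(Measure.map (fun p : (ℤ → ℝ) × ℝ =>
        Function.update p.1 m p.2) (PZ.prod U)) := by
        unfold PZ
        rw [h1]
    _ = ∫⁻ p, F (Function.update p.1 m p.2) ∂(PZ.prod U) := lintegral_map hF hup
    _ = ∫⁻ x, ∫⁻ s, F (Function.update x m s) ∂U ∂PZ :=
        lintegral_prod _ (hF.comp hup).aemeasurable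

section

variable (ε E : ℝ) (W : ℤ → ℝ) (b : ℤ)

/-- the random solution -/
noncomputable def rs (x : ℤ → ℝ) (j : ℕ) : ℝ × ℝ := rsol (fun n => W n + ε * x n) E b j

lemma rs_meas (j : ℕ) : Measurable (fun x => rs ε E W b x j) := by
  induction j with
  | zero => exact measurable_const
  | succ j ih =>
    have h : (fun x => rs ε E W b x (j + 1)) = fun x =>
        ((E - (W (b - j) + ε * x (b - j))) * (rs ε E W b x j).1 - (rs ε E W b x j).2,
          (rs ε E W b x j).1) := by
      funext x; rfl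
    rw [h]
    refine Measurable.prodMk (Measurable.sub (Measurable.mul ?_ ?_) ?_) ?_
    · exact measurable_const.sub (measurable_const.add
        (measurable_const.mul (measurable_pi_apply _)))
    · exact measurable_fst.comp ih
    · exact measurable_snd.comp ih
    · exact measurable_fst.comp ih

lemma rs_update (x : ℤ → ℝ) (s : ℝ) (j k : ℕ) (hjk : k ≤ j) :
    rs ε E W b (Function.update x (b - j) s) k = rs ε E W b x k := by
  unfold rs
  refine rsol_congr E b k fun i hi => ?_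
  rw [Function.update_of_ne (by omega)]

lemma rs_update_succ (x : ℤ → ℝ) (s : ℝ) (j : ℕ) :
    rs ε E W b (Function.update x (b - j) s) (j + 1) =
      ((E - W (b - j) - ε * s) * (rs ε E W b x j).1 - (rs ε E W b x j).2,
        (rs ε E W b x j).1) := by
  have h := rs_update ε E W b x s j j le_rfl
  unfold rs at h ⊢
  simp only [rsol]
  rw [h, Function.update_self]
  congr 2
  ring

lemma U_null (A : Set ℝ) (h : volume A = 0) : U A = 0 := by
  have := U_le A
  rw [h, mul_zero] at this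
  exact le_antisymm this bot_le

lemma rs_ne (x : ℤ → ℝ) (j : ℕ) : rs ε E W b x j ≠ 0 := by
  induction j with
  | zero => unfold rs; simp [rsol]
  | succ j ih =>
    intro h
    apply ih
    have h1 : (rs ε E W b x j).1 = 0 := congrArg Prod.snd h
    have h2 : (E - (W (b - j) + ε * x (b - j))) * (rs ε E W b x j).1 - (rs ε E W b x j).2 = 0 :=
      congrArg Prod.fst h
    rw [h1] at h2
    exact Prod.ext h1 (by simpa using h2)

/-- the first component is almost surely nonzero -/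
lemma rs_fst_ae (hε : 0 < ε) (j : ℕ) : ∀ᵐ x ∂PZ, (rs ε E W b x j).1 ≠ 0 := by
  induction j with
  | zero => exact Filter.Eventually.of_forall fun x => by unfold rs; simp [rsol]
  | succ j ih =>
    rw [ae_iff]
    simp only [not_not]
    have hm : MeasurableSet {x | (rs ε E W b x (j + 1)).1 = 0} :=
      (measurable_fst.comp (rs_meas ε E W b (j + 1))) (measurableSet_singleton 0)
    have h1 : PZ {x | (rs ε E W b x (j + 1)).1 = 0} =
        ∫⁻ x, {x | (rs ε E W b x (j + 1)).1 = 0}.indicator 1 x ∂PZ := by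
      rw [lintegral_indicator_one hm]
    rw [h1, resample (b - j) _ (measurable_one.indicator hm)]
    rw [lintegral_eq_zero_iff']
    · filter_upwards [ih] with x hx
      rw [Pi.zero_apply]
      have h2 : ∀ s, {x | (rs ε E W b x (j + 1)).1 = 0}.indicator (1 : (ℤ → ℝ) → ℝ≥0∞)
          (Function.update x (b - j) s) = {s : ℝ | (E - W (b - j) - ε * s) *
            (rs ε E W b x j).1 - (rs ε E W b x j).2 = 0}.indicator 1 s := by
        intro s
        simp only [Set.indicator, Set.mem_ofPred_eq, rs_update_succ, Pi.one_apply]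
      rw [lintegral_congr h2]
      have h3 : {s : ℝ | (E - W (b - j) - ε * s) *
            (rs ε E W b x j).1 - (rs ε E W b x j).2 = 0} ⊆
            {(E - W (b - j) - (rs ε E W b x j).2 / (rs ε E W b x j).1) / ε} := by
        intro s hs
        rw [Set.mem_ofPred_eq] at hs
        rw [Set.mem_singleton_iff]
        field_simp
        linarith
      refine le_antisymm ?_ bot_le
      refine (lintegral_indicator_one_le _).trans ?_
      exact (U_null _ (measure_mono_null h3 (by simp))).le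
    · refine Measurable.aemeasurable ?_
      refine Measurable.lintegral_prod_right' (f := fun p : (ℤ → ℝ) × ℝ =>
        {x | (rs ε E W b x (j + 1)).1 = 0}.indicator (1 : (ℤ → ℝ) → ℝ≥0∞)
          (Function.update p.1 (b - j) p.2)) ?_
      exact (measurable_one.indicator hm).comp
        (Pool.Agent.H853R3.PP.Resample.measurable_upd (X := fun _ : ℤ => ℝ) (b - j))

/-- homogeneous extension of degree `-1` -/
noncomputable def Ph (g : ℝ → ℝ≥0∞) (v : ℝ × ℝ) : ℝ≥0∞ := ENNReal.ofReal |v.2|⁻¹ * g (v.1 / v.2)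

lemma Ph_meas {g : ℝ → ℝ≥0∞} (hg : Measurable g) : Measurable (Ph g) := by
  unfold Ph
  refine Measurable.mul ?_ ?_
  · exact ENNReal.measurable_ofReal.comp ((measurable_norm.comp measurable_snd).inv)
  · exact hg.comp (measurable_fst.div measurable_snd)

/-- one step -/
lemma Ph_step {g : ℝ → ℝ≥0∞} (hg : Measurable g) (hε : 0 < ε) (j : ℕ) :
    ∫⁻ x, Ph g (rs ε E W b x (j + 2)) ∂PZ =
      ∫⁻ x, Ph (UR (E - W (b - (j + 1 : ℕ))) (avg ε g)) (rs ε E W b x (j + 1)) ∂PZ := by
  rw [resample (b - (j + 1 : ℕ)) (fun x => Ph g (rs ε E W b x (j + 2)))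
    ((Ph_meas hg).comp (rs_meas ε E W b (j + 2)))]
  refine lintegral_congr_ae ?_
  filter_upwards [rs_fst_ae ε E W b hε j] with x hx
  have h1 : ∀ s, Ph g (rs ε E W b (Function.update x (b - (j + 1 : ℕ)) s) (j + 2)) =
      ENNReal.ofReal |(rs ε E W b x (j + 1)).1|⁻¹ *
        g ((E - W (b - (j + 1 : ℕ)) - ε * s) - (rs ε E W b x (j + 1)).2 /
          (rs ε E W b x (j + 1)).1) := by
    intro s
    rw [rs_update_succ]
    unfold Ph
    simp only
    by_cases h0 : (rs ε E W b x (j + 1)).1 = 0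
    · rw [h0]; simp
    · congr 2
      field_simp
  rw [lintegral_congr h1]
  set u := (rs ε E W b x (j + 1)).1 with hu
  set w := (rs ε E W b x (j + 1)).2 with hw
  have hw0 : w ≠ 0 := hx
  set c := E - W (b - (j + 1 : ℕ)) with hc
  rw [lintegral_const_mul' _ _ ENNReal.ofReal_ne_top]
  have h2 : ∫⁻ s, g ((c - ε * s) - w / u) ∂U = avg ε g (c - w / u) := by
    unfold avg
    -- symmetry of `U`
    have hneg : Measure.map (fun s : ℝ => -s) U = U := by
      unfold U
      rw [Measure.map_smul]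
      congr 1
      ext A hA
      rw [Measure.map_apply measurable_neg hA, Measure.restrict_apply (measurable_neg hA),
        Measure.restrict_apply hA]
      have e : (fun s : ℝ => -s) ⁻¹' A ∩ Set.Icc (-1) 1 = Neg.neg ⁻¹' (A ∩ Set.Icc (-1) 1) := by
        ext s
        simp only [Set.mem_inter_iff, Set.mem_preimage, Set.mem_Icc]
        constructor
        · rintro ⟨h1, h2, h3⟩; exact ⟨h1, by linarith, by linarith⟩
        · rintro ⟨h1, h2, h3⟩; exact ⟨h1, by linarith, by linarith⟩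
      rw [e, Measure.measure_preimage_neg]
    conv_rhs => rw [← hneg]
    have hm : Measurable fun s => g (c - w / u + ε * s) :=
      hg.comp (measurable_const.add (measurable_const.mul measurable_id))
    rw [lintegral_map hm measurable_neg]
    refine lintegral_congr fun s => ?_
    congr 1
    ring
  rw [h2]
  show _ = ENNReal.ofReal |w|⁻¹ * UR c (avg ε g) (u / w)
  unfold UR
  rw [← mul_assoc, ← ENNReal.ofReal_mul (by positivity), inv_div]
  congr 2
  rw [abs_div]
  by_cases h0 : u = 0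
  · rw [h0]; simp
  · have : |w| ≠ 0 := abs_ne_zero.2 hw0
    field_simp

/-- iterated operator -/
noncomputable def It (g : ℝ → ℝ≥0∞) : ℕ → (ℝ → ℝ≥0∞)
  | 0 => g
  | (j + 1) => It (UR (E - W (b - (j + 1 : ℕ))) (avg ε g)) j

end

lemma It_meas (ε E : ℝ) (W : ℤ → ℝ) (b : ℤ) (j : ℕ) :
    ∀ g : ℝ → ℝ≥0∞, Measurable g → Measurable (It ε E W b g j) := by
  induction j with
  | zero => intro g hg; exact hg
  | succ j ih => intro g hg; exact ih _ (UR_meas (avg_meas hg))

lemma Ph_iter {ε : ℝ} (hε : 0 < ε) (E : ℝ) (W : ℤ → ℝ) (b : ℤ) (j : ℕ) :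
    ∀ g : ℝ → ℝ≥0∞, Measurable g →
    ∫⁻ x, Ph g (rs ε E W b x (j + 1)) ∂PZ = avg ε (It ε E W b g j) (E - W b) := by
  induction j with
  | zero =>
    intro g hg
    rw [resample b (fun x => Ph g (rs ε E W b x (0 + 1)))
      ((Ph_meas hg).comp (rs_meas ε E W b (0 + 1)))]
    have h1 : ∀ x s, Ph g (rs ε E W b (Function.update x b s) (0 + 1)) = g (E - W b - ε * s) := by
      intro x s
      unfold rs Ph
      simp [rsol]
      congr 1
      ring
    simp only [h1]
    rw [lintegral_const, measure_univ, mul_one]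
    unfold avg It
    have hneg : Measure.map (fun s : ℝ => -s) U = U := by
      unfold U
      rw [Measure.map_smul]
      congr 1
      ext A hA
      rw [Measure.map_apply measurable_neg hA, Measure.restrict_apply (measurable_neg hA),
        Measure.restrict_apply hA]
      have e : (fun s : ℝ => -s) ⁻¹' A ∩ Set.Icc (-1) 1 = Neg.neg ⁻¹' (A ∩ Set.Icc (-1) 1) := by
        ext s
        simp only [Set.mem_inter_iff, Set.mem_preimage, Set.mem_Icc]
        constructor
        · rintro ⟨h1, h2, h3⟩; exact ⟨h1, by linarith, by linarith⟩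
        · rintro ⟨h1, h2, h3⟩; exact ⟨h1, by linarith, by linarith⟩
      rw [e, Measure.measure_preimage_neg]
    conv_rhs => rw [← hneg]
    have hm : Measurable fun s => g (E - W b + ε * s) :=
      hg.comp (measurable_const.add (measurable_const.mul measurable_id))
    rw [lintegral_map hm measurable_neg]
    refine lintegral_congr fun s => ?_
    congr 1
    ring
  | succ j ih =>
    intro g hg
    rw [Ph_step ε E W b hg hε j]
    exact ih _ (UR_meas (avg_meas hg))

/-- decay of the iterates -/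
lemma It_decay {c : ℝ} (hc : 0 < c) (hc2 : c ≤ 1 / 2)
    (H : ∀ (ε c₁ : ℝ) (g : ℝ → ℝ≥0∞), 0 < ε → ε ≤ 1 → Measurable g →
      nsqL (avg ε (UR c₁ (avg ε g))) ≤ ENNReal.ofReal (1 - c * ε ^ 2) * nsqL g)
    {ε : ℝ} (hε : 0 < ε) (hε1 : ε ≤ 1) (E : ℝ) (W : ℤ → ℝ) (b : ℤ) (i : ℕ) :
    ∀ g : ℝ → ℝ≥0∞, Measurable g →
      nsqL (It ε E W b g (2 * i)) ≤ ENNReal.ofReal ((1 - c * ε ^ 2) ^ i) * nsqL g ∧
      nsqL (It ε E W b g (2 * i + 1)) ≤ ENNReal.ofReal ((1 - c * ε ^ 2) ^ i) * nsqL g := by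
  have hρ : 0 ≤ 1 - c * ε ^ 2 := by
    have : ε ^ 2 ≤ 1 := pow_le_one₀ hε.le hε1
    nlinarith
  have key : ∀ (c₁ : ℝ) (g : ℝ → ℝ≥0∞), Measurable g → nsqL (UR c₁ (avg ε g)) ≤ nsqL g := by
    intro c₁ g hg
    rw [(taskIso c₁ (avg ε g) (avg_meas hg)).1]
    exact (taskAvg ε g hε hε1 hg).2.1
  induction i with
  | zero =>
    intro g hg
    simp only [pow_zero, ENNReal.ofReal_one, one_mul]
    exact ⟨le_rfl, key _ g hg⟩
  | succ i ih =>
    intro g hg
    set g2 : ℕ → ℝ → ℝ≥0∞ := fun k => UR (E - W (b - (k + 1 : ℕ)))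
      (avg ε (UR (E - W (b - (k + 2 : ℕ))) (avg ε g))) with hg2
    have h1 : ∀ k : ℕ, It ε E W b g (k + 2) = It ε E W b (g2 k) k := fun k => rfl
    have h2 : ∀ k : ℕ, nsqL (g2 k) ≤ ENNReal.ofReal (1 - c * ε ^ 2) * nsqL g := by
      intro k
      rw [hg2]
      simp only
      rw [(taskIso _ _ (avg_meas (UR_meas (avg_meas hg)))).1]
      exact H ε _ g hε hε1 hg
    have h3 : ∀ k : ℕ, Measurable (g2 k) := fun k => UR_meas (avg_meas (UR_meas (avg_meas hg)))
    have e1 : 2 * (i + 1) = 2 * i + 2 := by ring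
    have e2 : 2 * (i + 1) + 1 = (2 * i + 1) + 2 := by ring
    rw [e2, e1, h1, h1, pow_succ, ENNReal.ofReal_mul (by positivity), mul_assoc]
    exact ⟨((ih _ (h3 _)).1).trans (mul_le_mul_right (h2 _) _),
      ((ih _ (h3 _)).2).trans (mul_le_mul_right (h2 _) _)⟩

/-- the function `1 / √(z² + 1)` -/
noncomputable def g0 (z : ℝ) : ℝ≥0∞ := ENNReal.ofReal (1 / Real.sqrt (z ^ 2 + 1))

lemma g0_meas : Measurable g0 := by
  unfold g0
  refine ENNReal.measurable_ofReal.comp (Measurable.div measurable_const ?_)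
  exact (Real.continuous_sqrt.comp (by fun_prop)).measurable

lemma g0_nsq : nsqL g0 ≤ ENNReal.ofReal 4 := by
  unfold nsqL g0
  have h1 : ∀ z : ℝ, ENNReal.ofReal (1 / Real.sqrt (z ^ 2 + 1)) ^ 2 =
      ENNReal.ofReal ((1 + z ^ 2)⁻¹) := by
    intro z
    rw [← ENNReal.ofReal_pow (by positivity), div_pow, Real.sq_sqrt (by positivity), one_pow,
      one_div, add_comm]
  rw [lintegral_congr h1, ← ofReal_integral_eq_lintegral_ofReal integrable_inv_one_add_sq
    (Filter.Eventually.of_forall fun z => by positivity), integral_univ_inv_one_add_sq]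
  exact ENNReal.ofReal_le_ofReal Real.pi_le_four

lemma Ph_g0 (v : ℝ × ℝ) (hv : v.2 ≠ 0) :
    Ph g0 v = ENNReal.ofReal (1 / Real.sqrt (v.1 ^ 2 + v.2 ^ 2)) := by
  unfold Ph g0
  rw [← ENNReal.ofReal_mul (by positivity)]
  congr 1
  have h1 : (v.1 / v.2) ^ 2 + 1 = (v.1 ^ 2 + v.2 ^ 2) / v.2 ^ 2 := by
    field_simp
  rw [h1, Real.sqrt_div (by positivity), Real.sqrt_sq_eq_abs]
  have : |v.2| ≠ 0 := abs_ne_zero.2 hv
  field_simp

theorem taskJ : TaskJ := by
  obtain ⟨c, hc, hc2, H⟩ := taskContr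
  refine ⟨c / 8, 16, by positivity, by linarith, by norm_num, fun ε E W b L hε hε1 => ?_⟩
  have hε2 : ε ^ 2 ≤ 1 := pow_le_one₀ hε.le hε1
  set θ : ℝ := 1 - c / 8 * ε ^ 2 with hθ
  have hθ1 : θ ≤ 1 := by rw [hθ]; nlinarith [sq_nonneg ε]
  have hθ2 : 1 / 2 ≤ θ := by rw [hθ]; nlinarith
  have hθ0 : 0 < θ := by linarith
  rcases Nat.eq_zero_or_pos L with hL | hL
  · subst hL
    have h1 : ∀ x : ℤ → ℝ, ENNReal.ofReal (1 / rlen (fun n => W n + ε * x n) E b 0) = 1 := by
      intro x
      unfold rlen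
      simp [rsol]
    rw [lintegral_congr h1, lintegral_const, measure_univ, one_mul, pow_zero, mul_one,
      ← ENNReal.ofReal_one]
    refine ENNReal.ofReal_le_ofReal ?_
    rw [le_div_iff₀ hε]
    linarith
  obtain ⟨j, rfl⟩ : ∃ j, L = j + 1 := ⟨L - 1, by omega⟩
  have h1 : ∫⁻ x, ENNReal.ofReal (1 / rlen (fun n => W n + ε * x n) E b (j + 1)) ∂PZ =
      ∫⁻ x, Ph g0 (rs ε E W b x (j + 1)) ∂PZ := by
    refine lintegral_congr_ae ?_
    filter_upwards [rs_fst_ae ε E W b hε j] with x hx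
    rw [Ph_g0 _ (show (rs ε E W b x (j + 1)).2 ≠ 0 from hx)]
    rfl
  rw [h1, Ph_iter hε E W b j g0 g0_meas]
  -- pointwise bound
  have h2 := (taskAvg ε (It ε E W b g0 j) hε hε1 (It_meas ε E W b j g0 g0_meas)).2.2.2 (E - W b)
  refine h2.trans ?_
  have h3 : nsqL (It ε E W b g0 j) ≤ ENNReal.ofReal ((16 * θ ^ (j + 1)) ^ 2) := by
    have hρ : 0 ≤ 1 - c * ε ^ 2 := by nlinarith
    have hB : 1 - c * ε ^ 2 ≤ θ ^ 8 := by
      have := one_add_mul_le_pow (a := -(c / 8 * ε ^ 2)) (by nlinarith) 8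
      have e : θ = 1 + -(c / 8 * ε ^ 2) := by rw [hθ]; ring
      rw [e]
      refine le_trans (le_of_eq ?_) this
      push_cast
      ring
    obtain ⟨i, hi⟩ : ∃ i, j = 2 * i ∨ j = 2 * i + 1 := ⟨j / 2, by omega⟩
    have h4 : nsqL (It ε E W b g0 j) ≤ ENNReal.ofReal ((1 - c * ε ^ 2) ^ i) * nsqL g0 := by
      rcases hi with hi | hi
      · rw [hi]; exact (It_decay hc hc2 H hε hε1 E W b i g0 g0_meas).1
      · rw [hi]; exact (It_decay hc hc2 H hε hε1 E W b i g0 g0_meas).2
    refine h4.trans ((mul_le_mul_right g0_nsq _).trans ?_)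
    rw [← ENNReal.ofReal_mul (by positivity)]
    refine ENNReal.ofReal_le_ofReal ?_
    have h5 : (1 - c * ε ^ 2) ^ i ≤ θ ^ (8 * i) := by
      rw [pow_mul]
      exact pow_le_pow_left₀ hρ hB i
    have h6 : θ ^ (8 * i) * θ ^ 6 ≤ θ ^ (2 * (j + 1)) := by
      rw [← pow_add]
      exact pow_le_pow_of_le_one hθ0.le hθ1 (by omega)
    have h7 : (1 / 64 : ℝ) ≤ θ ^ 6 := by
      calc (1 / 64 : ℝ) = (1 / 2) ^ 6 := by norm_num
        _ ≤ θ ^ 6 := pow_le_pow_left₀ (by norm_num) hθ2 6
    have h8 : θ ^ (8 * i) ≤ 64 * θ ^ (2 * (j + 1)) := by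
      have : 0 ≤ θ ^ (8 * i) := by positivity
      nlinarith
    have h9 : (16 * θ ^ (j + 1)) ^ 2 = 256 * θ ^ (2 * (j + 1)) := by
      rw [mul_pow, ← pow_mul, mul_comm (j + 1) 2]; norm_num
    rw [h9]
    linarith
  have h4 : nsqL (It ε E W b g0 j) ^ (1 / 2 : ℝ) ≤ ENNReal.ofReal (16 * θ ^ (j + 1)) := by
    refine (ENNReal.rpow_le_rpow h3 (by norm_num)).trans (le_of_eq ?_)
    rw [ENNReal.ofReal_rpow_of_nonneg (by positivity) (by norm_num), ← Real.sqrt_eq_rpow,
      Real.sqrt_sq (by positivity)]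
  refine (mul_le_mul_right h4 _).trans ?_
  rw [← ENNReal.ofReal_mul (by positivity)]
  refine ENNReal.ofReal_le_ofReal ?_
  have h5 : 1 / Real.sqrt ε ≤ 1 / ε := by
    refine one_div_le_one_div_of_le hε ?_
    exact Real.le_sqrt_of_sq_le (by nlinarith)
  calc 1 / Real.sqrt ε * (16 * θ ^ (j + 1)) ≤ 1 / ε * (16 * θ ^ (j + 1)) :=
        mul_le_mul_of_nonneg_right h5 (by positivity)
    _ = 16 / ε * θ ^ (j + 1) := by ring

end Pool.Agent.U187.LP
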